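import Mathlib

set_option autoImplicit false
set_option maxSynthPendingDepth 3

namespace H469Z.Daug

open RCLike Filter Topology

variable {𝕜 : Type*} [RCLike 𝕜] {X : Type*} [NormedAddCommGroup X] [NormedSpace 𝕜 X]

theorem re_le_of_norm {E : Type*} [SeminormedAddCommGroup E] [NormedSpace 𝕜 E]
    (f : E →L[𝕜] 𝕜) (x : E) : re (f x) ≤ ‖f‖ * ‖x‖ :=
  (RCLike.re_le_norm _).trans (f.le_opNorm x)

theorem re_le_one {E : Type*} [SeminormedAddCommGroup E] [NormedSpace 𝕜 E]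
    {f : E →L[𝕜] 𝕜} {x : E} (hf : ‖f‖ ≤ 1) (hx : ‖x‖ ≤ 1) : re (f x) ≤ 1 :=
  (re_le_of_norm f x).trans (mul_le_one₀ hf (norm_nonneg _) hx)

theorem exists_re_gt {E : Type*} [NormedAddCommGroup E] [NormedSpace 𝕜 E]
    (f : E →L[𝕜] 𝕜) {r : ℝ} (hr : r < ‖f‖) : ∃ x : E, ‖x‖ < 1 ∧ r < re (f x) := by
  obtain ⟨x, hx, h⟩ := f.exists_lt_apply_of_lt_opNorm hr
  obtain ⟨c, hc, hc2⟩ := RCLike.exists_norm_eq_mul_self (f x)
  refine ⟨c • x, by rw [norm_smul, hc, one_mul]; exact hx, ?_⟩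
  rw [map_smul, smul_eq_mul, ← hc2, ofReal_re]
  exact h

/-- The working form of the Daugavet property. -/
def DP (𝕜 : Type*) [RCLike 𝕜] (X : Type*) [NormedAddCommGroup X] [NormedSpace 𝕜 X] : Prop :=
  ∀ (f : X →L[𝕜] 𝕜) (y : X), ‖f‖ = 1 → ‖y‖ = 1 →
    ‖ContinuousLinearMap.id 𝕜 X + f.smulRight y‖ = 2

/-- Slices of the unit ball. -/
def Sl (g : X →L[𝕜] 𝕜) (c : ℝ) : Set X := {x | ‖x‖ ≤ 1 ∧ c < re (g x)}

theorem Sl_nonempty {g : X →L[𝕜] 𝕜} {c : ℝ} (hg : ‖g‖ = 1) (hc : c < 1) : (Sl g c).Nonempty := by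
  obtain ⟨x, h1, h2⟩ := exists_re_gt g (r := c) (by rwa [hg])
  exact ⟨x, h1.le, h2⟩

theorem slice_step (hD : DP 𝕜 X) {g : X →L[𝕜] 𝕜} {c : ℝ} (hg : ‖g‖ = 1) (hc : c < 1) (y : X)
    (hy : ‖y‖ ≤ 1) {ε : ℝ} (hε : 0 < ε) :
    ∃ (g' : X →L[𝕜] 𝕜) (c' : ℝ), ‖g'‖ = 1 ∧ c' < 1 ∧ Sl g' c' ⊆ Sl g c ∧
      ∃ h : X →L[𝕜] 𝕜, ‖h‖ ≤ 1 ∧ ‖y‖ - ε ≤ re (h (-y)) ∧ ∀ x ∈ Sl g' c', 1 - ε ≤ re (h x) := by
  by_cases hy0 : y = 0
  · refine ⟨g, max c (1 - ε), hg, max_lt hc (by linarith), ?_, g, hg.le, ?_, ?_⟩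
    · exact fun x hx => ⟨hx.1, (le_max_left _ _).trans_lt hx.2⟩
    · simp [hy0, hε.le]
    · exact fun x hx => ((le_max_right _ _).trans_lt hx.2).le
  have hyn : 0 < ‖y‖ := norm_pos_iff.2 hy0
  set y' : X := ((‖y‖⁻¹ : ℝ) : 𝕜) • y with hy'
  have hy'n : ‖y'‖ = 1 := by
    rw [hy', norm_smul, norm_ofReal, abs_of_pos (inv_pos.2 hyn), inv_mul_cancel₀ hyn.ne']
  have hyy : y = ((‖y‖ : ℝ) : 𝕜) • y' := by
    rw [hy', smul_smul, ← ofReal_mul, mul_inv_cancel₀ hyn.ne', ofReal_one, one_smul]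
  set δ : ℝ := min (min ε (1 - c)) 1 / 4 with hδ
  have hm1 : min (min ε (1 - c)) 1 ≤ ε := (min_le_left _ _).trans (min_le_left _ _)
  have hm2 : min (min ε (1 - c)) 1 ≤ 1 - c := (min_le_left _ _).trans (min_le_right _ _)
  have hm3 : min (min ε (1 - c)) 1 ≤ 1 := min_le_right _ _
  have hδ0 : 0 < δ := by
    have : 0 < min (min ε (1 - c)) 1 := lt_min (lt_min hε (by linarith)) one_pos
    positivity
  have h1 := hD g (-y') hg (by rw [norm_neg, hy'n])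
  obtain ⟨x0, hx0, h2⟩ := (ContinuousLinearMap.id 𝕜 X + g.smulRight (-y')).exists_lt_apply_of_lt_opNorm
    (r := 2 - δ) (by rw [h1]; linarith)
  obtain ⟨θ, hθ, hθ2⟩ := RCLike.exists_norm_eq_mul_self (g x0)
  set x1 := θ • x0 with hx1
  set r := ‖g x0‖ with hr
  have hx1n : ‖x1‖ ≤ 1 := by rw [hx1, norm_smul, hθ, one_mul]; exact hx0.le
  have hgx1 : g x1 = (r : 𝕜) := by rw [hx1, map_smul, smul_eq_mul, ← hθ2]
  have hr1 : r ≤ 1 := by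
    have := g.le_opNorm x0
    rw [hg, one_mul] at this
    linarith
  have hr0 : 0 ≤ r := norm_nonneg _
  have h3 : 2 - δ < ‖x1 + (r : 𝕜) • (-y')‖ := by
    have : x1 + (r : 𝕜) • (-y') = θ • ((ContinuousLinearMap.id 𝕜 X + g.smulRight (-y')) x0) := by
      simp only [add_apply, ContinuousLinearMap.id_apply,
        ContinuousLinearMap.smulRight_apply, smul_add, smul_smul, ← hθ2, hx1]
    rw [this, norm_smul, hθ, one_mul]
    exact h2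
  obtain ⟨h, hh, hh2⟩ := exists_dual_vector'' 𝕜 (x1 + (r : 𝕜) • (-y'))
  have h4 : 2 - δ < re (h x1) + r * re (h (-y')) := by
    have := congrArg re hh2
    rw [map_add, map_smul h (r : 𝕜), smul_eq_mul, map_add, re_ofReal_mul, ofReal_re] at this
    linarith
  have h5 : re (h x1) ≤ 1 := re_le_one hh hx1n
  have h6 : re (h (-y')) ≤ 1 := re_le_one hh (by rw [norm_neg, hy'n])
  have h7 : 1 - δ < r * re (h (-y')) := by linarith
  have h8 : 1 - δ < re (h (-y')) := by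
    by_contra hcon
    push Not at hcon
    nlinarith
  have h9 : 1 - δ < r := by nlinarith
  have h10 : 1 - δ < re (h x1) := by nlinarith
  set G := g + h with hG
  have hGx : 2 - 2 * δ < re (G x1) := by
    rw [hG, add_apply, map_add, hgx1, ofReal_re]; linarith
  have hGn : 2 - 2 * δ < ‖G‖ := by
    have := re_le_of_norm G x1
    have h0 := norm_nonneg G
    nlinarith
  have hGpos : 0 < ‖G‖ := by linarith
  have hsub : ∀ x ∈ Sl (((‖G‖⁻¹ : ℝ) : 𝕜) • G) ((2 - 2 * δ) / ‖G‖),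
      1 - 2 * δ < re (g x) ∧ 1 - 2 * δ < re (h x) := by
    intro x hx
    have e := hx.2
    rw [smul_apply, smul_eq_mul, re_ofReal_mul, div_eq_inv_mul,
      mul_lt_mul_iff_right₀ (inv_pos.2 hGpos), hG, add_apply, map_add] at e
    have a1 := re_le_one hg.le hx.1
    have a2 := re_le_one hh hx.1
    constructor <;> linarith
  refine ⟨((‖G‖⁻¹ : ℝ) : 𝕜) • G, (2 - 2 * δ) / ‖G‖, ?_, ?_, ?_, h, hh, ?_, ?_⟩
  · rw [norm_smul, norm_ofReal, abs_of_pos (inv_pos.2 hGpos), inv_mul_cancel₀ hGpos.ne']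
  · rw [div_lt_one hGpos]; exact hGn
  · exact fun x hx => ⟨hx.1, by linarith [(hsub x hx).1]⟩
  · have : re (h (-y)) = ‖y‖ * re (h (-y')) := by
      conv_lhs => rw [hyy]
      rw [← smul_neg, map_smul, smul_eq_mul, re_ofReal_mul]
    rw [this]
    nlinarith
  · exact fun x hx => by linarith [(hsub x hx).2]

theorem slice_finite (hD : DP 𝕜 X) {ε : ℝ} (hε : 0 < ε) (F : Set X) (hF : F.Finite)
    (hF1 : ∀ y ∈ F, ‖y‖ ≤ 1) {g : X →L[𝕜] 𝕜} {c : ℝ} (hg : ‖g‖ = 1) (hc : c < 1) :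
    ∃ (g' : X →L[𝕜] 𝕜) (c' : ℝ), ‖g'‖ = 1 ∧ c' < 1 ∧ Sl g' c' ⊆ Sl g c ∧ ∀ y ∈ F,
      ∃ h : X →L[𝕜] 𝕜, ‖h‖ ≤ 1 ∧ ‖y‖ - ε ≤ re (h (-y)) ∧ ∀ x ∈ Sl g' c', 1 - ε ≤ re (h x) := by
  induction F, hF using Set.Finite.induction_on with
  | empty => exact ⟨g, c, hg, hc, le_rfl, by simp⟩
  | @insert a s _ _ ih =>
    obtain ⟨g1, c1, a1, a2, a3, a4⟩ := ih (fun y hy => hF1 y (Set.mem_insert_of_mem _ hy))
    obtain ⟨g2, c2, b1, b2, b3, b4⟩ := slice_step hD a1 a2 a (hF1 a (Set.mem_insert _ _)) hε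
    refine ⟨g2, c2, b1, b2, b3.trans a3, ?_⟩
    rintro y (rfl | hy)
    · exact b4
    · obtain ⟨h, h1, h2, h3⟩ := a4 y hy
      exact ⟨h, h1, h2, fun x hx => h3 x (b3 hx)⟩

theorem slice_compact (hD : DP 𝕜 X) {ε : ℝ} (hε : 0 < ε) (K : Set X) (hK : IsCompact K)
    (hK1 : ∀ y ∈ K, ‖y‖ ≤ 1) {g : X →L[𝕜] 𝕜} {c : ℝ} (hg : ‖g‖ = 1) (hc : c < 1) :
    ∃ (g' : X →L[𝕜] 𝕜) (c' : ℝ), ‖g'‖ = 1 ∧ c' < 1 ∧ Sl g' c' ⊆ Sl g c ∧ ∀ y ∈ K,
      ∃ h : X →L[𝕜] 𝕜, ‖h‖ ≤ 1 ∧ ‖y‖ - 3 * ε ≤ re (h (-y)) ∧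
        ∀ x ∈ Sl g' c', 1 - ε ≤ re (h x) := by
  obtain ⟨F, hF1, hF2, hF3⟩ := finite_cover_balls_of_compact hK hε
  obtain ⟨g', c', a1, a2, a3, a4⟩ := slice_finite hD hε F hF2 (fun y hy => hK1 y (hF1 hy)) hg hc
  refine ⟨g', c', a1, a2, a3, fun y hy => ?_⟩
  obtain ⟨w, hw, hyw⟩ := Set.mem_iUnion₂.1 (hF3 hy)
  obtain ⟨h, h1, h2, h3⟩ := a4 w hw
  refine ⟨h, h1, ?_, h3⟩
  rw [mem_ball_iff_norm] at hyw
  have e1 : re (h (-w)) = re (h (-y)) + re (h (y - w)) := by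
    rw [← map_add, ← map_add]; congr 2; abel
  have e2 : re (h (y - w)) ≤ ‖y - w‖ := by
    have := re_le_of_norm h (y - w)
    nlinarith [norm_nonneg (y - w)]
  have e3 : ‖y‖ ≤ ‖w‖ + ‖y - w‖ := by
    have := norm_add_le w (y - w)
    rwa [add_sub_cancel] at this
  linarith

section
variable [NormedSpace ℝ X] [IsScalarTower ℝ 𝕜 X]

theorem convex_Sl (g : X →L[𝕜] 𝕜) (c : ℝ) : Convex ℝ (Sl g c) := by
  have h1 : Convex ℝ {x : X | ‖x‖ ≤ 1} := by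
    have := convex_closedBall (0 : X) 1
    simpa [Metric.closedBall] using this
  have h2 : Convex ℝ {x : X | c < re (g x)} :=
    convex_halfSpace_gt ((RCLike.reCLM.comp (g.restrictScalars ℝ)).toLinearMap.isLinear) c
  exact h1.inter h2

/-- A sequence in a slice whose tail is uniformly far from the convex hull of its initial
segments. -/
theorem exists_seq (hD : DP 𝕜 X) {ε : ℝ} (hε : 0 < ε) {g : X →L[𝕜] 𝕜} {c : ℝ} (hg : ‖g‖ = 1)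
    (hc : c < 1) :
    ∃ (x : ℕ → X) (C : Set X), Convex ℝ C ∧ C ⊆ Sl g c ∧ (∀ n, x n ∈ C) ∧ ∀ y ∈ C,
      ∃ h : X →L[𝕜] 𝕜, ‖h‖ ≤ 1 ∧ ‖y‖ - 3 * ε ≤ re (h (-y)) ∧
        ∀ᶠ n in atTop, 1 - ε ≤ re (h (x n)) := by
  let S := {s : (X →L[𝕜] 𝕜) × ℝ × Set X //
    ‖s.1‖ = 1 ∧ s.2.1 < 1 ∧ s.2.2.Finite ∧ s.2.2 ⊆ Sl g c ∧ Sl s.1 s.2.1 ⊆ Sl g c}
  have step : ∀ s : S, ∃ (p : X) (s' : S), p ∈ Sl s.1.1 s.1.2.1 ∧ s'.1.2.2 = insert p s.1.2.2 ∧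
      Sl s'.1.1 s'.1.2.1 ⊆ Sl s.1.1 s.1.2.1 ∧ ∀ y ∈ convexHull ℝ s'.1.2.2,
        ∃ h : X →L[𝕜] 𝕜, ‖h‖ ≤ 1 ∧ ‖y‖ - 3 * ε ≤ re (h (-y)) ∧
          ∀ x ∈ Sl s'.1.1 s'.1.2.1, 1 - ε ≤ re (h x) := by
    rintro ⟨⟨g1, c1, F⟩, a1, a2, a3, a4, a5⟩
    obtain ⟨p, hp⟩ := Sl_nonempty a1 a2
    have hF : insert p F ⊆ Sl g c := Set.insert_subset (a5 hp) a4
    have hK : convexHull ℝ (insert p F) ⊆ Sl g c := convexHull_min hF (convex_Sl g c)
    obtain ⟨g2, c2, b1, b2, b3, b4⟩ := slice_compact hD hε (convexHull ℝ (insert p F))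
      ((a3.insert p).isCompact_convexHull ℝ) (fun y hy => (hK hy).1) a1 a2
    exact ⟨p, ⟨(g2, c2, insert p F), b1, b2, a3.insert p, hF, b3.trans a5⟩, hp, rfl, b3, b4⟩
  choose pt nx h1 h2 h3 h4 using step
  let s0 : S := ⟨(g, c, ∅), hg, hc, Set.finite_empty, Set.empty_subset _, le_rfl⟩
  let s : ℕ → S := fun n => nx^[n] s0
  have hs : ∀ n, s (n + 1) = nx (s n) := fun n => Function.iterate_succ_apply' nx n s0
  have hmono : Monotone (fun n => (s n).1.2.2) := monotone_nat_of_le_succ (fun n => by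
    simp only [hs, h2]; exact Set.subset_insert _ _)
  have hanti : Antitone (fun n => Sl (s n).1.1 (s n).1.2.1) := antitone_nat_of_succ_le (fun n => by
    simp only [hs]; exact h3 _)
  refine ⟨fun n => pt (s n), ⋃ n, convexHull ℝ (s n).1.2.2, ?_, ?_, ?_, ?_⟩
  · refine Directed.convex_iUnion ?_ (fun n => convex_convexHull ℝ _)
    exact Monotone.directed_le (fun m n hmn => convexHull_mono (hmono hmn))
  · exact Set.iUnion_subset (fun n => convexHull_min (s n).2.2.2.2.1 (convex_Sl g c))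
  · intro n
    refine Set.mem_iUnion.2 ⟨n + 1, subset_convexHull ℝ _ ?_⟩
    rw [hs, h2]; exact Set.mem_insert _ _
  · intro y hy
    obtain ⟨n, hn⟩ := Set.mem_iUnion.1 hy
    have hn' : y ∈ convexHull ℝ (nx (s n)).1.2.2 := by
      rw [← hs]; exact convexHull_mono (hmono (Nat.le_succ n)) hn
    obtain ⟨h, b1, b2, b3⟩ := h4 _ y hn'
    refine ⟨h, b1, b2, eventually_atTop.2 ⟨n + 1, fun m hm => b3 _ ?_⟩⟩
    rw [← hs]
    exact hanti hm (h1 _)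

end

/-- A weak-star cluster point of a sequence in the unit ball. -/
theorem exists_cluster (x : ℕ → X) (hx : ∀ n, ‖x n‖ ≤ 1) :
    ∃ u : (X →L[𝕜] 𝕜) →L[𝕜] 𝕜, ‖u‖ ≤ 1 ∧ ∀ (h : X →L[𝕜] 𝕜) (a : ℝ),
      (∀ᶠ n in atTop, a ≤ re (h (x n))) → a ≤ re (u h) := by
  let κ := NormedSpace.inclusionInDoubleDual 𝕜 X
  let w : ℕ → WeakDual 𝕜 (StrongDual 𝕜 X) := fun n => StrongDual.toWeakDual (κ (x n))
  have hK := WeakDual.isCompact_closedBall (𝕜 := 𝕜) (E := StrongDual 𝕜 X) 0 1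
  let U : Ultrafilter ℕ := Ultrafilter.of atTop
  have hU : (U : Filter ℕ) ≤ atTop := Ultrafilter.of_le _
  obtain ⟨u, hu, hlim⟩ := hK.ultrafilter_le_nhds (U.map w) (by
    rw [le_principal_iff, Ultrafilter.mem_coe, Ultrafilter.mem_map]
    refine Filter.univ_mem' (fun n => ?_)
    simp only [Set.mem_preimage, mem_closedBall_zero_iff]
    exact (NormedSpace.double_dual_bound 𝕜 X (x n)).trans (hx n))
  refine ⟨WeakDual.toStrongDual u, by simpa using hu, fun h a ha => ?_⟩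
  have h1 : Tendsto (fun n => re (w n h)) U (𝓝 (re (u h))) :=
    (RCLike.continuous_re.tendsto _).comp (((WeakDual.eval_continuous h).tendsto u).comp hlim)
  exact ge_of_tendsto h1 (hU ha)

/-- In an L-embedded space with the Daugavet property the singular part of the bidual is
norming. -/
theorem exists_singular (hD : DP 𝕜 X) (Z : Submodule 𝕜 ((X →L[𝕜] 𝕜) →L[𝕜] 𝕜))
    (hZ1 : ∀ Φ : (X →L[𝕜] 𝕜) →L[𝕜] 𝕜,
      ∃ x : X, ∃ z ∈ Z, Φ = NormedSpace.inclusionInDoubleDual 𝕜 X x + z)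
    (hZ2 : ∀ x : X, ∀ z ∈ Z, ‖NormedSpace.inclusionInDoubleDual 𝕜 X x + z‖ = ‖x‖ + ‖z‖)
    {g : X →L[𝕜] 𝕜} (hg : ‖g‖ = 1) {η : ℝ} (hη : 0 < η) :
    ∃ s ∈ Z, ‖s‖ ≤ 1 ∧ 1 - 4 * η ≤ re (s g) := by
  let : NormedSpace ℝ X := NormedSpace.restrictScalars ℝ 𝕜 X
  have : IsScalarTower ℝ 𝕜 X := IsScalarTower.restrictScalars ℝ 𝕜 X
  set κ := NormedSpace.inclusionInDoubleDual 𝕜 X with hκ
  have hκa : ∀ (x : X) (f : X →L[𝕜] 𝕜), κ x f = f x := fun _ _ => rfl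
  obtain ⟨x, C, hC1, hC2, hC3, hC4⟩ := exists_seq hD hη hg (c := 1 - η) (by linarith)
  obtain ⟨u, hu1, hu2⟩ := exists_cluster (𝕜 := 𝕜) x (fun n => (hC2 (hC3 n)).1)
  obtain ⟨p, s, hs, hu⟩ := hZ1 u
  have hn : ‖p‖ + ‖s‖ ≤ 1 := by rw [← hZ2 p s hs, ← hu]; exact hu1
  have hy : ∃ y ∈ C, ‖y - p‖ < ‖s‖ + η := by
    by_contra hcon
    push Not at hcon
    have hdisj : Disjoint (Metric.ball p (‖s‖ + η)) C := by
      rw [Set.disjoint_left]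
      intro a ha haC
      rw [mem_ball_iff_norm] at ha
      exact absurd ha (not_lt.2 (hcon a haC))
    obtain ⟨f, t, hf1, hf2⟩ := RCLike.geometric_hahn_banach_open (𝕜 := 𝕜)
      (convex_ball p (‖s‖ + η)) Metric.isOpen_ball hC1 hdisj
    have hpos : 0 < ‖s‖ + η := by positivity
    have a1 : t ≤ re (u f) := hu2 f t (Eventually.of_forall (fun n => hf2 _ (hC3 n)))
    have a2 : re (u f) ≤ re (f p) + ‖s‖ * ‖f‖ := by
      rw [hu, add_apply, map_add, hκa]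
      linarith [re_le_of_norm s f]
    have a3 : re (f p) < t := hf1 p (Metric.mem_ball_self hpos)
    have a4 : ‖f‖ ≤ (t - re (f p)) / (‖s‖ + η) := by
      by_contra hlt
      push Not at hlt
      obtain ⟨v, hv1, hv2⟩ := exists_re_gt f hlt
      have := hf1 (p + ((‖s‖ + η : ℝ) : 𝕜) • v) (by
        rw [mem_ball_iff_norm, add_sub_cancel_left, norm_smul, norm_ofReal, abs_of_pos hpos]
        nlinarith)
      rw [map_add, map_smul, map_add, smul_eq_mul, re_ofReal_mul] at this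
      rw [div_lt_iff₀ hpos] at hv2
      nlinarith
    rw [le_div_iff₀ hpos] at a4
    have a5 : ‖f‖ = 0 := le_antisymm (by nlinarith [norm_nonneg f]) (norm_nonneg f)
    rw [a5] at a2
    linarith
  obtain ⟨y, hyC, hy⟩ := hy
  obtain ⟨h, b1, b2, b3⟩ := hC4 y hyC
  have b4 := hu2 h _ b3
  have b5 : 1 - η < ‖y‖ := by
    have := re_le_of_norm g y
    rw [hg, one_mul] at this
    exact (hC2 hyC).2.trans_le this
  have b6 : re ((κ (p - y) + s) h) ≤ ‖p - y‖ + ‖s‖ := by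
    have := re_le_of_norm (κ (p - y) + s) h
    rw [hZ2 _ s hs] at this
    have h0 : 0 ≤ ‖p - y‖ + ‖s‖ := by positivity
    nlinarith
  have b7 : re ((κ (p - y) + s) h) = re (u h) + re (h (-y)) := by
    rw [hu, ← map_add, add_apply, add_apply, hκa, hκa, map_sub, map_neg]
    congr 1
    ring
  rw [norm_sub_rev] at hy
  have b8 : ‖p‖ ≤ 3 * η := by linarith
  refine ⟨s, hs, by linarith [norm_nonneg p], ?_⟩
  have b9 : 1 - η ≤ re (u g) := hu2 g _ (Eventually.of_forall (fun n => (hC2 (hC3 n)).2.le))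
  rw [hu, add_apply, map_add, hκa] at b9
  have b10 := re_le_of_norm g p
  rw [hg, one_mul] at b10
  linarith

end H469Z.Daug
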