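import Mathlib
import Pool.Agent.H469Z.DaugA

set_option autoImplicit false
set_option maxSynthPendingDepth 3

namespace H469Z.Daug

open RCLike Filter Topology

variable {𝕜 : Type*} [RCLike 𝕜] {X : Type*} [NormedAddCommGroup X] [NormedSpace 𝕜 X]
  {Y : Type*} [NormedAddCommGroup Y] [NormedSpace 𝕜 Y]

/-- A finite-dimensional space of functionals is almost normed by finitely many points. -/
theorem exists_finite_norming (F : Submodule 𝕜 (Y →L[𝕜] 𝕜)) [FiniteDimensional 𝕜 F] {ε : ℝ}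
    (hε : 0 < ε) :
    ∃ (N : ℕ) (y : Fin (N + 1) → Y), (∀ j, ‖y j‖ ≤ 1) ∧
      ∀ v : F, ∃ j, (1 - 2 * ε) * ‖v‖ ≤ ‖(v : Y →L[𝕜] 𝕜) (y j)‖ := by
  have : ProperSpace F := FiniteDimensional.proper_rclike 𝕜 F
  obtain ⟨t, ht1, ht2, ht3⟩ := finite_cover_balls_of_compact (isCompact_sphere (0 : F) 1) hε
  have h1 : ∀ v : F, ∃ y : Y, ‖y‖ ≤ 1 ∧ ‖v‖ - ε < ‖(v : Y →L[𝕜] 𝕜) y‖ := fun v => by
    obtain ⟨y, hy1, hy2⟩ := (v : Y →L[𝕜] 𝕜).exists_lt_apply_of_lt_opNorm (r := ‖v‖ - ε)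
      (by change _ < ‖v‖; linarith)
    exact ⟨y, hy1.le, hy2⟩
  choose w hw1 hw2 using h1
  obtain ⟨N, e, he⟩ := ht2.fin_param
  refine ⟨N, Fin.cons 0 (fun j => w (e j)), ?_, fun v => ?_⟩
  · intro j
    refine Fin.cases ?_ (fun i => ?_) j
    · simp
    · simpa using hw1 _
  · by_cases hv : v = 0
    · exact ⟨0, by simp [hv]⟩
    have hvn : 0 < ‖v‖ := norm_pos_iff.2 hv
    set v' : F := ((‖v‖⁻¹ : ℝ) : 𝕜) • v with hv'
    have hv'n : ‖v'‖ = 1 := by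
      rw [hv', norm_smul, norm_ofReal, abs_of_pos (inv_pos.2 hvn), inv_mul_cancel₀ hvn.ne']
    have hvv : v = ((‖v‖ : ℝ) : 𝕜) • v' := by
      rw [hv', smul_smul, ← ofReal_mul, mul_inv_cancel₀ hvn.ne', ofReal_one, one_smul]
    obtain ⟨a, ha, hav⟩ := Set.mem_iUnion₂.1 (ht3 (mem_sphere_zero_iff_norm.2 hv'n))
    have ha1 : ‖a‖ = 1 := mem_sphere_zero_iff_norm.1 (ht1 ha)
    rw [← he.2] at ha
    obtain ⟨j, rfl⟩ := ha
    refine ⟨j.succ, ?_⟩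
    simp only [Fin.cons_succ]
    rw [mem_ball_iff_norm] at hav
    have b1 := hw2 (e j)
    have b2 : ‖((e j : F) : Y →L[𝕜] 𝕜) (w (e j))‖ ≤ ‖(v' : Y →L[𝕜] 𝕜) (w (e j))‖ + ‖v' - e j‖ := by
      have e1 : ((e j : F) : Y →L[𝕜] 𝕜) (w (e j)) =
          (v' : Y →L[𝕜] 𝕜) (w (e j)) - ((v' - e j : F) : Y →L[𝕜] 𝕜) (w (e j)) := by simp
      rw [e1]
      refine (norm_sub_le _ _).trans (add_le_add le_rfl ?_)
      calc _ ≤ ‖((v' - e j : F) : Y →L[𝕜] 𝕜)‖ * ‖w (e j)‖ := ContinuousLinearMap.le_opNorm _ _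
        _ ≤ ‖((v' - e j : F) : Y →L[𝕜] 𝕜)‖ * 1 := mul_le_mul_of_nonneg_left (hw1 _) (norm_nonneg _)
        _ = ‖v' - e j‖ := mul_one _
    have b3 : ‖(v : Y →L[𝕜] 𝕜) (w (e j))‖ = ‖v‖ * ‖(v' : Y →L[𝕜] 𝕜) (w (e j))‖ := by
      conv_lhs => rw [hvv]
      rw [Submodule.coe_smul, smul_apply, norm_smul, norm_ofReal, abs_of_pos hvn]
    rw [b3, mul_comm]
    exact mul_le_mul_of_nonneg_left (by linarith) hvn.le

/-- The dual of a finite sup-sum is the `ℓ¹`-sum of the duals. -/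
theorem sum_norm_single_le {E : Type*} [NormedAddCommGroup E] [NormedSpace 𝕜 E] {N : ℕ}
    (A : (Fin N → E) →L[𝕜] 𝕜) :
    ∑ j, ‖A.comp (ContinuousLinearMap.single 𝕜 (fun _ : Fin N => E) j)‖ ≤ ‖A‖ := by
  refine le_of_forall_pos_le_add (fun δ hδ => ?_)
  have hδ' : 0 < δ / (N + 1) := by positivity
  have h1 : ∀ j, ∃ x : E, ‖x‖ < 1 ∧
      ‖A.comp (ContinuousLinearMap.single 𝕜 (fun _ : Fin N => E) j)‖ - δ / (N + 1) <
        re ((A.comp (ContinuousLinearMap.single 𝕜 (fun _ : Fin N => E) j)) x) :=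
    fun j => exists_re_gt _ (by linarith)
  choose x hx1 hx2 using h1
  have h2 : re (A x) = ∑ j, re ((A.comp (ContinuousLinearMap.single 𝕜 (fun _ : Fin N => E) j)) (x j)) := by
    rw [← map_sum]
    congr 1
    simp only [ContinuousLinearMap.comp_apply, ContinuousLinearMap.single_apply]
    rw [← map_sum, Finset.univ_sum_single]
  have h3 : re (A x) ≤ ‖A‖ := by
    have hx : ‖x‖ ≤ 1 := (pi_norm_le_iff_of_nonneg zero_le_one).2 (fun j => (hx1 j).le)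
    exact (re_le_of_norm A x).trans (mul_le_of_le_one_right (norm_nonneg _) hx)
  have h4 := Finset.sum_le_sum (s := Finset.univ) (fun j _ => (hx2 j).le)
  rw [← h2, Finset.sum_sub_distrib] at h4
  simp only [Finset.sum_const, Finset.card_univ, Fintype.card_fin, nsmul_eq_mul] at h4
  have h5 : (N : ℝ) * (δ / (N + 1)) ≤ δ := by
    rw [mul_div_assoc', div_le_iff₀ (by positivity)]; nlinarith
  linarith

/-- Evaluation of an `F`-valued operator at a point of `Y`. -/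
noncomputable def evF (F : Submodule 𝕜 (Y →L[𝕜] 𝕜)) (w : Y) :
    (X →L[𝕜] F) →L[𝕜] (X →L[𝕜] 𝕜) :=
  ContinuousLinearMap.compL 𝕜 X F 𝕜 ((ContinuousLinearMap.apply 𝕜 𝕜 w).comp F.subtypeL)

theorem evF_apply (F : Submodule 𝕜 (Y →L[𝕜] 𝕜)) (w : Y) (ψ : X →L[𝕜] F) (x : X) :
    evF F w ψ x = (ψ x : Y →L[𝕜] 𝕜) w := rfl

theorem plr_bound {ι : Type*} [Fintype ι] (b : ι → ((X →L[𝕜] 𝕜) →L[𝕜] 𝕜)) (w : ι → Y)
    (F : Submodule 𝕜 (Y →L[𝕜] 𝕜)) [FiniteDimensional 𝕜 F]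
    (φ : ((X →L[𝕜] 𝕜) →L[𝕜] 𝕜) →L[𝕜] (Y →L[𝕜] 𝕜)) (hφF : ∀ a, φ a ∈ F) (hφ : ‖φ‖ ≤ 1)
    {ε : ℝ} (hε : 0 < ε) (hε2 : ε < 1 / 2) :
    (1 - 2 * ε) * ‖∑ i, φ (b i) (w i)‖ ≤ ‖∑ i, (b i).comp (evF (X := X) F (w i))‖ := by
  set τ := ∑ i, (b i).comp (evF (X := X) F (w i)) with hτ
  have hpos : 0 < 1 - 2 * ε := by linarith
  obtain ⟨N, y, hy1, hy2⟩ := exists_finite_norming F hε
  let J : (X →L[𝕜] F) →L[𝕜] (Fin (N + 1) → (X →L[𝕜] 𝕜)) :=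
    ContinuousLinearMap.pi (fun j => evF F (y j))
  have hJ : ∀ ψ, (1 - 2 * ε) * ‖ψ‖ ≤ ‖J ψ‖ := fun ψ => by
    rw [← le_div_iff₀' hpos]
    refine ContinuousLinearMap.opNorm_le_bound _ (by positivity) (fun x => ?_)
    obtain ⟨j, hj⟩ := hy2 (ψ x)
    rw [div_mul_eq_mul_div, le_div_iff₀' hpos]
    refine hj.trans ?_
    calc ‖(ψ x : Y →L[𝕜] 𝕜) (y j)‖ = ‖J ψ j x‖ := rfl
      _ ≤ ‖J ψ j‖ * ‖x‖ := ContinuousLinearMap.le_opNorm _ _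
      _ ≤ ‖J ψ‖ * ‖x‖ := mul_le_mul_of_nonneg_right (norm_le_pi_norm _ j) (norm_nonneg _)
  have hinj : Function.Injective (J : (X →L[𝕜] F) →ₗ[𝕜] (Fin (N + 1) → (X →L[𝕜] 𝕜))) := by
    rw [injective_iff_map_eq_zero]
    intro ψ h0
    have h1 := hJ ψ
    have h2 : J ψ = 0 := h0
    rw [h2, norm_zero] at h1
    exact norm_le_zero_iff.1 (by nlinarith [norm_nonneg ψ])
  let e := LinearEquiv.ofInjective _ hinj
  let τ0 : LinearMap.range (J : (X →L[𝕜] F) →ₗ[𝕜] (Fin (N + 1) → (X →L[𝕜] 𝕜))) →ₗ[𝕜] 𝕜 :=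
    (τ : (X →L[𝕜] F) →ₗ[𝕜] 𝕜).comp e.symm.toLinearMap
  have hτ0 : ∀ v, ‖τ0 v‖ ≤ ‖τ‖ / (1 - 2 * ε) * ‖v‖ := fun v => by
    obtain ⟨ψ, rfl⟩ := e.surjective v
    have h1 : τ0 (e ψ) = τ ψ := by simp [τ0]
    have h2 : ‖e ψ‖ = ‖J ψ‖ := rfl
    rw [h1, h2, div_mul_eq_mul_div, le_div_iff₀ hpos]
    have := τ.le_opNorm ψ
    have h3 := hJ ψ
    nlinarith [norm_nonneg τ]
  obtain ⟨A, hA1, hA2⟩ := exists_extension_norm_eq _ (τ0.mkContinuous _ hτ0)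
  have hA3 : ‖A‖ ≤ ‖τ‖ / (1 - 2 * ε) := by
    rw [hA2]; exact LinearMap.mkContinuous_norm_le _ (by positivity) _
  have hA4 : ∀ ψ, A (J ψ) = τ ψ := fun ψ => by
    have := hA1 (e ψ)
    rw [LinearMap.mkContinuous_apply] at this
    have h1 : τ0 (e ψ) = τ ψ := by simp [τ0]
    rw [← h1, ← this]; rfl
  set a : Fin (N + 1) → ((X →L[𝕜] 𝕜) →L[𝕜] 𝕜) := fun j =>
    A.comp (ContinuousLinearMap.single 𝕜 (fun _ : Fin (N + 1) => X →L[𝕜] 𝕜) j) with ha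
  have hA5 : ∀ f, A f = ∑ j, a j (f j) := fun f => by
    simp only [ha, ContinuousLinearMap.comp_apply, ContinuousLinearMap.single_apply]
    rw [← map_sum, Finset.univ_sum_single]
  have hid : ∀ v : F, ∑ i, (v : Y →L[𝕜] 𝕜) (w i) • b i = ∑ j, (v : Y →L[𝕜] 𝕜) (y j) • a j := by
    intro v
    ext g
    have h1 := hA4 (g.smulRight v)
    have h2 : ∀ u : Y, evF F u (g.smulRight v) = (v : Y →L[𝕜] 𝕜) u • g := fun u => by
      ext x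
      rw [evF_apply]
      simp [mul_comm]
    rw [hA5, hτ] at h1
    simp only [sum_apply, ContinuousLinearMap.comp_apply, h2, map_smul, J,
      ContinuousLinearMap.pi_apply] at h1
    simp only [sum_apply, smul_apply]
    exact h1.symm
  let β := Module.finBasis 𝕜 F
  let φ' : ((X →L[𝕜] 𝕜) →L[𝕜] 𝕜) →ₗ[𝕜] F :=
    (φ : ((X →L[𝕜] 𝕜) →L[𝕜] 𝕜) →ₗ[𝕜] (Y →L[𝕜] 𝕜)).codRestrict F hφF
  have hexp : ∀ c u, φ c u = ∑ k, β.coord k (φ' (((β k : F) : Y →L[𝕜] 𝕜) u • c)) := fun c u => by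
    have h1 : φ c = ((φ' c : F) : Y →L[𝕜] 𝕜) := rfl
    rw [h1]
    conv_lhs => rw [← β.sum_repr (φ' c)]
    simp only [AddSubmonoidClass.coe_finsetSum, sum_apply, Submodule.coe_smul, smul_apply,
      map_smul, Module.Basis.coord_apply, smul_eq_mul]
    exact Finset.sum_congr rfl (fun k _ => mul_comm _ _)
  have hmain : ∑ i, φ (b i) (w i) = ∑ j, φ (a j) (y j) := by
    simp only [hexp]
    rw [Finset.sum_comm, Finset.sum_comm (s := Finset.univ (α := Fin (N + 1)))]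
    refine Finset.sum_congr rfl (fun k _ => ?_)
    rw [← map_sum, ← map_sum, ← map_sum, ← map_sum, hid]
  have hle : ‖∑ j, φ (a j) (y j)‖ ≤ ∑ j, ‖a j‖ := by
    refine (norm_sum_le _ _).trans (Finset.sum_le_sum (fun j _ => ?_))
    calc ‖φ (a j) (y j)‖ ≤ ‖φ‖ * ‖a j‖ * ‖y j‖ := φ.le_opNorm₂ _ _
      _ ≤ 1 * ‖a j‖ * 1 := by
        gcongr
        exact hy1 j
      _ = ‖a j‖ := by ring
  have h6 := sum_norm_single_le A
  rw [hmain, ← le_div_iff₀' hpos]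
  exact hle.trans (h6.trans hA3)

/-- Local reflexivity for finite-rank operators into a dual space. -/
theorem plr {ι : Type*} [Fintype ι] (b : ι → ((X →L[𝕜] 𝕜) →L[𝕜] 𝕜)) (w : ι → Y)
    (F : Submodule 𝕜 (Y →L[𝕜] 𝕜)) [FiniteDimensional 𝕜 F]
    (φ : ((X →L[𝕜] 𝕜) →L[𝕜] 𝕜) →L[𝕜] (Y →L[𝕜] 𝕜)) (hφF : ∀ a, φ a ∈ F) (hφ : ‖φ‖ ≤ 1)
    {η : ℝ} (hη : 0 < η) :
    ∃ ψ : X →L[𝕜] Y →L[𝕜] 𝕜, ‖ψ‖ ≤ 1 ∧
      re (∑ i, φ (b i) (w i)) - η < re (∑ i, b i (ψ.flip (w i))) := by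
  set τ := ∑ i, (b i).comp (evF (X := X) F (w i)) with hτ
  set M := ‖∑ i, φ (b i) (w i)‖ with hM
  have hM0 : 0 ≤ M := norm_nonneg _
  have h1 : M ≤ ‖τ‖ := by
    refine le_of_forall_pos_le_add (fun δ hδ => ?_)
    have hε : 0 < min (δ / (2 * (M + 1))) (1 / 4) := lt_min (by positivity) (by norm_num)
    have h2 := plr_bound b w F φ hφF hφ hε ((min_le_right _ _).trans_lt (by norm_num))
    have h3 : min (δ / (2 * (M + 1))) (1 / 4) ≤ δ / (2 * (M + 1)) := min_le_left _ _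
    rw [le_div_iff₀ (by positivity)] at h3
    rw [← hM, ← hτ] at h2
    nlinarith
  obtain ⟨ψ0, h2, h3⟩ := exists_re_gt τ (r := re (∑ i, φ (b i) (w i)) - η)
    (by linarith [RCLike.re_le_norm (∑ i, φ (b i) (w i))])
  refine ⟨F.subtypeL.comp ψ0, ?_, ?_⟩
  · refine ContinuousLinearMap.opNorm_le_bound _ zero_le_one (fun x => ?_)
    calc ‖(F.subtypeL.comp ψ0) x‖ = ‖ψ0 x‖ := rfl
      _ ≤ ‖ψ0‖ * ‖x‖ := ψ0.le_opNorm x
      _ ≤ 1 * ‖x‖ := mul_le_mul_of_nonneg_right h2.le (norm_nonneg _)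
  · refine h3.trans_eq ?_
    rw [hτ, sum_apply]
    rfl

end H469Z.Daug
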