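import Mathlib

set_option autoImplicit false
set_option maxSynthPendingDepth 3

namespace H469Z.Daug

open scoped TensorProduct

section Props

variable (𝕜 : Type*) [RCLike 𝕜] (X : Type*) [NormedAddCommGroup X] [NormedSpace 𝕜 X]

/-- A bounded operator has finite rank if its range is finite-dimensional. -/
def IsFiniteRank {𝕜 : Type*} [RCLike 𝕜] {X : Type*} [NormedAddCommGroup X] [NormedSpace 𝕜 X]
    (T : X →L[𝕜] X) : Prop :=
  FiniteDimensional 𝕜 (LinearMap.range (T : X →ₗ[𝕜] X))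

/-- A bounded operator has rank one if its range has dimension one. -/
def IsRankOne {𝕜 : Type*} [RCLike 𝕜] {X : Type*} [NormedAddCommGroup X] [NormedSpace 𝕜 X]
    (T : X →L[𝕜] X) : Prop :=
  Module.finrank 𝕜 (LinearMap.range (T : X →ₗ[𝕜] X)) = 1

/-- The Daugavet property: `‖I + T‖ = 1 + ‖T‖` for every bounded operator `T` of rank one. -/
def HasDaugavet : Prop :=
  ∀ T : X →L[𝕜] X, IsRankOne T → ‖ContinuousLinearMap.id 𝕜 X + T‖ = 1 + ‖T‖

/-- `E = j(X) ⊕₁ Z` for some closed subspace `Z` of `E`. -/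
def IsLSummandVia {𝕜 : Type*} [RCLike 𝕜] {X : Type*} [NormedAddCommGroup X] [NormedSpace 𝕜 X]
    {E : Type*} [NormedAddCommGroup E] [NormedSpace 𝕜 E] (j : X →L[𝕜] E) : Prop :=
  ∃ Z : Submodule 𝕜 E, IsClosed (Z : Set E) ∧ (∀ Φ : E, ∃ x : X, ∃ z ∈ Z, Φ = j x + z) ∧
    ∀ x : X, ∀ z ∈ Z, ‖j x + z‖ = ‖x‖ + ‖z‖

/-- `X` is L-embedded: `X** = X ⊕₁ Z` for a closed subspace `Z` of the bidual, `X` being embedded
canonically. -/
def LEmbedded : Prop := IsLSummandVia (NormedSpace.inclusionInDoubleDual 𝕜 X)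

/-- The metric approximation property. -/
def HasMAP : Prop :=
  ∀ K : Set X, IsCompact K → ∀ ε : ℝ, 0 < ε →
    ∃ S : X →L[𝕜] X, IsFiniteRank S ∧ ‖S‖ ≤ 1 ∧ ∀ x ∈ K, ‖S x - x‖ < ε

/-- The bidual `X**` has the metric approximation property. -/
def BidualHasMAP : Prop := HasMAP 𝕜 (StrongDual 𝕜 (StrongDual 𝕜 X))

end Props

section Tensor

variable (𝕜 : Type*) [RCLike 𝕜] (X : Type*) [NormedAddCommGroup X] [NormedSpace 𝕜 X]
  (Y : Type*) [NormedAddCommGroup Y] [NormedSpace 𝕜 Y]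

/-- The algebraic tensor product, to be equipped with the projective norm. -/
def AlgProj : Type _ := X ⊗[𝕜] Y

noncomputable instance : AddCommGroup (AlgProj 𝕜 X Y) := inferInstanceAs (AddCommGroup (X ⊗[𝕜] Y))

noncomputable instance : Module 𝕜 (AlgProj 𝕜 X Y) := inferInstanceAs (Module 𝕜 (X ⊗[𝕜] Y))

variable {𝕜 X Y}

/-- The numbers `∑ ‖x_i‖ ‖y_i‖` over all representations `u = ∑ x_i ⊗ y_i`. -/
def reprSums (u : X ⊗[𝕜] Y) : Set ℝ :=
  {r | ∃ l : List (X × Y), (l.map fun p => p.1 ⊗ₜ[𝕜] p.2).sum = u ∧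
    (l.map fun p => ‖p.1‖ * ‖p.2‖).sum = r}

/-- The projective norm `‖u‖_π = inf {∑ ‖x_i‖ ‖y_i‖ : u = ∑ x_i ⊗ y_i}`. -/
noncomputable def projNorm (u : X ⊗[𝕜] Y) : ℝ := sInf (reprSums u)

theorem reprSums_nonempty (u : X ⊗[𝕜] Y) : (reprSums u).Nonempty := by
  induction u using TensorProduct.induction_on with
  | zero => exact ⟨0, [], rfl, rfl⟩
  | tmul x y => exact ⟨_, [(x, y)], by simp, rfl⟩
  | add a b ha hb =>
    obtain ⟨_, l, h1, rfl⟩ := ha
    obtain ⟨_, l', h2, rfl⟩ := hb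
    exact ⟨_, l ++ l', by simp [h1, h2], rfl⟩

theorem reprSums_nonneg {u : X ⊗[𝕜] Y} {r : ℝ} (hr : r ∈ reprSums u) : 0 ≤ r := by
  obtain ⟨l, -, rfl⟩ := hr
  apply List.sum_nonneg
  intro a ha
  obtain ⟨p, -, rfl⟩ := List.mem_map.1 ha
  positivity

theorem reprSums_bdd (u : X ⊗[𝕜] Y) : BddBelow (reprSums u) := ⟨0, fun _ h => reprSums_nonneg h⟩

theorem projNorm_add_le (u v : X ⊗[𝕜] Y) : projNorm (u + v) ≤ projNorm u + projNorm v := by
  have h : ∀ a ∈ reprSums u, ∀ b ∈ reprSums v, projNorm (u + v) ≤ a + b := by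
    rintro _ ⟨l, h1, rfl⟩ _ ⟨l', h2, rfl⟩
    exact csInf_le (reprSums_bdd _) ⟨l ++ l', by simp [h1, h2], by simp⟩
  have h2 : ∀ b ∈ reprSums v, projNorm (u + v) - b ≤ projNorm u := fun b hb =>
    le_csInf (reprSums_nonempty u) (fun a ha => by linarith [h a ha b hb])
  have h3 : projNorm (u + v) - projNorm u ≤ projNorm v :=
    le_csInf (reprSums_nonempty v) (fun b hb => by linarith [h2 b hb])
  linarith

theorem projNorm_smul_le (c : 𝕜) (u : X ⊗[𝕜] Y) : projNorm (c • u) ≤ ‖c‖ * projNorm u := by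
  have h : ∀ a ∈ reprSums u, projNorm (c • u) ≤ ‖c‖ * a := by
    rintro _ ⟨l, h1, rfl⟩
    refine csInf_le (reprSums_bdd _) ⟨l.map fun p => (c • p.1, p.2), ?_, ?_⟩
    · rw [← h1, List.smul_sum, List.map_map, List.map_map]
      congr 1
    · rw [← List.sum_map_mul_left, List.map_map]
      congr 1
      apply List.map_congr_left
      intro p _
      simp [norm_smul, mul_assoc]
  rcases (norm_nonneg c).eq_or_lt with h0 | h0
  · obtain ⟨a, ha⟩ := reprSums_nonempty u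
    have := h a ha
    rw [← h0] at this ⊢
    simpa using this
  · rw [← div_le_iff₀' h0]
    exact le_csInf (reprSums_nonempty u) (fun a ha => by rw [div_le_iff₀' h0]; exact h a ha)

variable (𝕜 X Y)

/-- The projective norm as a seminorm on the algebraic tensor product. -/
noncomputable def projSeminorm : Seminorm 𝕜 (AlgProj 𝕜 X Y) :=
  Seminorm.ofSMulLE (fun u => projNorm (𝕜 := 𝕜) (X := X) (Y := Y) u)
    (le_antisymm (csInf_le (reprSums_bdd _) ⟨[], rfl, rfl⟩)
      (le_csInf (reprSums_nonempty _) (fun _ h => reprSums_nonneg h)))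
    projNorm_add_le projNorm_smul_le

noncomputable instance : SeminormedAddCommGroup (AlgProj 𝕜 X Y) :=
  AddGroupSeminorm.toSeminormedAddCommGroup (projSeminorm 𝕜 X Y).toAddGroupSeminorm

noncomputable instance : NormedSpace 𝕜 (AlgProj 𝕜 X Y) where
  norm_smul_le c u := projNorm_smul_le c u

/-- The completed projective tensor product: the completion of `X ⊗ Y` for the projective norm. -/
abbrev ProjTensor : Type _ := UniformSpace.Completion (AlgProj 𝕜 X Y)

end Tensor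

end H469Z.Daug
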