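import Mathlib
import Pool.Agent.H469Z.DaugDefs
import Pool.Agent.H469Z.DaugB

set_option autoImplicit false
set_option maxSynthPendingDepth 3

namespace H469Z.Daug

open RCLike Filter Topology
open scoped TensorProduct

variable {𝕜 : Type*} [RCLike 𝕜] {X : Type*} [NormedAddCommGroup X] [NormedSpace 𝕜 X]
  {Y : Type*} [NormedAddCommGroup Y] [NormedSpace 𝕜 Y]

theorem HasDaugavet.dp (h : HasDaugavet 𝕜 X) : DP 𝕜 X := by
  intro f y hf hy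
  have hy0 : y ≠ 0 := by
    intro h0; rw [h0, norm_zero] at hy; exact zero_ne_one hy
  have hf0 : f ≠ 0 := by
    intro h0; rw [h0, norm_zero] at hf; exact zero_ne_one hf
  have hr : LinearMap.range ((f.smulRight y : X →L[𝕜] X) : X →ₗ[𝕜] X) = Submodule.span 𝕜 {y} := by
    apply le_antisymm
    · rintro _ ⟨x, rfl⟩
      exact Submodule.smul_mem _ _ (Submodule.mem_span_singleton_self y)
    · rw [Submodule.span_singleton_le_iff_mem]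
      obtain ⟨x, hx⟩ : ∃ x, f x ≠ 0 := by
        by_contra hcon
        push Not at hcon
        exact hf0 (ContinuousLinearMap.ext hcon)
      refine ⟨(f x)⁻¹ • x, ?_⟩
      simp [smul_smul, hx]
  have := h (f.smulRight y) (by unfold IsRankOne; rw [hr]; exact finrank_span_singleton hy0)
  rw [this, ContinuousLinearMap.norm_smulRight_apply, hf, hy]; norm_num

theorem rank_one_form {Z : Type*} [NormedAddCommGroup Z] [NormedSpace 𝕜 Z] (T : Z →L[𝕜] Z)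
    (hT : Module.finrank 𝕜 (LinearMap.range (T : Z →ₗ[𝕜] Z)) = 1) :
    ∃ (G : Z →L[𝕜] 𝕜) (z : Z), ‖G‖ = 1 ∧ T = G.smulRight z := by
  obtain ⟨v, hv, hv2⟩ := finrank_eq_one_iff'.1 hT
  have hv0 : (v : Z) ≠ 0 := fun h => hv (Subtype.ext h)
  obtain ⟨g, -, hg2⟩ := exists_dual_vector 𝕜 (v : Z) (norm_ne_zero_iff.2 hv0)
  have hvn : ((‖(v : Z)‖ : ℝ) : 𝕜) ≠ 0 := by
    exact_mod_cast norm_ne_zero_iff.2 hv0
  set G0 : Z →L[𝕜] 𝕜 := ((‖(v : Z)‖ : ℝ) : 𝕜)⁻¹ • g.comp T with hG0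
  have hT2 : T = G0.smulRight (v : Z) := by
    ext u
    obtain ⟨c, hc⟩ := hv2 ⟨T u, u, rfl⟩
    have hc' : c • (v : Z) = T u := congrArg Subtype.val hc
    simp only [hG0, ContinuousLinearMap.smulRight_apply, smul_apply,
      ContinuousLinearMap.comp_apply, ← hc', map_smul, hg2, smul_eq_mul]
    congr 1
    field_simp
  have hG : G0 ≠ 0 := by
    intro h0
    obtain ⟨u, hu⟩ := v.2
    have : T u = 0 := by rw [hT2, h0]; simp
    exact hv0 (by rw [← hu]; exact this)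
  have hGn : 0 < ‖G0‖ := norm_pos_iff.2 hG
  refine ⟨((‖G0‖⁻¹ : ℝ) : 𝕜) • G0, ((‖G0‖ : ℝ) : 𝕜) • (v : Z), ?_, ?_⟩
  · rw [norm_smul, norm_ofReal, abs_of_pos (inv_pos.2 hGn), inv_mul_cancel₀ hGn.ne']
  · refine hT2.trans ?_
    ext u
    simp only [ContinuousLinearMap.smulRight_apply, smul_apply, smul_smul, smul_eq_mul]
    congr 1
    have : ((‖G0‖ : ℝ) : 𝕜) ≠ 0 := by exact_mod_cast hGn.ne'
    push_cast
    field_simp

/-- The projection onto `X` attached to an L-decomposition of the bidual. -/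
theorem exists_proj (Z : Submodule 𝕜 ((X →L[𝕜] 𝕜) →L[𝕜] 𝕜))
    (hZ1 : ∀ Φ : (X →L[𝕜] 𝕜) →L[𝕜] 𝕜,
      ∃ x : X, ∃ z ∈ Z, Φ = NormedSpace.inclusionInDoubleDual 𝕜 X x + z)
    (hZ2 : ∀ x : X, ∀ z ∈ Z, ‖NormedSpace.inclusionInDoubleDual 𝕜 X x + z‖ = ‖x‖ + ‖z‖) :
    ∃ P : ((X →L[𝕜] 𝕜) →L[𝕜] 𝕜) →L[𝕜] X,
      (∀ x, P (NormedSpace.inclusionInDoubleDual 𝕜 X x) = x) ∧ (∀ z ∈ Z, P z = 0) ∧
      ∀ a, ‖P a‖ + ‖a - NormedSpace.inclusionInDoubleDual 𝕜 X (P a)‖ = ‖a‖ := by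
  set κ := NormedSpace.inclusionInDoubleDual 𝕜 X with hκ
  choose p z hz hpz using hZ1
  have huniq : ∀ (Φ : (X →L[𝕜] 𝕜) →L[𝕜] 𝕜) (x : X), Φ - κ x ∈ Z → p Φ = x := by
    intro Φ x hx
    have h1 := hZ2 (p Φ - x) (z Φ - (Φ - κ x)) (Z.sub_mem (hz Φ) hx)
    have h2 : κ (p Φ - x) + (z Φ - (Φ - κ x)) = 0 := by
      rw [map_sub]
      nth_rewrite 3 [hpz Φ]
      abel
    rw [h2, norm_zero] at h1
    have h3 : ‖p Φ - x‖ ≤ 0 := by linarith [norm_nonneg (z Φ - (Φ - κ x))]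
    exact sub_eq_zero.1 (norm_le_zero_iff.1 h3)
  have hsub : ∀ Φ, Φ - κ (p Φ) = z Φ := fun Φ => by
    nth_rewrite 1 [hpz Φ]; abel
  let P0 : ((X →L[𝕜] 𝕜) →L[𝕜] 𝕜) →ₗ[𝕜] X :=
    { toFun := p
      map_add' := fun a b => huniq _ _ (by
        have : a + b - κ (p a + p b) = z a + z b := by rw [map_add, ← hsub, ← hsub]; abel
        rw [this]; exact Z.add_mem (hz a) (hz b))
      map_smul' := fun c a => huniq _ _ (by
        have : c • a - κ (c • p a) = c • z a := by rw [map_smul, ← hsub, smul_sub]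
        rw [RingHom.id_apply, this]; exact Z.smul_mem c (hz a)) }
  have hn : ∀ a, ‖p a‖ + ‖a - κ (p a)‖ = ‖a‖ := fun a => by
    rw [hsub, ← hZ2 _ _ (hz a), ← hpz]
  refine ⟨P0.mkContinuous 1 (fun a => ?_), fun x => huniq _ _ (by simp), fun w hw => huniq _ _
    (by simpa using hw), hn⟩
  change ‖p a‖ ≤ 1 * ‖a‖
  linarith [hn a, norm_nonneg (a - κ (p a))]

/-- Finite-rank almost norming forms, from the metric approximation property. -/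
theorem exists_finrank_form
    (hM : HasMAP 𝕜 X ∨ HasMAP 𝕜 (StrongDual 𝕜 (StrongDual 𝕜 X)) ∨ HasMAP 𝕜 Y)
    (B : X →L[𝕜] Y →L[𝕜] 𝕜) (hB : ‖B‖ ≤ 1) {n : ℕ} (x : Fin n → X) (y : Fin n → Y) {η : ℝ}
    (hη : 0 < η) :
    ∃ (F : Submodule 𝕜 (Y →L[𝕜] 𝕜)) (ψ : X →L[𝕜] Y →L[𝕜] 𝕜), FiniteDimensional 𝕜 F ∧
      (∀ a, ψ a ∈ F) ∧ ‖ψ‖ ≤ 1 ∧ ‖∑ i, B (x i) (y i) - ∑ i, ψ (x i) (y i)‖ ≤ η := by
  set C : ℝ := ∑ i, (‖x i‖ + ‖y i‖) + 1 with hC
  have hCpos : 0 < C := by positivity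
  set δ := η / C with hδ
  have hδpos : 0 < δ := by positivity
  have hfin : ∀ ψ : X →L[𝕜] Y →L[𝕜] 𝕜,
      (∀ i, ‖B (x i) (y i) - ψ (x i) (y i)‖ ≤ δ * (‖x i‖ + ‖y i‖)) →
      ‖∑ i, B (x i) (y i) - ∑ i, ψ (x i) (y i)‖ ≤ η := by
    intro ψ h
    rw [← Finset.sum_sub_distrib]
    refine (norm_sum_le _ _).trans ((Finset.sum_le_sum (fun i _ => h i)).trans ?_)
    rw [← Finset.mul_sum, hδ, div_mul_eq_mul_div, div_le_iff₀ hCpos, hC]
    nlinarith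
  rcases hM with hM | hM | hM
  · obtain ⟨S, hS1, hS2, hS3⟩ := hM (Set.range x) (Set.finite_range x).isCompact δ hδpos
    unfold IsFiniteRank at hS1
    refine ⟨(LinearMap.range (S : X →ₗ[𝕜] X)).map (B : X →ₗ[𝕜] Y →L[𝕜] 𝕜), B.comp S,
      inferInstance, fun a => ⟨S a, ⟨a, rfl⟩, rfl⟩, ?_, hfin _ (fun i => ?_)⟩
    · exact (B.opNorm_comp_le S).trans (mul_le_one₀ hB (norm_nonneg _) hS2)
    · have h1 := hS3 (x i) ⟨i, rfl⟩
      have h2 : B (x i) (y i) - (B.comp S) (x i) (y i) = -B (S (x i) - x i) (y i) := by simp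
      rw [h2, norm_neg]
      calc _ ≤ ‖B‖ * ‖S (x i) - x i‖ * ‖y i‖ := B.le_opNorm₂ _ _
        _ ≤ 1 * δ * ‖y i‖ := by gcongr
        _ ≤ _ := by nlinarith [norm_nonneg (x i)]
  · set κ := NormedSpace.inclusionInDoubleDual 𝕜 X with hκ
    obtain ⟨S, hS1, hS2, hS3⟩ := hM (Set.range (fun i => κ (x i))) (Set.finite_range _).isCompact δ
      hδpos
    unfold IsFiniteRank at hS1
    let Φ : ((X →L[𝕜] 𝕜) →L[𝕜] 𝕜) →L[𝕜] (Y →L[𝕜] 𝕜) :=
      (ContinuousLinearMap.compL 𝕜 Y (X →L[𝕜] 𝕜) 𝕜).flip B.flip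
    have hΦ : ∀ a u, Φ a u = a (B.flip u) := fun _ _ => rfl
    have hΦn : ∀ a u, ‖Φ a u‖ ≤ ‖a‖ * ‖u‖ := fun a u => by
      rw [hΦ]
      refine (a.le_opNorm _).trans (mul_le_mul_of_nonneg_left ?_ (norm_nonneg _))
      refine (B.flip.le_opNorm u).trans ?_
      rw [ContinuousLinearMap.opNorm_flip]
      exact mul_le_of_le_one_left (norm_nonneg _) hB
    refine ⟨(LinearMap.range (S : StrongDual 𝕜 (StrongDual 𝕜 X) →ₗ[𝕜] _)).map
      (Φ : ((X →L[𝕜] 𝕜) →L[𝕜] 𝕜) →ₗ[𝕜] (Y →L[𝕜] 𝕜)), Φ.comp (S.comp κ),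
      inferInstance, fun a => ⟨S (κ a), ⟨κ a, rfl⟩, rfl⟩, ?_, hfin _ (fun i => ?_)⟩
    · refine ContinuousLinearMap.opNorm_le_bound₂ _ zero_le_one (fun a u => ?_)
      refine (hΦn (S (κ a)) u).trans (mul_le_mul_of_nonneg_right ?_ (norm_nonneg _))
      refine (S.le_opNorm _).trans ?_
      exact mul_le_mul hS2 (NormedSpace.double_dual_bound 𝕜 X a) (norm_nonneg _) zero_le_one
    · have h1 := hS3 (κ (x i)) ⟨i, rfl⟩
      have h2 : B (x i) (y i) - (Φ.comp (S.comp κ)) (x i) (y i) =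
          -Φ (S (κ (x i)) - κ (x i)) (y i) := by
        rw [map_sub, sub_apply, neg_sub]; rfl
      rw [h2, norm_neg]
      calc _ ≤ ‖S (κ (x i)) - κ (x i)‖ * ‖y i‖ := hΦn _ _
        _ ≤ δ * ‖y i‖ := by gcongr
        _ ≤ _ := by nlinarith [norm_nonneg (x i)]
  · obtain ⟨S, hS1, hS2, hS3⟩ := hM (Set.range y) (Set.finite_range y).isCompact δ hδpos
    unfold IsFiniteRank at hS1
    let R := LinearMap.range (S : Y →ₗ[𝕜] Y)
    let S' : Y →L[𝕜] R := S.codRestrict R (fun u => ⟨u, rfl⟩)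
    let L : (R →L[𝕜] 𝕜) →L[𝕜] (Y →L[𝕜] 𝕜) := (ContinuousLinearMap.compL 𝕜 Y R 𝕜).flip S'
    refine ⟨LinearMap.range (L : (R →L[𝕜] 𝕜) →ₗ[𝕜] (Y →L[𝕜] 𝕜)), (B.flip.comp S).flip,
      inferInstance, fun a => ⟨(B a).comp R.subtypeL, rfl⟩, ?_, hfin _ (fun i => ?_)⟩
    · rw [ContinuousLinearMap.opNorm_flip]
      refine (B.flip.opNorm_comp_le S).trans ?_
      rw [ContinuousLinearMap.opNorm_flip]
      exact mul_le_one₀ hB (norm_nonneg _) hS2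
    · have h1 := hS3 (y i) ⟨i, rfl⟩
      have h2 : B (x i) (y i) - ((B.flip.comp S).flip) (x i) (y i) = -B (x i) (S (y i) - y i) := by
        simp
      rw [h2, norm_neg]
      calc _ ≤ ‖B‖ * ‖x i‖ * ‖S (y i) - y i‖ := B.le_opNorm₂ _ _
        _ ≤ 1 * ‖x i‖ * δ := by gcongr
        _ ≤ _ := by nlinarith [norm_nonneg (y i)]

/-! ### The projective tensor product -/

theorem projNorm_tmul_le (x : X) (y : Y) : projNorm (x ⊗ₜ[𝕜] y) ≤ ‖x‖ * ‖y‖ :=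
  csInf_le (reprSums_bdd _) ⟨[(x, y)], by simp, by simp⟩

theorem norm_algProj (u : AlgProj 𝕜 X Y) : ‖u‖ = projNorm (𝕜 := 𝕜) (X := X) (Y := Y) u := rfl

variable (𝕜 X Y) in
/-- The canonical bilinear map into the algebraic tensor product. -/
noncomputable def tmL : X →L[𝕜] Y →L[𝕜] AlgProj 𝕜 X Y :=
  LinearMap.mkContinuous₂ (G := AlgProj 𝕜 X Y) (TensorProduct.mk 𝕜 X Y) 1 (fun x y => by
    rw [one_mul]; exact projNorm_tmul_le x y)

variable (𝕜 X Y) in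
/-- The canonical bilinear map into the completed tensor product. -/
noncomputable def tz : X →L[𝕜] Y →L[𝕜] ProjTensor 𝕜 X Y :=
  (ContinuousLinearMap.compL 𝕜 Y (AlgProj 𝕜 X Y) (ProjTensor 𝕜 X Y)
    UniformSpace.Completion.toComplL).comp (tmL 𝕜 X Y)

theorem tz_apply (x : X) (y : Y) :
    tz 𝕜 X Y x y = ((tmL 𝕜 X Y x y : AlgProj 𝕜 X Y) : ProjTensor 𝕜 X Y) := rfl

theorem tz_norm_le (x : X) (y : Y) : ‖tz 𝕜 X Y x y‖ ≤ ‖x‖ * ‖y‖ := by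
  rw [tz_apply, UniformSpace.Completion.norm_coe]
  exact projNorm_tmul_le x y

theorem tz_sum {ι : Type*} [Fintype ι] (x : ι → X) (y : ι → Y) :
    ∑ i, tz 𝕜 X Y (x i) (y i) =
      ((∑ i, tmL 𝕜 X Y (x i) (y i) : AlgProj 𝕜 X Y) : ProjTensor 𝕜 X Y) := by
  have := map_sum (UniformSpace.Completion.toComplL (𝕜 := 𝕜) (E := AlgProj 𝕜 X Y))
    (fun i => tmL 𝕜 X Y (x i) (y i)) Finset.univ
  exact this.symm

theorem lift_le (B : X →L[𝕜] Y →L[𝕜] 𝕜) (u : X ⊗[𝕜] Y) :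
    ‖TensorProduct.lift B.toLinearMap₁₂ u‖ ≤ ‖B‖ * projNorm u := by
  have h : ∀ r ∈ reprSums u, ‖TensorProduct.lift B.toLinearMap₁₂ u‖ ≤ ‖B‖ * r := by
    rintro _ ⟨l, rfl, rfl⟩
    induction l with
    | nil => simp
    | cons p l ih =>
      simp only [List.map_cons, List.sum_cons, map_add, mul_add]
      refine (norm_add_le _ _).trans (add_le_add ?_ ih)
      rw [← mul_assoc]
      exact B.le_opNorm₂ p.1 p.2
  rcases (norm_nonneg B).eq_or_lt with h0 | h0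
  · obtain ⟨a, ha⟩ := reprSums_nonempty u
    have := h a ha
    rw [← h0] at this ⊢
    simpa using this
  · rw [← div_le_iff₀' h0]
    exact le_csInf (reprSums_nonempty u) (fun a ha => by rw [div_le_iff₀' h0]; exact h a ha)

theorem tz_bound {ι : Type*} [Fintype ι] (B : X →L[𝕜] Y →L[𝕜] 𝕜) (x : ι → X) (y : ι → Y) :
    ‖∑ i, B (x i) (y i)‖ ≤ ‖B‖ * ‖∑ i, tz 𝕜 X Y (x i) (y i)‖ := by
  rw [tz_sum, UniformSpace.Completion.norm_coe, norm_algProj]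
  have h := lift_le B (∑ i, x i ⊗ₜ[𝕜] y i)
  rw [map_sum] at h
  exact h

theorem tz_dense (z : ProjTensor 𝕜 X Y) {ε : ℝ} (hε : 0 < ε) :
    ∃ (n : ℕ) (x : Fin n → X) (y : Fin n → Y), ‖z - ∑ i, tz 𝕜 X Y (x i) (y i)‖ < ε := by
  obtain ⟨u, hu⟩ := (UniformSpace.Completion.denseRange_coe (α := AlgProj 𝕜 X Y)).exists_dist_lt z hε
  obtain ⟨_, l, hl, -⟩ := reprSums_nonempty (𝕜 := 𝕜) (X := X) (Y := Y) u
  refine ⟨l.length, fun i => (l.get i).1, fun i => (l.get i).2, ?_⟩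
  rw [tz_sum, ← dist_eq_norm]
  have : (∑ i : Fin l.length, tmL 𝕜 X Y (l.get i).1 (l.get i).2 : AlgProj 𝕜 X Y) = u := by
    rw [← hl]
    exact Fin.sum_univ_fun_getElem l (fun p => p.1 ⊗ₜ[𝕜] p.2)
  rw [this]; exact hu

end H469Z.Daug
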