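import Mathlib
import Pool.Agent.H469Z.DaugC

set_option autoImplicit false
set_option maxSynthPendingDepth 3

namespace H469Z.Daug

open RCLike Filter Topology

variable {𝕜 : Type*} [RCLike 𝕜] {X : Type*} [NormedAddCommGroup X] [NormedSpace 𝕜 X]
  {Y : Type*} [NormedAddCommGroup Y] [NormedSpace 𝕜 Y]

/-- The operator Daugavet type property: a norming form which also almost norms a point of a
prescribed slice. -/
theorem exists_form (hL : LEmbedded 𝕜 X) (hD : DP 𝕜 X)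
    (hM : HasMAP 𝕜 X ∨ HasMAP 𝕜 (StrongDual 𝕜 (StrongDual 𝕜 X)) ∨ HasMAP 𝕜 Y)
    (B : X →L[𝕜] Y →L[𝕜] 𝕜) (hB : ‖B‖ ≤ 1) {n : ℕ} (x : Fin n → X) (y : Fin n → Y)
    (f : X →L[𝕜] 𝕜) (hf : ‖f‖ = 1) (y0 : Y) (hy0 : ‖y0‖ = 1) {η : ℝ} (hη : 0 < η) :
    ∃ (ψ : X →L[𝕜] Y →L[𝕜] 𝕜) (s : (X →L[𝕜] 𝕜) →L[𝕜] 𝕜), ‖ψ‖ ≤ 1 ∧ ‖s‖ ≤ 1 ∧
      1 - 4 * η ≤ re (s f) ∧
      re (∑ i, B (x i) (y i)) + 1 - 6 * η < re (∑ i, ψ (x i) (y i)) + re (s (ψ.flip y0)) := by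
  obtain ⟨Z, -, hZ1, hZ2⟩ := hL
  obtain ⟨P, hP1, hP2, hP3⟩ := exists_proj Z hZ1 hZ2
  obtain ⟨s, hsZ, hs1, hs2⟩ := exists_singular hD Z hZ1 hZ2 hf hη
  obtain ⟨F, ψ0, hF, hψF, hψ1, hψ2⟩ := exists_finrank_form hM B hB x y hη
  obtain ⟨g0, hg1, hg2⟩ := exists_dual_vector'' 𝕜 y0
  obtain ⟨σ, hσ1, hσ2⟩ := exists_dual_vector'' 𝕜 s
  set κ := NormedSpace.inclusionInDoubleDual 𝕜 X with hκ
  let φ : ((X →L[𝕜] 𝕜) →L[𝕜] 𝕜) →L[𝕜] (Y →L[𝕜] 𝕜) :=
    ψ0.comp P + (σ.comp (ContinuousLinearMap.id 𝕜 _ - κ.comp P)).smulRight g0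
  have hφ : ∀ a, φ a = ψ0 (P a) + σ (a - κ (P a)) • g0 := fun _ => rfl
  have hφF : ∀ a, φ a ∈ F ⊔ Submodule.span 𝕜 {g0} := fun a => by
    rw [hφ]
    exact Submodule.add_mem_sup (hψF _)
      (Submodule.smul_mem _ _ (Submodule.mem_span_singleton_self g0))
  have hφn : ‖φ‖ ≤ 1 := by
    refine ContinuousLinearMap.opNorm_le_bound _ zero_le_one (fun a => ?_)
    rw [hφ, one_mul, ← hP3 a]
    refine (norm_add_le _ _).trans (add_le_add ?_ ?_)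
    · exact (ψ0.le_opNorm _).trans (mul_le_of_le_one_left (norm_nonneg _) hψ1)
    · rw [norm_smul]
      refine (mul_le_of_le_one_right (norm_nonneg _) hg1).trans ?_
      exact (σ.le_opNorm _).trans (mul_le_of_le_one_left (norm_nonneg _) hσ1)
  obtain ⟨ψ, h1, h2⟩ := plr (ι := Option (Fin n)) (fun o => o.elim s (fun i => κ (x i)))
    (fun o => o.elim y0 y) (F ⊔ Submodule.span 𝕜 {g0}) φ hφF hφn hη
  refine ⟨ψ, s, h1, hs1, hs2, ?_⟩
  simp only [Fintype.sum_option, Option.elim_none, Option.elim_some, map_add] at h2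
  have e1 : φ s y0 = ((‖s‖ : ℝ) : 𝕜) := by
    rw [hφ, hP2 s hsZ, map_zero, map_zero, sub_zero, zero_add, smul_apply, hσ2, hg2, hy0,
      ofReal_one, smul_eq_mul, mul_one]
  have e2 : ∀ i, φ (κ (x i)) (y i) = ψ0 (x i) (y i) := fun i => by
    rw [hφ, hP1]; simp
  have e3 : ∀ i, κ (x i) (ψ.flip (y i)) = ψ (x i) (y i) := fun _ => rfl
  simp only [e1, e2, e3, ofReal_re] at h2
  have e4 : 1 - 4 * η ≤ ‖s‖ := by
    have := re_le_of_norm s f
    rw [hf, mul_one] at this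
    linarith
  have e5 := (RCLike.re_le_norm _).trans hψ2
  rw [map_sub] at e5
  linarith

theorem norm_sub_one_le {l : 𝕜} {ρ : ℝ} (hρ : 0 < ρ) (h1 : ‖l‖ ≤ 1) (h2 : 1 - ρ ^ 2 / 2 ≤ re l) :
    ‖l - 1‖ ≤ ρ := by
  have h3 : ‖l - 1‖ ^ 2 = ‖l‖ ^ 2 - 2 * re l + 1 := by
    rw [← RCLike.normSq_eq_def', ← RCLike.normSq_eq_def', RCLike.normSq_sub]
    simp
    ring
  have h4 : ‖l‖ ^ 2 ≤ 1 := pow_le_one₀ (norm_nonneg _) h1
  exact (pow_le_pow_iff_left₀ (norm_nonneg _) hρ.le two_ne_zero).1 (by linarith)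

theorem lower_bound (hL : LEmbedded 𝕜 X) (hD : DP 𝕜 X)
    (hM : HasMAP 𝕜 X ∨ HasMAP 𝕜 (StrongDual 𝕜 (StrongDual 𝕜 X)) ∨ HasMAP 𝕜 Y)
    (G : ProjTensor 𝕜 X Y →L[𝕜] 𝕜) (hG : ‖G‖ = 1) (z : ProjTensor 𝕜 X Y) {ρ : ℝ} (hρ : 0 < ρ)
    (hρ1 : ρ < 1) :
    1 + ‖z‖ - ρ * (‖z‖ + 30) ≤ ‖ContinuousLinearMap.id 𝕜 _ + G.smulRight z‖ := by
  set η := ρ ^ 2 / 40 with hηdef
  have hη : 0 < η := by positivity
  have hηρ : η ≤ ρ / 40 := by rw [hηdef]; nlinarith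
  let t := tz 𝕜 X Y
  let form : (ProjTensor 𝕜 X Y →L[𝕜] 𝕜) → (X →L[𝕜] Y →L[𝕜] 𝕜) := fun g =>
    (ContinuousLinearMap.compL 𝕜 Y (ProjTensor 𝕜 X Y) 𝕜 g).comp t
  have hform : ∀ g a b, form g a b = g (t a b) := fun _ _ _ => rfl
  have hformn : ∀ g, ‖g‖ ≤ 1 → ‖form g‖ ≤ 1 := fun g hg => by
    refine ContinuousLinearMap.opNorm_le_bound₂ _ zero_le_one (fun a b => ?_)
    rw [hform, one_mul]
    exact (g.le_opNorm _).trans ((mul_le_of_le_one_left (norm_nonneg _) hg).trans (tz_norm_le a b))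
  -- the bilinear form of `G` has norm one
  have hGform : 1 ≤ ‖form G‖ := by
    rw [← hG]
    refine ContinuousLinearMap.opNorm_le_bound _ (norm_nonneg _) (fun u => ?_)
    refine le_of_forall_pos_le_add (fun δ hδ => ?_)
    obtain ⟨n, x, y, h⟩ := tz_dense u (half_pos hδ)
    have h1 := tz_bound (form G) x y
    simp only [hform] at h1
    rw [← map_sum] at h1
    set w := ∑ i, tz 𝕜 X Y (x i) (y i)
    have h2 : ‖G u‖ ≤ ‖G w‖ + ‖u - w‖ := by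
      have : G u = G w + G (u - w) := by simp
      rw [this]
      refine (norm_add_le _ _).trans (add_le_add le_rfl ?_)
      simpa [hG] using G.le_opNorm (u - w)
    have h3 : ‖w‖ ≤ ‖u‖ + ‖u - w‖ := by
      have := norm_sub_le u (u - w)
      rwa [sub_sub_cancel] at this
    have h4 := hformn G hG.le
    have h5 := norm_nonneg (form G)
    nlinarith
  obtain ⟨y1, hy1, hy2⟩ := (form G).flip.exists_lt_apply_of_lt_opNorm (r := 1 - η)
    (by rw [ContinuousLinearMap.opNorm_flip]; linarith)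
  have hflip : ∀ b, ‖(form G).flip b‖ ≤ ‖b‖ := fun b => by
    refine ((form G).flip.le_opNorm b).trans ?_
    rw [ContinuousLinearMap.opNorm_flip]
    exact mul_le_of_le_one_left (norm_nonneg _) (hformn G hG.le)
  have hy1n : 0 < ‖y1‖ := by linarith [hflip y1]
  set y0 : Y := ((‖y1‖⁻¹ : ℝ) : 𝕜) • y1 with hy0def
  have hy0 : ‖y0‖ = 1 := by
    rw [hy0def, norm_smul, norm_ofReal, abs_of_pos (inv_pos.2 hy1n), inv_mul_cancel₀ hy1n.ne']
  set f1 := (form G).flip y0 with hf1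
  have hf1a : ‖f1‖ ≤ 1 := (hflip y0).trans hy0.le
  have hf1b : 1 - η < ‖f1‖ := by
    rw [hf1, hy0def, map_smul, norm_smul, norm_ofReal, abs_of_pos (inv_pos.2 hy1n)]
    refine hy2.trans_le (le_mul_of_one_le_left (norm_nonneg _) ?_)
    exact (one_le_inv₀ hy1n).2 hy1.le
  have hf1n : 0 < ‖f1‖ := by linarith
  set f : X →L[𝕜] 𝕜 := ((‖f1‖⁻¹ : ℝ) : 𝕜) • f1 with hfdef
  have hf : ‖f‖ = 1 := by
    rw [hfdef, norm_smul, norm_ofReal, abs_of_pos (inv_pos.2 hf1n), inv_mul_cancel₀ hf1n.ne']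
  have hff : f1 = ((‖f1‖ : ℝ) : 𝕜) • f := by
    rw [hfdef, smul_smul, ← ofReal_mul, mul_inv_cancel₀ hf1n.ne', ofReal_one, one_smul]
  obtain ⟨n, x, y, hz⟩ := tz_dense z hη
  set z0 := ∑ i, tz 𝕜 X Y (x i) (y i) with hz0
  obtain ⟨g, hg1, hg2⟩ := exists_dual_vector'' 𝕜 z0
  obtain ⟨ψ, s, hψ, hs1, hs2, hs3⟩ := exists_form hL hD hM (form g) (hformn g hg1) x y f hf y0 hy0 hη
  have e1 : ∑ i, form g (x i) (y i) = ((‖z0‖ : ℝ) : 𝕜) := by
    simp only [hform]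
    rw [← map_sum, ← hg2]
  rw [e1, ofReal_re] at hs3
  set β := ∑ i, ψ (x i) (y i) with hβ
  set f' := ψ.flip y0 with hf'
  have hf'n : ‖f'‖ ≤ 1 := by
    refine (ψ.flip.le_opNorm y0).trans ?_
    rw [ContinuousLinearMap.opNorm_flip, hy0, mul_one]; exact hψ
  have hβn : ‖β‖ ≤ ‖z0‖ :=
    (tz_bound ψ x y).trans (mul_le_of_le_one_left (norm_nonneg _) hψ)
  have hβr := RCLike.re_le_norm β
  have hsf' := re_le_one hs1 hf'n
  have h1 : 2 - 10 * η ≤ ‖f + f'‖ := by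
    have := re_le_of_norm s (f + f')
    rw [map_add, map_add] at this
    have h0 : ‖s‖ * ‖f + f'‖ ≤ ‖f + f'‖ := mul_le_of_le_one_left (norm_nonneg _) hs1
    linarith
  obtain ⟨a, ha1, ha2⟩ := exists_re_gt (f + f') (r := 2 - 11 * η) (by linarith)
  rw [add_apply, map_add] at ha2
  have ha3 := re_le_one hf.le ha1.le
  have ha4 := re_le_one hf'n ha1.le
  set l : 𝕜 := G (t a y0) with hl
  have hl1 : l = f1 a := rfl
  have hl2 : ‖l‖ ≤ 1 := by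
    rw [hl1]
    exact (f1.le_opNorm a).trans (mul_le_one₀ hf1a (norm_nonneg _) ha1.le)
  have hl3 : 1 - 12 * η ≤ re l := by
    rw [hl1, hff, smul_apply, smul_eq_mul, re_ofReal_mul]
    have : 1 - 11 * η < re (f a) := by linarith
    nlinarith
  have hl4 : ‖l - 1‖ ≤ ρ := norm_sub_one_le hρ hl2 (by linarith [sq_nonneg ρ])
  have hu : ‖t a y0‖ ≤ 1 :=
    (tz_norm_le a y0).trans (by rw [hy0, mul_one]; exact ha1.le)
  have h2 : ‖t a y0 + l • z‖ ≤ ‖ContinuousLinearMap.id 𝕜 _ + G.smulRight z‖ := by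
    have := (ContinuousLinearMap.id 𝕜 _ + G.smulRight z).le_opNorm (t a y0)
    exact this.trans (mul_le_of_le_one_right (norm_nonneg _) hu)
  have h3 : ‖t a y0 + l • z0‖ ≤ ‖t a y0 + l • z‖ + η := by
    have : t a y0 + l • z0 = (t a y0 + l • z) - l • (z - z0) := by rw [smul_sub]; abel
    rw [this]
    refine (norm_sub_le _ _).trans (add_le_add le_rfl ?_)
    rw [norm_smul]
    exact (mul_le_of_le_one_left (norm_nonneg _) hl2).trans hz.le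
  have h4 : ‖f' a + l * β‖ ≤ ‖t a y0 + l • z0‖ := by
    have h5 := tz_bound (ι := Option (Fin n)) ψ (fun o => o.elim a (fun i => l • x i))
      (fun o => o.elim y0 y)
    simp only [Fintype.sum_option, Option.elim_none, Option.elim_some, map_smul, smul_apply,
      smul_eq_mul] at h5
    rw [← Finset.mul_sum, ← Finset.smul_sum] at h5
    exact h5.trans (mul_le_of_le_one_left (norm_nonneg _) hψ)
  have h5 : re (f' a) + re β - ρ * ‖z0‖ ≤ ‖f' a + l * β‖ := by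
    refine le_trans ?_ (RCLike.re_le_norm _)
    have e : f' a + l * β = f' a + β + (l - 1) * β := by ring
    rw [e, map_add, map_add]
    have h6 : ‖(l - 1) * β‖ ≤ ρ * ‖z0‖ := by
      rw [norm_mul]; exact mul_le_mul hl4 hβn (norm_nonneg _) hρ.le
    have h7 := (abs_le.1 (RCLike.abs_re_le_norm ((l - 1) * β))).1
    linarith
  have h6 : ‖z‖ ≤ ‖z0‖ + η := by
    have := norm_add_le z0 (z - z0)
    rw [add_sub_cancel] at this
    linarith
  have h7 : ‖z0‖ ≤ ‖z‖ + η := by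
    have := norm_sub_le z (z - z0)
    rw [sub_sub_cancel] at this
    linarith
  have h8 : ρ * ‖z0‖ ≤ ρ * (‖z‖ + 1) := mul_le_mul_of_nonneg_left (by linarith) hρ.le
  linarith

theorem main (hL : LEmbedded 𝕜 X) (hD : HasDaugavet 𝕜 X)
    (hM : HasMAP 𝕜 X ∨ HasMAP 𝕜 (StrongDual 𝕜 (StrongDual 𝕜 X)) ∨ HasMAP 𝕜 Y) :
    HasDaugavet 𝕜 (ProjTensor 𝕜 X Y) := by
  intro T hT
  obtain ⟨G, z, hG, rfl⟩ := rank_one_form T hT
  rw [ContinuousLinearMap.norm_smulRight_apply, hG, one_mul]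
  apply le_antisymm
  · refine (norm_add_le _ _).trans (add_le_add ContinuousLinearMap.norm_id_le ?_)
    rw [ContinuousLinearMap.norm_smulRight_apply, hG, one_mul]
  · refine le_of_forall_pos_le_add (fun δ hδ => ?_)
    have hpos : 0 < ‖z‖ + 30 := by positivity
    have hρ : 0 < min (δ / (‖z‖ + 30)) (1 / 2) := lt_min (by positivity) (by norm_num)
    have h1 := lower_bound hL hD.dp hM G hG z hρ ((min_le_right _ _).trans_lt (by norm_num))
    have h2 : min (δ / (‖z‖ + 30)) (1 / 2) ≤ δ / (‖z‖ + 30) := min_le_left _ _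
    rw [le_div_iff₀ hpos] at h2
    linarith

end H469Z.Daug
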