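import Mathlib

set_option autoImplicit false
set_option maxSynthPendingDepth 3

namespace H469Z.LEmbIdeal

open NormedSpace

variable {𝕜 : Type} [RCLike 𝕜] {X : Type} [NormedAddCommGroup X] [NormedSpace 𝕜 X]

/-- A point killed by every functional vanishing on a closed subspace lies in the subspace. -/
theorem mem_of_forall_dual (W : Submodule 𝕜 X) (hW : IsClosed (W : Set X)) (x : X)
    (h : ∀ f : X →L[𝕜] 𝕜, (∀ w ∈ W, f w = 0) → f x = 0) : x ∈ W := by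
  by_contra hx
  have : IsClosed (W : Set X) := hW
  have hne : (W.mkQ x) ≠ 0 := by
    intro h0
    exact hx ((Submodule.Quotient.mk_eq_zero W).1 h0)
  obtain ⟨g, -, hg⟩ := exists_dual_vector 𝕜 (W.mkQ x) (norm_ne_zero_iff.2 hne)
  let mk : X →L[𝕜] (X ⧸ W) := ⟨W.mkQ, continuous_quot_mk⟩
  have h1 := h (g.comp mk) (fun w hw => by
    have : W.mkQ w = 0 := (Submodule.Quotient.mk_eq_zero W).2 hw
    change g (W.mkQ w) = 0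
    rw [this, map_zero])
  change g (W.mkQ x) = 0 at h1
  rw [hg] at h1
  exact (norm_ne_zero_iff.2 hne) (by exact_mod_cast h1)

/-- The key step: the L-projection maps the bi-annihilator of an ideal into the ideal. -/
theorem key (W : Submodule 𝕜 X) (hW : IsClosed (W : Set X))
    (Q : ((X →L[𝕜] 𝕜) →L[𝕜] 𝕜) →L[𝕜] ((X →L[𝕜] 𝕜) →L[𝕜] 𝕜))
    (hQ1 : Q.comp Q = Q)
    (hQ2 : ∀ Φ : (X →L[𝕜] 𝕜) →L[𝕜] 𝕜, (∃ x : X, ∀ f : X →L[𝕜] 𝕜, Φ f = f x) ↔ Q Φ = Φ)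
    (hQ3 : ∀ Φ : (X →L[𝕜] 𝕜) →L[𝕜] 𝕜, ‖Φ‖ = ‖Q Φ‖ + ‖Φ - Q Φ‖)
    (P : (X →L[𝕜] 𝕜) →L[𝕜] (X →L[𝕜] 𝕜)) (hP1 : P.comp P = P) (hP2 : ‖P‖ ≤ 1)
    (hP3 : ∀ f : X →L[𝕜] 𝕜, P f = 0 ↔ ∀ w ∈ W, f w = 0)
    (G : (X →L[𝕜] 𝕜) →L[𝕜] 𝕜) (hG : ∀ f : X →L[𝕜] 𝕜, (∀ w ∈ W, f w = 0) → G f = 0) :
    ∃ w ∈ W, ∀ f : X →L[𝕜] 𝕜, Q G f = f w := by
  have hQQ : ∀ Φ, Q (Q Φ) = Q Φ := fun Φ => by
    have := congrArg (fun T => T Φ) hQ1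
    simpa using this
  have hPP : ∀ f, P (P f) = P f := fun f => by
    have := congrArg (fun T => T f) hP1
    simpa using this
  have hQn : ∀ Φ, ‖Q Φ‖ ≤ ‖Φ‖ := fun Φ => by
    have := hQ3 Φ
    have h2 := norm_nonneg (Φ - Q Φ)
    linarith
  set κ := inclusionInDoubleDual 𝕜 X with hκ
  have hκa : ∀ (x : X) (f : X →L[𝕜] 𝕜), κ x f = f x := fun x f => rfl
  have hQκ : ∀ x, Q (κ x) = κ x := fun x => (hQ2 _).1 ⟨x, fun f => rfl⟩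
  have hcompP : ∀ Φ : (X →L[𝕜] 𝕜) →L[𝕜] 𝕜, ‖Φ.comp P‖ ≤ ‖Φ‖ := fun Φ => by
    calc ‖Φ.comp P‖ ≤ ‖Φ‖ * ‖P‖ := ContinuousLinearMap.opNorm_comp_le _ _
      _ ≤ ‖Φ‖ * 1 := by gcongr
      _ = ‖Φ‖ := mul_one _
  -- precomposition with `P`
  let Pst : ((X →L[𝕜] 𝕜) →L[𝕜] 𝕜) →L[𝕜] ((X →L[𝕜] 𝕜) →L[𝕜] 𝕜) :=
    (ContinuousLinearMap.compL 𝕜 (X →L[𝕜] 𝕜) (X →L[𝕜] 𝕜) 𝕜).flip P
  have hPst : ∀ Φ, Pst Φ = Φ.comp P := fun Φ => rfl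
  let B : X →L[𝕜] ((X →L[𝕜] 𝕜) →L[𝕜] 𝕜) := Q.comp (Pst.comp κ)
  have hB : ∀ x, B x = Q ((κ x).comp P) := fun x => rfl
  have hBn : ‖B‖ ≤ 1 := by
    refine ContinuousLinearMap.opNorm_le_bound _ zero_le_one (fun x => ?_)
    rw [hB, one_mul]
    exact (hQn _).trans ((hcompP _).trans (double_dual_bound 𝕜 X x))
  let T : (X →L[𝕜] 𝕜) →L[𝕜] (X →L[𝕜] 𝕜) := B.flip
  have hT : ∀ f x, T f x = B x f := fun f x => rfl
  have hTn : ‖T‖ ≤ 1 := by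
    change ‖B.flip‖ ≤ 1
    rw [ContinuousLinearMap.opNorm_flip]; exact hBn
  have hBW : ∀ w ∈ W, B w = κ w := fun w hw => by
    have : (κ w).comp P = κ w := by
      ext f
      have h0 : P (P f - f) = 0 := by rw [map_sub, hPP, sub_self]
      have h1 := (hP3 _).1 h0 w hw
      simp only [ContinuousLinearMap.comp_apply, hκa]
      simpa [sub_eq_zero] using h1
    rw [hB, this, hQκ]
  have hGT : G.comp T = G := by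
    ext f
    have h1 : G (T f - f) = 0 := hG _ (fun w hw => by
      simp only [sub_apply, hT, hBW w hw, hκa, sub_self])
    simpa [sub_eq_zero] using h1
  obtain ⟨x, hx⟩ := (hQ2 (Q G)).2 (hQQ G)
  have hxκ : Q G = κ x := by ext f; exact hx f
  set s := G - Q G with hs
  have hQs : Q s = 0 := by rw [hs, map_sub, hQQ, sub_self]
  have hκT : (κ x).comp T = B x := by ext f; rfl
  have hsT : s.comp T = (κ x - B x) + s := by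
    rw [hs, ContinuousLinearMap.sub_comp, hGT, hxκ, hκT]; abel
  have hQB : Q (B x) = B x := by rw [hB, hQQ]
  have hQsT : Q (s.comp T) = κ x - B x := by
    rw [hsT, map_add, map_sub, hQκ, hQB, hQs, add_zero]
  have hsTn : ‖s.comp T‖ ≤ ‖s‖ := by
    calc ‖s.comp T‖ ≤ ‖s‖ * ‖T‖ := ContinuousLinearMap.opNorm_comp_le _ _
      _ ≤ ‖s‖ * 1 := by gcongr
      _ = ‖s‖ := mul_one _
  have h3 := hQ3 (s.comp T)
  rw [hQsT] at h3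
  have h4 : s.comp T - (κ x - B x) = s := by rw [hsT]; abel
  rw [h4] at h3
  have h5 : κ x - B x = 0 := by
    have : ‖κ x - B x‖ ≤ 0 := by linarith
    exact norm_le_zero_iff.1 this
  have h6 : B x = κ x := (sub_eq_zero.1 h5).symm
  have h7 := hQ3 ((κ x).comp P)
  rw [← hB, h6] at h7
  have h8 : (κ x).comp P - κ x = 0 := by
    have h9 := hcompP (κ x)
    have : ‖(κ x).comp P - κ x‖ ≤ 0 := by linarith
    exact norm_le_zero_iff.1 this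
  have h10 : (κ x).comp P = κ x := sub_eq_zero.1 h8
  refine ⟨x, mem_of_forall_dual W hW x (fun f hf => ?_), hx⟩
  have h11 : P f = 0 := (hP3 f).2 hf
  have h12 := congrArg (fun Φ => Φ f) h10
  simp only [ContinuousLinearMap.comp_apply, h11, map_zero, hκa] at h12
  exact h12.symm

/-- The linear norm-preserving extension operator attached to an ideal. -/
theorem exists_ext (W : Submodule 𝕜 X)
    (P : (X →L[𝕜] 𝕜) →L[𝕜] (X →L[𝕜] 𝕜)) (hP1 : P.comp P = P) (hP2 : ‖P‖ ≤ 1)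
    (hP3 : ∀ f : X →L[𝕜] 𝕜, P f = 0 ↔ ∀ w ∈ W, f w = 0) :
    ∃ E : (W →L[𝕜] 𝕜) →L[𝕜] (X →L[𝕜] 𝕜), ‖E‖ ≤ 1 ∧ ∀ g, (E g).comp W.subtypeL = g := by
  have hPP : ∀ f, P (P f) = P f := fun f => by
    have := congrArg (fun T => T f) hP1
    simpa using this
  choose e he1 he2 using fun g : W →L[𝕜] 𝕜 => exists_extension_norm_eq W g
  have hwd : ∀ f f' : X →L[𝕜] 𝕜, (∀ w : W, f w = f' w) → P f = P f' := fun f f' h => by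
    have : P (f - f') = 0 := (hP3 _).2 (fun w hw => by
      have := h ⟨w, hw⟩
      simpa [sub_eq_zero] using this)
    rw [map_sub] at this
    exact sub_eq_zero.1 this
  let E0 : (W →L[𝕜] 𝕜) →ₗ[𝕜] (X →L[𝕜] 𝕜) :=
    { toFun := fun g => P (e g)
      map_add' := fun g g' => by
        rw [← map_add]
        exact hwd _ _ (fun w => by simp [he1])
      map_smul' := fun c g => by
        rw [RingHom.id_apply, ← map_smul]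
        exact hwd _ _ (fun w => by simp [he1]) }
  have hE0 : ∀ g, ‖E0 g‖ ≤ 1 * ‖g‖ := fun g => by
    change ‖P (e g)‖ ≤ 1 * ‖g‖
    calc ‖P (e g)‖ ≤ ‖P‖ * ‖e g‖ := P.le_opNorm _
      _ ≤ 1 * ‖e g‖ := by gcongr
      _ = 1 * ‖g‖ := by rw [he2]
  refine ⟨E0.mkContinuous 1 hE0, LinearMap.mkContinuous_norm_le _ zero_le_one _, fun g => ?_⟩
  ext w
  have h0 : P (P (e g) - e g) = 0 := by rw [map_sub, hPP, sub_self]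
  have h1 := (hP3 _).1 h0 w w.2
  change P (e g) w = g w
  rw [← he1 g w]
  simpa [sub_eq_zero] using h1

theorem main (W : Submodule 𝕜 X)
    (hX : ∃ Q : ((X →L[𝕜] 𝕜) →L[𝕜] 𝕜) →L[𝕜] ((X →L[𝕜] 𝕜) →L[𝕜] 𝕜),
          Q.comp Q = Q ∧
          (∀ Φ : (X →L[𝕜] 𝕜) →L[𝕜] 𝕜, (∃ x : X, ∀ f : X →L[𝕜] 𝕜, Φ f = f x) ↔ Q Φ = Φ) ∧
          (∀ Φ : (X →L[𝕜] 𝕜) →L[𝕜] 𝕜, ‖Φ‖ = ‖Q Φ‖ + ‖Φ - Q Φ‖))
    (hW : IsClosed (W : Set X))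
    (hP : ∃ P : (X →L[𝕜] 𝕜) →L[𝕜] (X →L[𝕜] 𝕜),
          P.comp P = P ∧ ‖P‖ ≤ 1 ∧
          (∀ f : X →L[𝕜] 𝕜, P f = 0 ↔ ∀ w ∈ W, f w = 0)) :
    ∃ Q : ((W →L[𝕜] 𝕜) →L[𝕜] 𝕜) →L[𝕜] ((W →L[𝕜] 𝕜) →L[𝕜] 𝕜),
          Q.comp Q = Q ∧
          (∀ Φ : (W →L[𝕜] 𝕜) →L[𝕜] 𝕜, (∃ y : W, ∀ f : W →L[𝕜] 𝕜, Φ f = f y) ↔ Q Φ = Φ) ∧
          (∀ Φ : (W →L[𝕜] 𝕜) →L[𝕜] 𝕜, ‖Φ‖ = ‖Q Φ‖ + ‖Φ - Q Φ‖) := by
  obtain ⟨Q, hQ1, hQ2, hQ3⟩ := hX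
  obtain ⟨P, hP1, hP2, hP3⟩ := hP
  obtain ⟨E, hE1, hE2⟩ := exists_ext W P hP1 hP2 hP3
  have hQQ : ∀ Φ, Q (Q Φ) = Q Φ := fun Φ => by
    have := congrArg (fun T => T Φ) hQ1
    simpa using this
  -- restriction `r : X* → W*`
  let r : (X →L[𝕜] 𝕜) →L[𝕜] (W →L[𝕜] 𝕜) :=
    (ContinuousLinearMap.compL 𝕜 W X 𝕜).flip W.subtypeL
  have hr : ∀ f, r f = f.comp W.subtypeL := fun f => rfl
  have hrn : ‖r‖ ≤ 1 := by
    refine ContinuousLinearMap.opNorm_le_bound _ zero_le_one (fun f => ?_)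
    rw [hr, one_mul]
    refine ContinuousLinearMap.opNorm_le_bound _ (norm_nonneg _) (fun w => ?_)
    exact f.le_opNorm (w : X)
  let j : ((W →L[𝕜] 𝕜) →L[𝕜] 𝕜) →L[𝕜] ((X →L[𝕜] 𝕜) →L[𝕜] 𝕜) :=
    (ContinuousLinearMap.compL 𝕜 (X →L[𝕜] 𝕜) (W →L[𝕜] 𝕜) 𝕜).flip r
  have hj : ∀ Φ, j Φ = Φ.comp r := fun Φ => rfl
  let l : ((X →L[𝕜] 𝕜) →L[𝕜] 𝕜) →L[𝕜] ((W →L[𝕜] 𝕜) →L[𝕜] 𝕜) :=
    (ContinuousLinearMap.compL 𝕜 (W →L[𝕜] 𝕜) (X →L[𝕜] 𝕜) 𝕜).flip E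
  have hl : ∀ Ψ, l Ψ = Ψ.comp E := fun Ψ => rfl
  have hlj : ∀ Φ, l (j Φ) = Φ := fun Φ => by
    ext g
    rw [hl, hj]
    simp only [ContinuousLinearMap.comp_apply, hr, hE2]
  have hjn : ∀ Φ, ‖j Φ‖ = ‖Φ‖ := fun Φ => by
    apply le_antisymm
    · rw [hj]
      calc ‖Φ.comp r‖ ≤ ‖Φ‖ * ‖r‖ := ContinuousLinearMap.opNorm_comp_le _ _
        _ ≤ ‖Φ‖ * 1 := by gcongr
        _ = ‖Φ‖ := mul_one _
    · calc ‖Φ‖ = ‖(j Φ).comp E‖ := by rw [← hl, hlj]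
        _ ≤ ‖j Φ‖ * ‖E‖ := ContinuousLinearMap.opNorm_comp_le _ _
        _ ≤ ‖j Φ‖ * 1 := by gcongr
        _ = ‖j Φ‖ := mul_one _
  have hkey : ∀ Φ, ∃ w : W, (∀ f : X →L[𝕜] 𝕜, Q (j Φ) f = f w) ∧
      (∀ g : W →L[𝕜] 𝕜, l (Q (j Φ)) g = g w) ∧ j (l (Q (j Φ))) = Q (j Φ) := fun Φ => by
    obtain ⟨w, hw, hw2⟩ := key W hW Q hQ1 hQ2 hQ3 P hP1 hP2 hP3 (j Φ) (fun f hf => by
      have : r f = 0 := by
        ext w
        rw [hr]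
        exact hf w w.2
      rw [hj, ContinuousLinearMap.comp_apply, this, map_zero])
    have h2 : ∀ g : W →L[𝕜] 𝕜, l (Q (j Φ)) g = g ⟨w, hw⟩ := fun g => by
      rw [hl, ContinuousLinearMap.comp_apply, hw2]
      have := congrArg (fun T => T ⟨w, hw⟩) (hE2 g)
      simpa using this
    refine ⟨⟨w, hw⟩, hw2, h2, ?_⟩
    ext f
    rw [hj, ContinuousLinearMap.comp_apply, h2, hw2]
    rfl
  refine ⟨l.comp (Q.comp j), ?_, ?_, ?_⟩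
  · ext1 Φ
    obtain ⟨w, -, -, h3⟩ := hkey Φ
    simp only [ContinuousLinearMap.comp_apply]
    rw [h3, hQQ]
  · intro Φ
    simp only [ContinuousLinearMap.comp_apply]
    constructor
    · rintro ⟨y, hy⟩
      have : Q (j Φ) = j Φ := (hQ2 _).1 ⟨y, fun f => by
        rw [hj, ContinuousLinearMap.comp_apply, hy]; rfl⟩
      rw [this, hlj]
    · intro h
      obtain ⟨w, -, h2, -⟩ := hkey Φ
      exact ⟨w, fun g => by rw [← h2 g, h]⟩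
  · intro Φ
    obtain ⟨w, -, -, h3⟩ := hkey Φ
    simp only [ContinuousLinearMap.comp_apply]
    rw [← hjn Φ, ← hjn (l (Q (j Φ))), ← hjn (Φ - l (Q (j Φ))), map_sub, h3]
    exact hQ3 _

end H469Z.LEmbIdeal
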