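import Pool.Agent.H469Z.TautDefs
import Pool.Agent.Helper10.Dupin.J_circle_H
import Pool.Agent.Helper10.Dupin.J_HE_one

open MeasureTheory Set
open Pool.Agent.Helper922.HB Pool.Agent.Helper10.Dupin

noncomputable section

namespace H469Z.Taut

variable {X : Type} [TopologicalSpace X]

/-- reduction of integral chains modulo two -/
def red (X : Type) [TopologicalSpace X] (n : ℕ) :
    (Sing X n →₀ ℤ) →+ (H469Z.Taut.Simplex X n →₀ ZMod 2) :=
  Finsupp.mapRange.addMonoidHom (Int.castAddHom (ZMod 2))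

theorem red_single (n : ℕ) (σ : Sing X n) (c : ℤ) :
    red X n (Finsupp.single σ c) = Finsupp.single σ (c : ZMod 2) := by
  unfold red
  rw [Finsupp.mapRange.addMonoidHom_apply, Finsupp.mapRange_single]
  rfl

theorem red_apply (n : ℕ) (z : Sing X n →₀ ℤ) (σ : Sing X n) :
    red X n z σ = (z σ : ZMod 2) := by
  unfold red
  rw [Finsupp.mapRange.addMonoidHom_apply, Finsupp.mapRange_apply]
  rfl

theorem red_smul (n : ℕ) (m : ℤ) (z : Sing X n →₀ ℤ) :
    red X n (m • z) = (m : ZMod 2) • red X n z := by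
  rw [map_zsmul, Int.cast_smul_eq_zsmul]

theorem red_two (n : ℕ) (z : Sing X n →₀ ℤ) : red X n ((2 : ℤ) • z) = 0 := by
  rw [red_smul]
  have : ((2 : ℤ) : ZMod 2) = 0 := by decide
  rw [this, zero_smul]

theorem red_bdry (n : ℕ) (z : Sing X (n + 1) →₀ ℤ) :
    H469Z.Taut.boundary X n (red X (n + 1) z) = red X n (bdry X n z) := by
  induction z using Finsupp.induction_linear with
  | zero => simp
  | add f g hf hg => rw [map_add, map_add, map_add, map_add, hf, hg]
  | single σ c =>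
    rw [red_single]
    unfold H469Z.Taut.boundary bdry
    rw [LinearMap.sum_apply, LinearMap.sum_apply, map_sum]
    apply Finset.sum_congr rfl
    intro i _
    rw [LinearMap.smul_apply, red_smul, Finsupp.lmapDomain_apply,
      Finsupp.lmapDomain_apply, Finsupp.mapDomain_single, Finsupp.mapDomain_single, red_single]
    have h1 : ((((-1 : ℤ) ^ (i : ℕ)) : ℤ) : ZMod 2) = 1 := by
      push_cast
      have : (-1 : ZMod 2) = 1 := by decide
      rw [this, one_pow]
    rw [h1, one_smul]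
    rfl

theorem red_surj (n : ℕ) (w : H469Z.Taut.Simplex X n →₀ ZMod 2) :
    ∃ w' : Sing X n →₀ ℤ, red X n w' = w := by
  induction w using Finsupp.induction_linear with
  | zero => exact ⟨0, by simp⟩
  | add f g hf hg =>
    obtain ⟨w1, e1⟩ := hf
    obtain ⟨w2, e2⟩ := hg
    exact ⟨w1 + w2, by rw [map_add, e1, e2]⟩
  | single σ c =>
    obtain ⟨k, rfl⟩ := ZMod.intCast_surjective c
    exact ⟨Finsupp.single σ k, red_single n σ k⟩

theorem red_ker (n : ℕ) (z : Sing X n →₀ ℤ) (h : red X n z = 0) :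
    ∃ w : Sing X n →₀ ℤ, z = (2 : ℤ) • w := by
  refine ⟨Finsupp.mapRange (fun k : ℤ => k / 2) (by simp) z, ?_⟩
  ext σ
  have h1 := DFunLike.congr_fun h σ
  rw [red_apply, Finsupp.zero_apply] at h1
  have h2 : ((2 : ℕ) : ℤ) ∣ z σ := (ZMod.intCast_zmod_eq_zero_iff_dvd _ 2).1 h1
  rw [Finsupp.smul_apply, Finsupp.mapRange_apply, smul_eq_mul]
  exact (Int.mul_ediv_cancel' h2).symm

theorem two_cancel (n : ℕ) (z : Sing X n →₀ ℤ) (h : (2 : ℤ) • z = 0) : z = 0 := by
  ext σ
  have h1 := DFunLike.congr_fun h σ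
  rw [Finsupp.smul_apply, smul_eq_mul, Finsupp.zero_apply] at h1
  rw [Finsupp.zero_apply]
  omega

theorem cyc_of_two (n : ℕ) (z : Sing X n →₀ ℤ) (h : (2 : ℤ) • z ∈ Cyc X n) : z ∈ Cyc X n := by
  cases n with
  | zero => exact Submodule.mem_top
  | succ n =>
    have h1 : bdry X n ((2 : ℤ) • z) = 0 := h
    rw [map_zsmul] at h1
    exact two_cancel n _ h1

/-- no two-torsion in degree `n` -/
def NoTors (X : Type) [TopologicalSpace X] (n : ℕ) : Prop :=
  ∀ z ∈ Cyc X n, (2 : ℤ) • z ∈ Bdy X n → z ∈ Bdy X n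

theorem noTors_of_zero {n : ℕ} (h : Cyc X n ≤ Bdy X n) : NoTors X n := fun _ hz _ => h hz

theorem noTors_of_one {n : ℕ} (h : OneGen X n) : NoTors X n := by
  obtain ⟨c, hc, h1, h2⟩ := h
  intro z hz h3
  obtain ⟨k, hk⟩ := h1 z hz
  have h4 : (2 * k) • c ∈ Bdy X n := by
    have h5 := (Bdy X n).sub_mem h3 ((Bdy X n).smul_mem 2 hk)
    have e : (2 : ℤ) • z - (2 : ℤ) • (z - k • c) = (2 * k) • c := by
      rw [smul_sub, sub_sub_cancel, smul_smul]
    rwa [e] at h5
  have h6 := h2 _ h4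
  have h7 : k = 0 := by omega
  rw [h7, zero_smul, sub_zero] at hk
  exact hk

/-- every cycle modulo two is the reduction of an integral cycle -/
def Lifts (X : Type) [TopologicalSpace X] (n : ℕ) : Prop :=
  ∀ w ∈ H469Z.Taut.cycles X n, ∃ z ∈ Cyc X n, red X n z = w

theorem lifts_zero : Lifts X 0 := by
  intro w _
  obtain ⟨z, hz⟩ := red_surj 0 w
  exact ⟨z, Submodule.mem_top, hz⟩

theorem lifts_succ {n : ℕ} (h : NoTors X n) : Lifts X (n + 1) := by
  intro w hw
  obtain ⟨z, hz⟩ := red_surj (n + 1) w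
  have h1 : H469Z.Taut.boundary X n w = 0 := hw
  rw [← hz, red_bdry] at h1
  obtain ⟨u, hu⟩ := red_ker n _ h1
  have h2 : (2 : ℤ) • u ∈ Bdy X n := ⟨z, hu⟩
  obtain ⟨e, he⟩ := h u (cyc_of_two n u (Bdy_le_Cyc n h2)) h2
  refine ⟨z - (2 : ℤ) • e, ?_, ?_⟩
  · show bdry X n (z - (2 : ℤ) • e) = 0
    rw [map_sub, map_zsmul, he, hu, sub_self]
  · rw [map_sub, red_two, sub_zero, hz]

theorem red_cyc (n : ℕ) (c : Sing X n →₀ ℤ) (hc : c ∈ Cyc X n) :
    red X n c ∈ H469Z.Taut.cycles X n := by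
  cases n with
  | zero => exact Submodule.mem_top
  | succ n =>
    have h1 : bdry X n c = 0 := hc
    show H469Z.Taut.boundary X n (red X (n + 1) c) = 0
    rw [red_bdry, h1, map_zero]

theorem betti_eq_zero {n : ℕ} (hl : Lifts X n) (h : Cyc X n ≤ Bdy X n) :
    H469Z.Taut.betti X n = 0 := by
  have hle : H469Z.Taut.cycles X n ≤ LinearMap.range (H469Z.Taut.boundary X n) := by
    intro w hw
    obtain ⟨z, hz, e⟩ := hl w hw
    obtain ⟨e', he'⟩ := h hz
    exact ⟨red X (n + 1) e', by rw [red_bdry, he', e]⟩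
  have hbot : (H469Z.Taut.cycles X n).map (LinearMap.range (H469Z.Taut.boundary X n)).mkQ = ⊥ := by
    rw [← LinearMap.le_ker_iff_map, Submodule.ker_mkQ]
    exact hle
  unfold H469Z.Taut.betti quotDim
  rw [hbot, rank_bot]
  exact map_zero _

theorem betti_eq_one {n : ℕ} (hl : Lifts X n) (h : OneGen X n) :
    H469Z.Taut.betti X n = 1 := by
  obtain ⟨c, hc, h1, h2⟩ := h
  have hne : (LinearMap.range (H469Z.Taut.boundary X n)).mkQ (red X n c) ≠ 0 := by
    intro h0
    rw [Submodule.mkQ_apply, Submodule.Quotient.mk_eq_zero] at h0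
    obtain ⟨w, hw⟩ := h0
    obtain ⟨w', e⟩ := red_surj (n + 1) w
    have h3 : red X n (c - bdry X n w') = 0 := by
      rw [map_sub, ← red_bdry, e, hw, sub_self]
    obtain ⟨u, hu⟩ := red_ker n _ h3
    have h4 : u ∈ Cyc X n := by
      apply cyc_of_two
      rw [← hu]
      exact (Cyc X n).sub_mem hc (Bdy_le_Cyc n ⟨w', rfl⟩)
    obtain ⟨k, hk⟩ := h1 u h4
    have h5 : (1 - 2 * k) • c ∈ Bdy X n := by
      have e2 : (1 - 2 * k) • c = (2 : ℤ) • (u - k • c) + bdry X n w' := by
        rw [smul_sub, ← hu, smul_smul, sub_smul, one_smul]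
        abel
      rw [e2]
      exact (Bdy X n).add_mem ((Bdy X n).smul_mem 2 hk) ⟨w', rfl⟩
    have := h2 _ h5
    omega
  have hspan : (H469Z.Taut.cycles X n).map (LinearMap.range (H469Z.Taut.boundary X n)).mkQ =
      Submodule.span (ZMod 2) {(LinearMap.range (H469Z.Taut.boundary X n)).mkQ (red X n c)} := by
    apply le_antisymm
    · rw [Submodule.map_le_iff_le_comap]
      intro w hw
      obtain ⟨z, hz, e⟩ := hl w hw
      obtain ⟨k, hk⟩ := h1 z hz
      obtain ⟨e', he'⟩ := hk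
      rw [Submodule.mem_comap, Submodule.mem_span_singleton]
      refine ⟨(k : ZMod 2), ?_⟩
      rw [← map_smul, ← sub_eq_zero, ← map_sub, Submodule.mkQ_apply,
        Submodule.Quotient.mk_eq_zero]
      refine ⟨-(red X (n + 1) e'), ?_⟩
      rw [map_neg, red_bdry, he', map_sub, red_smul, e]
      abel
    · rw [Submodule.span_le, Set.singleton_subset_iff]
      exact Submodule.mem_map_of_mem (red_cyc n c hc)
  unfold H469Z.Taut.betti quotDim
  rw [hspan]
  have : Fact (Nat.Prime 2) := ⟨Nat.prime_two⟩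
  have h3 := finrank_span_singleton (K := ZMod 2) hne
  rw [← Module.finrank_eq_rank, h3]
  simp

/-- The Betti numbers of a space which is homotopy equivalent to the circle. -/
theorem betti_of_circle (f : C(X, S1)) (g : C(S1, X)) (H : C(X × unitInterval, X))
    (hfg : ∀ y, f (g y) = y) (hH0 : ∀ x, H (x, 0) = x) (hH1 : ∀ x, H (x, 1) = g (f x)) (k : ℕ) :
    H469Z.Taut.betti X k = if k ≤ 1 then 1 else 0 := by
  have hHE : HE f := HE_of_homotopyEquiv f g H ⟨Prod.fst, continuous_fst⟩ hH0 hH1 (fun _ => rfl)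
    (fun y => (hfg y).symm)
  obtain ⟨h0, h1, h2⟩ := circle_H
  have g0 := (HE_one hHE 0).1 h0
  have g1 := (HE_one hHE 1).1 h1
  have g2 := fun k => (HE_one hHE (k + 2)).2 (h2 k)
  rcases k with _ | _ | k
  · exact betti_eq_one lifts_zero g0
  · exact betti_eq_one (lifts_succ (noTors_of_one g0)) g1
  · rw [if_neg (by omega)]
    refine betti_eq_zero (lifts_succ ?_) (g2 k)
    cases k with
    | zero => exact noTors_of_one g1
    | succ k => exact noTors_of_zero (g2 k)

end H469Z.Taut
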