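import Pool.Agent.H469Z.TautCyl

open MeasureTheory Set Filter Topology
open scoped ENNReal RealInnerProductSpace ContDiff

noncomputable section

namespace H469Z.Taut

/-! ### A point which is not focal -/

/-- parametrisation of the normal bundle of the circle -/
def Phi (y : V) : V × V := ((rot y.1.re 1, 0), (rot y.1.re ⟨y.1.im, y.2⟩, 2 * y.2))

lemma vert_Phi (y : V) : vert (Phi y).1 (Phi y).2 = y.2 := by
  have := Real.sin_sq_add_cos_sq y.1.re
  simp only [vert, Phi, rot, Complex.one_re, Complex.one_im]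
  linear_combination (-y.2) * this

lemma Phi_mem (y : V) : Phi y ∈ normalBundle nilMetric circ := by
  refine ⟨⟨rot_norm _ norm_one, rfl⟩, fun u hu => ?_⟩
  have h1 := tangent_orth (M := circ) (fun _ h => h.1) hu
  have h2 : u.2 = 0 := by
    obtain ⟨c, hc, -, hd⟩ := hu
    exact (hd_congr (g := fun _ => (0 : ℝ)) (hd_snd hd) (fun s => (hc s).2.symm) rfl).unique
      (hasDerivAt_const 0 0)
  rw [nil_eq, vert_Phi]
  simp only [vert, Phi, rot, Complex.one_re, Complex.one_im, h2] at h1 ⊢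
  linear_combination y.1.im * h1

lemma Phi_surj {z : V × V} (hz : z ∈ normalBundle nilMetric circ) : ∃ y, Phi y = z := by
  obtain ⟨⟨h1, h2⟩, h3⟩ := hz
  have h4 := h3 _ (rot_tangent (M := circ) fun θ => ⟨rot_norm θ h1, h2⟩)
  have h5 := (norm_eq_one_iff _).1 h1
  have hne : z.1.1 ≠ 0 := by
    intro h
    rw [h] at h1
    simp at h1
  have hc : Real.cos (Complex.arg z.1.1) = z.1.1.re := by rw [Complex.cos_arg hne, h1, div_one]
  have hs : Real.sin (Complex.arg z.1.1) = z.1.1.im := by rw [Complex.sin_arg, h1, div_one]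
  refine ⟨(⟨Complex.arg z.1.1, z.1.1.re * z.2.1.re + z.1.1.im * z.2.1.im⟩,
    z.1.1.re * z.2.1.im - z.1.1.im * z.2.1.re), ?_⟩
  rw [nil_eq] at h4
  simp only [vert] at h4
  refine Prod.ext (Prod.ext (Complex.ext ?_ ?_) ?_) (Prod.ext (Complex.ext ?_ ?_) ?_)
  · simp [Phi, rot, hc]
  · simp [Phi, rot, hs]
  · exact h2.symm
  · simp only [Phi, rot, hc, hs]
    linear_combination z.2.1.re * h5
  · simp only [Phi, rot, hc, hs]
    linear_combination z.2.1.im * h5
  · simp only [Phi]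
    linear_combination h4 + (z.2.2 - z.1.1.re * z.2.1.im + z.1.1.im * z.2.1.re) * h5

lemma diffAt_of_coords {F : Type} [NormedAddCommGroup F] [NormedSpace ℝ F] {c : F → V} {y : F}
    (h1 : DifferentiableAt ℝ (fun s => (c s).1.re) y)
    (h2 : DifferentiableAt ℝ (fun s => (c s).1.im) y)
    (h3 : DifferentiableAt ℝ (fun s => (c s).2) y) : DifferentiableAt ℝ c y := by
  have h4 : DifferentiableAt ℝ (fun s => (c s).1.re • ((1, 0) : V) +
      (c s).1.im • ((Complex.I, 0) : V) + (c s).2 • ((0, 1) : V)) y :=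
    ((h1.smul_const _).add (h2.smul_const _)).add (h3.smul_const _)
  have e : ∀ w : V, w.1.re • ((1, 0) : V) + w.1.im • ((Complex.I, 0) : V) + w.2 • ((0, 1) : V)
      = w := by
    intro w
    refine Prod.ext (Complex.ext ?_ ?_) ?_ <;> simp
  simpa only [e] using h4

@[fun_prop]
lemma diffAt_re {F : Type} [NormedAddCommGroup F] [NormedSpace ℝ F] {c : F → ℂ} {y : F}
    (h : DifferentiableAt ℝ c y) : DifferentiableAt ℝ (fun s => (c s).re) y :=
  Complex.reCLM.differentiableAt.comp y h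

@[fun_prop]
lemma diffAt_im {F : Type} [NormedAddCommGroup F] [NormedSpace ℝ F] {c : F → ℂ} {y : F}
    (h : DifferentiableAt ℝ c y) : DifferentiableAt ℝ (fun s => (c s).im) y :=
  Complex.imCLM.differentiableAt.comp y h

lemma diffAt_Phi (y : V) : DifferentiableAt ℝ Phi y := by
  refine DifferentiableAt.prodMk (diffAt_of_coords ?_ ?_ ?_) (diffAt_of_coords ?_ ?_ ?_)
  all_goals
    simp only [rot]
    fun_prop

/-- the radius vector -/
def radP (y : V) : ℂ := ⟨(Phi y).2.1.im / (2 * y.2), -((Phi y).2.1.re / (2 * y.2))⟩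

/-- the end point map in the coordinates `Phi` -/
def FF (y : V) : V := helix ((Phi y).1.1 - radP y) (radP y) y.2 0 1

lemma expo_Phi {y : V} (hy : y.2 ≠ 0) : expo nilMetric (Phi y) = FF y := by
  have h1 := expo_helix (x := (Phi y).1) (v := (Phi y).2) (by rwa [vert_Phi])
  have h2 : rad (Phi y).1 (Phi y).2 = radP y := by
    unfold rad radP
    rw [vert_Phi]
  rw [h2, vert_Phi] at h1
  exact h1

lemma diffAt_FF {y : V} (hy : y.2 ≠ 0) : DifferentiableAt ℝ FF y := by
  have h2 : 2 * y.2 ≠ 0 := mul_ne_zero two_ne_zero hy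
  refine diffAt_of_coords ?_ ?_ ?_
  all_goals
    simp only [FF, helix, radP, Phi, rot, Complex.add_re, Complex.add_im, Complex.sub_re,
      Complex.sub_im]
    fun_prop (disch := exact h2)

lemma exists_nonfocal {O : Set V} (hO : IsOpen O) (hne : O.Nonempty) (h0 : ∀ p ∈ O, p.2 ≠ 0) :
    ∃ p ∈ O, ¬ IsFocalPoint nilMetric circ p := by
  set B : Set V := {y | y.2 ≠ 0 ∧ (fderiv ℝ FF y).det = 0} with hB
  have : (volume : Measure V).IsAddHaarMeasure := Measure.prod.instIsAddHaarMeasure _ _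
  have h1 : volume (FF '' B) = 0 :=
    addHaar_image_eq_zero_of_det_fderivWithin_eq_zero volume (f' := fderiv ℝ FF)
      (fun y hy => (diffAt_FF hy.1).hasFDerivAt.hasFDerivWithinAt) (fun y hy => hy.2)
  have h2 : ¬ O ⊆ FF '' B := fun h =>
    (hO.measure_pos volume hne).ne' (measure_mono_null h h1)
  obtain ⟨p, hp, hpB⟩ := not_subset.1 h2
  refine ⟨p, hp, ?_⟩
  rintro ⟨z, ⟨hz, v, hv⟩, he⟩
  obtain ⟨y, rfl⟩ := Phi_surj hz
  have hy : y.2 ≠ 0 := by
    intro h
    have h3 := expo_line (x := (Phi y).1) (v := (Phi y).2) (by rw [vert_Phi, h])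
    have h4 : expo nilMetric (Phi y) = (Phi y).1 + (Phi y).2 := h3
    rw [he] at h4
    apply h0 p hp
    rw [h4]
    simp [Phi, h]
  have hdet : (fderiv ℝ FF y).det ≠ 0 := fun h => hpB ⟨y, ⟨hy, h⟩, by rw [← expo_Phi hy, he]⟩
  obtain ⟨w, hw⟩ : ∃ w, fderiv ℝ FF y w = v :=
    ((fderiv ℝ FF y).toContinuousLinearEquivOfDetNeZero hdet).surjective v
  have hl := hd_line y w
  refine hv (fun s => Phi (y + s • w)) (fun s => Phi_mem _) (by simp) ?_ ?_
  · exact (diffAt_Phi _).comp (0 : ℝ) hl.differentiableAt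
  · have h3 : HasFDerivAt FF (fderiv ℝ FF y) (y + (0 : ℝ) • w) := by
      simpa using (diffAt_FF hy).hasFDerivAt
    have h4 := h3.comp_hasDerivAt (0 : ℝ) hl
    rw [hw] at h4
    refine h4.congr_of_eventuallyEq ?_
    have h5 : ∀ᶠ s : ℝ in 𝓝 0, (y + s • w).2 ≠ 0 := by
      have h6 : ContinuousAt (fun s : ℝ => (y + s • w).2) 0 := by fun_prop
      exact h6.eventually_ne (by simpa using hy)
    filter_upwards [h5] with s hs
    exact expo_Phi hs

/-! ### Helices as elements of the path space -/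

lemma setIntegral_Iic_eq (f : ℝ → V) (t : unitInterval) :
    ∫ τ in Iic t, f (τ : ℝ) = ∫ τ in (0 : ℝ)..t, f τ := by
  rw [intervalIntegral.integral_of_le t.2.1, ← integral_Icc_eq_integral_Ioc]
  have h1 := unitInterval.measurePreserving_coe
  have h2 : (Iic t : Set unitInterval) = Subtype.val ⁻¹' (Icc (0 : ℝ) t) := by
    ext x
    simp only [mem_Iic, mem_preimage, mem_Icc, Subtype.coe_le_coe]
    exact ⟨fun h => ⟨x.2.1, h⟩, fun h => h.2⟩
  rw [h2, h1.setIntegral_preimage_emb unitInterval.measurableEmbedding_coe,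
    Measure.restrict_restrict measurableSet_Icc]
  congr 2
  exact inter_eq_left.2 (Icc_subset_Icc_right t.2.2)

lemma continuous_helix' (κ a : ℂ) (m : ℝ) : Continuous (helix' κ a m) := by
  have : helix' κ a m = deriv (helix κ a m 0) := funext fun t => (hd_helix κ a m 0 t).deriv.symm
  rw [this]
  exact (contDiff_helix κ a m 0).continuous_deriv (by simp)

/-- the velocity of a helix as a square integrable function -/
def hel (κ a : ℂ) (m : ℝ) : L2 V := ContinuousMap.toLp 2 volume ℝ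
  (⟨fun t : unitInterval => helix' κ a m t,
    (continuous_helix' κ a m).comp continuous_subtype_val⟩ : C(unitInterval, V))

lemma hel_ae (κ a : ℂ) (m : ℝ) : ∀ᵐ t : unitInterval, hel κ a m t = helix' κ a m t :=
  ContinuousMap.coeFn_toLp (p := 2) (𝕜 := ℝ) (volume : Measure unitInterval) _

lemma path_hel (κ a : ℂ) (m h : ℝ) (t : unitInterval) :
    path (helix κ a m h 0) (hel κ a m) t = helix κ a m h t := by
  unfold path
  rw [integral_congr_ae (ae_restrict_of_ae (hel_ae κ a m)), setIntegral_Iic_eq,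
    intervalIntegral.integral_eq_sub_of_hasDerivAt (fun s _ => hd_helix κ a m h s)
      ((continuous_helix' κ a m).intervalIntegrable _ _)]
  abel

lemma U_hel (κ a : ℂ) (m h : ℝ) : U (helix κ a m h 0) (hel κ a m) = cst ℝ m := by
  apply Lp.ext
  filter_upwards [U_ae (helix κ a m h 0) (hel κ a m), hel_ae κ a m, cst_ae m] with t h1 h2 h3
  rw [h1, h2, h3, path_hel]
  exact vert_helix κ a m h t

lemma inner_of_ae {a b α : L2 ℝ} {A B : ℝ} (h : ∀ᵐ t, a t = A + B * J b t) :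
    ⟪a, α⟫ = A * J α 1 + B * S b α := by
  have h1 : Integrable (fun t => J b t * α t) volume :=
    (T b α).integrable.congr (T_ae b α)
  rw [L2.inner_def, S_eq, J_one, ← integral_const_mul, ← integral_const_mul,
    ← integral_add (α.integrable.const_mul A) (h1.const_mul B)]
  apply integral_congr_ae
  filter_upwards [h] with t ht
  rw [ht]
  simp only [RCLike.inner_apply, conj_trivial]
  ring

lemma good_hel {κ a : ℂ} {m h lam : ℝ}
    (h1 : (helix κ a m h 1).1.re ^ 2 + (helix κ a m h 1).1.im ^ 2 = 1)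
    (h2 : lam * (helix κ a m h 1).1.re + m * (helix κ a m h 1).1.im = 2 * m * κ.im)
    (h3 : lam * (helix κ a m h 1).1.im - m * (helix κ a m h 1).1.re = -(2 * m * κ.re)) :
    Good (helix κ a m h 0) (hel κ a m) m lam := by
  have e1 : ∀ t : unitInterval, (helix κ a m h 0).1.re + J (X (hel κ a m)) t =
      (helix κ a m h t).1.re := fun t => by rw [← path_re, path_hel]
  have e2 : ∀ t : unitInterval, (helix κ a m h 0).1.im + J (Y (hel κ a m)) t =
      (helix κ a m h t).1.im := fun t => by rw [← path_im, path_hel]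
  have e3 := e1 1
  have e4 := e2 1
  rw [Icc.coe_one] at e3 e4
  refine ⟨U_hel κ a m h, fun α => ?_, fun β => ?_, by rw [e3, e4, h1]⟩
  · rw [e3, e4, h2, inner_of_ae (b := Y (hel κ a m))
      (A := 2 * m * κ.im - 2 * m * (helix κ a m h 0).1.im) (B := -(2 * m))]
    · ring
    · filter_upwards [X_ae (hel κ a m), hel_ae κ a m] with t g1 g2
      have g3 := e2 t
      have g4 : (helix κ a m h t).1.im = κ.im + (rot (2 * m * t) a).im := rfl
      rw [g1, g2]
      simp only [helix']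
      linear_combination (2 * m) * g3 + (2 * m) * g4
  · rw [e3, e4, h3, inner_of_ae (b := X (hel κ a m))
      (A := -(2 * m * κ.re) + 2 * m * (helix κ a m h 0).1.re) (B := 2 * m)]
    · ring
    · filter_upwards [Y_ae (hel κ a m), hel_ae κ a m] with t g1 g2
      have g3 := e1 t
      have g4 : (helix κ a m h t).1.re = κ.re + (rot (2 * m * t) a).re := rfl
      rw [g1, g2]
      simp only [helix']
      linear_combination (-(2 * m)) * g3 - (2 * m) * g4

lemma circ_cond {p : V} {f : L2 V} (hf : f ∈ pathSpace p circ) (m : ℝ) :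
    ∀ g ∈ pathSpace p circ, (p.1.re + J (X g) 1) ^ 2 + (p.1.im + J (Y g) 1) ^ 2 = 1 ∧
      m * (J (Z g) 1 - J (Z f) 1) = 0 := by
  intro g hg
  have h1 := (mem_circ.1 hf).2
  have h2 := (mem_circ.1 hg).2
  refine ⟨(mem_circ.1 hg).1, ?_⟩
  rw [show J (Z g) 1 - J (Z f) 1 = 0 by linarith, mul_zero]

lemma Good.index_lt_top {p : V} {f : L2 V} {m lam : ℝ} (h : Good p f m lam)
    (hf : f ∈ pathSpace p circ) : ∃ k : ℕ, index nilMetric p circ f = k := by
  obtain ⟨n, hn⟩ := exists_nat_gt (2 * |m|)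
  have hn0 : 0 < n := by
    have : (0 : ℝ) < n := lt_of_le_of_lt (by positivity) hn
    exact_mod_cast this
  have hn0' : (0 : ℝ) < n := by exact_mod_cast hn0
  let ev : Fin (n ^ 2 + 1) → L2 ℝ →L[ℝ] ℝ := fun j =>
    (ContinuousMap.evalCLM ℝ (projIcc 0 1 zero_le_one ((j : ℝ) / n ^ 2) : unitInterval)).comp J
  let L : L2 V →ₗ[ℝ] (Fin ((n ^ 2 + 1) + (n ^ 2 + 1)) → ℝ) := LinearMap.pi fun j =>
    Fin.addCases (motive := fun _ => L2 V →ₗ[ℝ] ℝ) (fun i => ((ev i).comp X : L2 V →L[ℝ] ℝ))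
      (fun i => ((ev i).comp Y : L2 V →L[ℝ] ℝ)) j
  have h1 : index nilMetric p circ f ≤ ((n ^ 2 + 1) + (n ^ 2 + 1) : ℕ) := by
    refine index_le L fun w hw h0 => ?_
    have h2 := (h.neg (circ_cond hf m) hw).1
    have h3 : ∀ j : Fin (n ^ 2 + 1),
        J (X w) (projIcc 0 1 zero_le_one ((j : ℝ) / n ^ 2)) = 0 := by
      intro j
      have := congrFun h0 (Fin.castAdd _ j)
      simpa [L, ev] using this
    have h4 : ∀ j : Fin (n ^ 2 + 1),
        J (Y w) (projIcc 0 1 zero_le_one ((j : ℝ) / n ^ 2)) = 0 := by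
      intro j
      have := congrFun h0 (Fin.natAdd _ j)
      simp only [L, LinearMap.pi_apply, Fin.addCases_right] at this
      exact this
    have hlast : projIcc (0 : ℝ) 1 zero_le_one (((Fin.last (n ^ 2) : Fin (n ^ 2 + 1)) : ℝ) / n ^ 2)
        = (1 : unitInterval) := by
      rw [Fin.val_last]
      push_cast
      rw [div_self (by positivity), projIcc_right]
      rfl
    have h5 := h3 (Fin.last _)
    have h6 := h4 (Fin.last _)
    rw [hlast] at h5 h6
    have h7 := abs_S_le (X w) (Y w) (abs_J_le_of_grid (X w) n hn0 h3)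
    have h8 := abs_S_le (Y w) (X w) (abs_J_le_of_grid (Y w) n hn0 h4)
    unfold qf at h2
    rw [h5, h6] at h2
    have h9 : |2 * m * (S (X w) (Y w) - S (Y w) (X w))| ≤ 2 * (‖X w‖ * ‖Y w‖) := by
      rw [abs_mul, abs_mul, abs_two]
      have g1 : |S (X w) (Y w) - S (Y w) (X w)| ≤ 2 * (‖X w‖ * ‖Y w‖) / n := by
        refine (abs_sub _ _).trans ((add_le_add h7 h8).trans (le_of_eq ?_))
        ring
      calc 2 * |m| * |S (X w) (Y w) - S (Y w) (X w)| ≤ n * (2 * (‖X w‖ * ‖Y w‖) / n) :=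
            mul_le_mul hn.le g1 (abs_nonneg _) hn0'.le
        _ = 2 * (‖X w‖ * ‖Y w‖) := by field_simp
    have h10 := le_of_abs_le h9
    nlinarith [sq_nonneg (‖X w‖ - ‖Y w‖)]
  exact (ENat.ne_top_iff_exists.1 (ne_top_of_le_ne_top (ENat.natCast_ne_top _) h1)).imp
    fun k hk => hk.symm

/-! ### Three geodesics -/

lemma rot_rot (α β : ℝ) (a : ℂ) : rot α (rot β a) = rot (α + β) a := by
  apply Complex.ext
  · simp only [rot, Real.cos_add, Real.sin_add]
    ring
  · simp only [rot, Real.cos_add, Real.sin_add]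
    ring

/-- the equation for the vertical velocity -/
def GG (ρ D m : ℝ) : ℝ := 3 * m * Real.sin m ^ 2 + m * (Real.cos m - ρ) ^ 2 +
  Real.sin m * Real.cos m * (Real.sin m ^ 2 - (Real.cos m - ρ) ^ 2) -
  2 * (Real.cos m - ρ) * Real.sin m ^ 3 - 2 * Real.sin m ^ 2 * D

lemma exists_good {p : V} (hp : p.1 ≠ 0) {m : ℝ} (hs : Real.sin m ≠ 0)
    (hG : GG ‖p.1‖ (-p.2) m = 0) : ∃ f ∈ pathSpace p circ, ∃ lam, Good p f m lam := by
  have hr : 0 < ‖p.1‖ := norm_pos_iff.2 hp
  set r := ‖p.1‖ with hrdef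
  have hr2 : p.1.re ^ 2 + p.1.im ^ 2 = r ^ 2 := by
    rw [hrdef, Complex.sq_norm, Complex.normSq_apply]; ring
  obtain ⟨e1, he1⟩ : ∃ e1, p.1.re = r * e1 := ⟨p.1.re / r, by field_simp⟩
  obtain ⟨e2, he2⟩ : ∃ e2, p.1.im = r * e2 := ⟨p.1.im / r, by field_simp⟩
  have he : e1 ^ 2 + e2 ^ 2 = 1 := by
    rw [he1, he2] at hr2
    have h1 : r ^ 2 * (e1 ^ 2 + e2 ^ 2 - 1) = 0 := by linear_combination hr2
    have h2 := (mul_eq_zero.1 h1).resolve_left (by positivity)
    linarith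
  obtain ⟨k, hk⟩ : ∃ k, Real.cos m - r = k * Real.sin m := ⟨(Real.cos m - r) / Real.sin m, by
    field_simp⟩
  have hsc := Real.sin_sq_add_cos_sq m
  have hz : p.2 + m + m * (1 + k ^ 2) / 2 + (1 - k ^ 2) * Real.sin m * Real.cos m / 2 -
      k * Real.sin m ^ 2 = 0 := by
    unfold GG at hG
    rw [hk] at hG
    have h1 : 2 * Real.sin m ^ 2 * (p.2 + m + m * (1 + k ^ 2) / 2 +
        (1 - k ^ 2) * Real.sin m * Real.cos m / 2 - k * Real.sin m ^ 2) = 0 := by
      linear_combination hG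
    exact (mul_eq_zero.1 h1).resolve_left (by positivity)
  set w : ℂ := ⟨(e1 + k * e2) / 2, (e2 - k * e1) / 2⟩ with hw
  set w' : ℂ := ⟨(e1 - k * e2) / 2, (e2 + k * e1) / 2⟩ with hw'
  have h0 : helix (rot m w') (rot (-m) w) m p.2 0 = p := by
    refine Prod.ext (Complex.ext ?_ ?_) ?_
    · simp only [helix, mul_zero, rot_zero, Complex.add_re]
      simp only [rot, hw, hw', Real.cos_neg, Real.sin_neg]
      linear_combination e1 * hk - he1
    · simp only [helix, mul_zero, rot_zero, Complex.add_im]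
      simp only [rot, hw, hw', Real.cos_neg, Real.sin_neg]
      linear_combination e2 * hk - he2
    · simp [helix, rot_zero]
  have hrr : rot (2 * m * 1) (rot (-m) w) = rot m w := by
    rw [rot_rot]
    congr 1
    ring
  have h1 : (helix (rot m w') (rot (-m) w) m p.2 1).1.re = Real.cos m * e1 - Real.sin m * e2 := by
    simp only [helix, hrr, Complex.add_re]
    simp only [rot, hw, hw']
    ring
  have h2 : (helix (rot m w') (rot (-m) w) m p.2 1).1.im = Real.sin m * e1 + Real.cos m * e2 := by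
    simp only [helix, hrr, Complex.add_im]
    simp only [rot, hw, hw']
    ring
  have h3 : (helix (rot m w') (rot (-m) w) m p.2 1).2 = 0 := by
    simp only [helix, hrr]
    simp only [rot, hw, hw', Real.cos_neg, Real.sin_neg]
    linear_combination hz + (m * (1 + k ^ 2) / 2 * (e1 ^ 2 + e2 ^ 2)) * hsc +
      (m * (1 + k ^ 2) / 2 + Real.sin m * Real.cos m * (1 - k ^ 2) / 2 - k * Real.sin m ^ 2) * he
  have h4 : (helix (rot m w') (rot (-m) w) m p.2 1).1.re ^ 2 +
      (helix (rot m w') (rot (-m) w) m p.2 1).1.im ^ 2 = 1 := by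
    rw [h1, h2]
    linear_combination (e1 ^ 2 + e2 ^ 2) * hsc + he
  have h5 := good_hel (lam := m * k) h4 (by
    rw [h1, h2]
    simp only [rot, hw']
    ring) (by
    rw [h1, h2]
    simp only [rot, hw']
    ring)
  refine ⟨hel (rot m w') (rot (-m) w) m, ?_, m * k, by rwa [h0] at h5⟩
  have h6 := path_hel (rot m w') (rot (-m) w) m p.2 1
  rw [h0, Icc.coe_one] at h6
  show path p _ 1 ∈ circ
  rw [h6]
  exact ⟨(norm_eq_one_iff _).2 h4, h3⟩

lemma continuous_GG (ρ D : ℝ) : Continuous (GG ρ D) := by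
  unfold GG
  fun_prop

lemma three_roots {ρ D : ℝ} (h0 : 0 < ρ) (h1 : ρ < 1) (hD : 30 < D) :
    ∃ m₁ m₂ m₃ : ℝ, 0 < m₁ ∧ m₁ < m₂ ∧ m₂ < m₃ ∧ GG ρ D m₁ = 0 ∧ GG ρ D m₂ = 0 ∧ GG ρ D m₃ = 0 := by
  have hpi := Real.pi_pos
  have hpi4 := Real.pi_le_four
  have hρ2 : ρ ^ 2 < 1 := by nlinarith
  have a1 : GG ρ D (Real.pi / 2) < 0 := by
    unfold GG
    rw [Real.sin_pi_div_two, Real.cos_pi_div_two]
    nlinarith
  have a2 : 0 < GG ρ D Real.pi := by
    unfold GG
    rw [Real.sin_pi, Real.cos_pi]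
    have : 0 < Real.pi * (-1 - ρ) ^ 2 := mul_pos hpi (by nlinarith)
    nlinarith
  have a3 : GG ρ D (Real.pi / 2 + Real.pi) < 0 := by
    unfold GG
    rw [Real.sin_add_pi, Real.cos_add_pi, Real.sin_pi_div_two, Real.cos_pi_div_two]
    nlinarith
  have a4 : 0 < GG ρ D (2 * Real.pi) := by
    unfold GG
    rw [Real.sin_two_pi, Real.cos_two_pi]
    have : 0 < Real.pi * (1 - ρ) ^ 2 := mul_pos hpi (by nlinarith)
    nlinarith
  obtain ⟨m₁, b1, c1⟩ := intermediate_value_Ioo (show Real.pi / 2 ≤ Real.pi by linarith)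
    (continuous_GG ρ D).continuousOn ⟨a1, a2⟩
  obtain ⟨m₂, b2, c2⟩ := intermediate_value_Ioo' (show Real.pi ≤ Real.pi / 2 + Real.pi by linarith)
    (continuous_GG ρ D).continuousOn ⟨a3, a2⟩
  obtain ⟨m₃, b3, c3⟩ := intermediate_value_Ioo
    (show Real.pi / 2 + Real.pi ≤ 2 * Real.pi by linarith)
    (continuous_GG ρ D).continuousOn ⟨a3, a4⟩
  exact ⟨m₁, m₂, m₃, by linarith [b1.1], b1.2.trans b2.1, b2.2.trans b3.1, c1, c2, c3⟩

lemma sin_ne_of_root {ρ D m : ℝ} (h0 : 0 < ρ) (h1 : ρ < 1) (hm : 0 < m) (hG : GG ρ D m = 0) :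
    Real.sin m ≠ 0 := by
  intro hs
  have hsc := Real.sin_sq_add_cos_sq m
  unfold GG at hG
  rw [hs] at hG hsc
  have h2 : m * (Real.cos m - ρ) ^ 2 = 0 := by linear_combination hG
  have h3 : Real.cos m - ρ = 0 := by
    have := (mul_eq_zero.1 h2).resolve_left hm.ne'
    exact pow_eq_zero_iff two_ne_zero |>.1 this
  have h4 : Real.cos m = ρ := by linarith
  rw [h4] at hsc
  nlinarith

lemma not_taut_circ : ¬ IsTaut nilMetric circ := by
  intro ht
  obtain ⟨p, ⟨⟨hp0, hp1⟩, hp2⟩, hp⟩ := exists_nonfocal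
    (O := ({p : V | 0 < ‖p.1‖} ∩ {p : V | ‖p.1‖ < 1}) ∩ {p : V | p.2 < -30})
    (((isOpen_lt continuous_const continuous_fst.norm).inter
      (isOpen_lt continuous_fst.norm continuous_const)).inter
      (isOpen_lt continuous_snd continuous_const))
    ⟨(1 / 2, -31), ⟨⟨by simp, by norm_num⟩, by norm_num⟩⟩
    (fun p hp h => by
      have h1 : p.2 < -30 := hp.2
      linarith)
  have hp0' : 0 < ‖p.1‖ := hp0
  have hp1' : ‖p.1‖ < 1 := hp1
  have hp2' : p.2 < -30 := hp2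
  have key : ∀ m, 0 < m → GG ‖p.1‖ (-p.2) m = 0 → ∃ f ∈ crit nilMetric p circ,
      U p f = cst ℝ m ∧ (index nilMetric p circ f = (0 : ℕ) ∨ index nilMetric p circ f = (1 : ℕ)) := by
    intro m hm hG
    obtain ⟨f, hf, lam, hgood⟩ := exists_good (norm_pos_iff.1 hp0')
      (sin_ne_of_root hp0' hp1' hm hG) hG
    have hc := hgood.crit hf (circ_cond hf m)
    refine ⟨f, hc, hgood.hU, ?_⟩
    obtain ⟨k, hk⟩ := hgood.index_lt_top hf
    have h1 := ht p hp k
    rw [betti_circ] at h1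
    by_cases h2 : k ≤ 1
    · interval_cases k
      · exact Or.inl hk
      · exact Or.inr hk
    · rw [if_neg h2, encard_eq_zero] at h1
      exact absurd (show f ∈ {f ∈ crit nilMetric p circ | index nilMetric p circ f = k} from
        ⟨hc, hk⟩) (by rw [h1]; exact notMem_empty f)
  have uniq : ∀ (k : ℕ) (f g : L2 V) (m n : ℝ), k ≤ 1 → f ∈ crit nilMetric p circ →
      g ∈ crit nilMetric p circ → U p f = cst ℝ m → U p g = cst ℝ n →
      index nilMetric p circ f = k → index nilMetric p circ g = k → m = n := by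
    intro k f g m n hk hf hg h1 h2 h3 h4
    have h5 := ht p hp k
    rw [betti_circ, if_pos hk, encard_eq_one] at h5
    obtain ⟨x, hx⟩ := h5
    have h6 : f ∈ ({x} : Set (L2 V)) := hx ▸ ⟨hf, h3⟩
    have h7 : g ∈ ({x} : Set (L2 V)) := hx ▸ ⟨hg, h4⟩
    rw [mem_singleton_iff] at h6 h7
    rw [h6] at h1
    rw [h7, h1] at h2
    rw [← J_cst_one m, h2, J_cst_one]
  obtain ⟨m₁, m₂, m₃, a0, a1, a2, b1, b2, b3⟩ := three_roots hp0' hp1' (D := -p.2) (by linarith)
  obtain ⟨f₁, c1, d1, e1⟩ := key m₁ a0 b1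
  obtain ⟨f₂, c2, d2, e2⟩ := key m₂ (by linarith) b2
  obtain ⟨f₃, c3, d3, e3⟩ := key m₃ (by linarith) b3
  have n12 := fun k hk => uniq k f₁ f₂ m₁ m₂ hk c1 c2 d1 d2
  have n13 := fun k hk => uniq k f₁ f₃ m₁ m₃ hk c1 c3 d1 d3
  have n23 := fun k hk => uniq k f₂ f₃ m₂ m₃ hk c2 c3 d2 d3
  rcases e1 with e1 | e1 <;> rcases e2 with e2 | e2 <;> rcases e3 with e3 | e3
  all_goals first
    | exact a1.ne (n12 _ (by omega) e1 e2)
    | exact (a1.trans a2).ne (n13 _ (by omega) e1 e3)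
    | exact a2.ne (n23 _ (by omega) e2 e3)

/-! ### Submanifolds -/

lemma surj_of_lines {m : ℕ} {f : V → Fin m → ℝ} (hf : ContDiff ℝ ∞ f) (y : V)
    (hs : ∀ v : Fin m → ℝ, ∃ w : V, ∀ i, HasDerivAt (fun t : ℝ => f (y + t • w) i) (v i) 0) :
    Function.Surjective (fderiv ℝ f y) := by
  intro v
  obtain ⟨w, hw⟩ := hs v
  refine ⟨w, ?_⟩
  have h1 : HasFDerivAt f (fderiv ℝ f y) (y + (0 : ℝ) • w) := by
    simpa using ((hf.differentiable (by simp)) y).hasFDerivAt
  have h2 := h1.comp_hasDerivAt (0 : ℝ) (hd_line y w)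
  funext i
  exact (hasDerivAt_pi.1 h2 i).unique (hw i)

lemma hd_normsq {y : V} (hy : y.1 ≠ 0) (a b : ℝ) : ∃ w : V, w.2 = b ∧
    HasDerivAt (fun t : ℝ => (y + t • w).1.re ^ 2 + (y + t • w).1.im ^ 2 - 1) a 0 := by
  have h0 : y.1.re ^ 2 + y.1.im ^ 2 ≠ 0 := by
    have := Complex.normSq_pos.2 hy
    rw [Complex.normSq_apply] at this
    nlinarith
  refine ⟨(⟨a * y.1.re / (2 * (y.1.re ^ 2 + y.1.im ^ 2)),
    a * y.1.im / (2 * (y.1.re ^ 2 + y.1.im ^ 2))⟩, b), rfl, ?_⟩
  refine hd_congr ((((hd_re (hd_line y _)).fun_pow 2).fun_add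
    ((hd_im (hd_line y _)).fun_pow 2)).sub_const 1) (fun _ => rfl) ?_
  simp only [zero_smul, add_zero, Nat.cast_ofNat, Nat.add_one_sub_one, pow_one]
  field_simp

lemma finrank_V : Module.finrank ℝ V = 3 := by
  simp [Module.finrank_prod]

lemma contDiff_normsq : ContDiff ℝ ∞ fun y : V => y.1.re ^ 2 + y.1.im ^ 2 - 1 :=
  ((cX.contDiff.pow 2).add (cY.contDiff.pow 2)).sub contDiff_const

lemma sub_cyl : IsProperSubmanifold cyl 2 := by
  refine ⟨isClosed_eq continuous_fst.norm continuous_const, fun x hx => ?_⟩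
  have hf : ContDiff ℝ ∞ fun (y : V) (_ : Fin 1) => y.1.re ^ 2 + y.1.im ^ 2 - 1 :=
    contDiff_pi.2 fun _ => contDiff_normsq
  refine ⟨1, {y | y.1 ≠ 0}, _, finrank_V.symm, isOpen_ne_fun continuous_fst continuous_const, ?_,
    hf.contDiffOn, fun y _ => ?_, fun y hy => surj_of_lines hf y fun v => ?_⟩
  · intro h
    have h1 : ‖x.1‖ = 1 := hx
    rw [h] at h1
    simp at h1
  · show ‖y.1‖ = 1 ↔ _
    rw [norm_eq_one_iff, funext_iff, Fin.forall_fin_one, Pi.zero_apply, sub_eq_zero]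
  · obtain ⟨w, -, hw⟩ := hd_normsq hy (v 0) 0
    exact ⟨w, Fin.forall_fin_one.2 hw⟩

lemma sub_circ : IsProperSubmanifold circ 1 := by
  refine ⟨(isClosed_eq continuous_fst.norm continuous_const).inter
    (isClosed_eq continuous_snd continuous_const), fun x hx => ?_⟩
  have hf : ContDiff ℝ ∞ fun (y : V) => (![y.1.re ^ 2 + y.1.im ^ 2 - 1, y.2] : Fin 2 → ℝ) :=
    contDiff_pi.2 (Fin.forall_fin_two.2 ⟨contDiff_normsq, contDiff_snd⟩)
  refine ⟨2, {y | y.1 ≠ 0}, _, finrank_V.symm, isOpen_ne_fun continuous_fst continuous_const, ?_,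
    hf.contDiffOn, fun y _ => ?_, fun y hy => surj_of_lines hf y fun v => ?_⟩
  · intro h
    have h1 : ‖x.1‖ = 1 := hx.1
    rw [h] at h1
    simp at h1
  · show ‖y.1‖ = 1 ∧ y.2 = 0 ↔ _
    rw [norm_eq_one_iff, funext_iff, Fin.forall_fin_two, Pi.zero_apply, Pi.zero_apply]
    simp [sub_eq_zero]
  · obtain ⟨w, hw2, hw⟩ := hd_normsq hy (v 0) (v 1)
    exact ⟨w, Fin.forall_fin_two.2 ⟨hw, hw2 ▸ hd_snd (hd_line y w)⟩⟩

end H469Z.Taut
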