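import Pool.Agent.H469Z.TautPaths

open MeasureTheory Set Filter Topology
open scoped ENNReal RealInnerProductSpace ContDiff

noncomputable section

namespace H469Z.Taut

/-- the horizontal segment from `p` to the vertical line through `ζ` -/
def seg (p : V) (ζ : ℂ) : L2 V := cst V (ζ - p.1, p.1.re * ζ.im - p.1.im * ζ.re)

lemma T_cst_comm (a b : ℝ) : T (cst ℝ a) (cst ℝ b) = T (cst ℝ b) (cst ℝ a) := by
  apply Lp.ext
  filter_upwards [T_ae (cst ℝ a) (cst ℝ b), T_ae (cst ℝ b) (cst ℝ a), cst_ae a, cst_ae b]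
    with t h1 h2 h3 h4
  rw [h1, h2, h3, h4, J_cst, J_cst]
  ring

lemma U_cst (p a : V) : U p (cst V a) = cst ℝ (vert p a) := by
  unfold U vert
  rw [X_cst, Y_cst, Z_cst, T_cst_comm a.1.re a.1.im, map_add, map_sub, ← smul_eq_mul,
    ← smul_eq_mul, map_smul, map_smul]
  abel

lemma U_seg (p : V) (ζ : ℂ) : U p (seg p ζ) = cst ℝ 0 := by
  unfold seg
  rw [U_cst]
  congr 1
  simp only [vert, Complex.sub_re, Complex.sub_im]
  ring

lemma X_seg (p : V) (ζ : ℂ) : X (seg p ζ) = cst ℝ (ζ.re - p.1.re) := X_cst _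
lemma Y_seg (p : V) (ζ : ℂ) : Y (seg p ζ) = cst ℝ (ζ.im - p.1.im) := Y_cst _

lemma energy_seg (p : V) (ζ : ℂ) :
    energy nilMetric p (seg p ζ) = (ζ.re - p.1.re) ^ 2 + (ζ.im - p.1.im) ^ 2 := by
  rw [energy_eq, U_seg, X_seg, Y_seg, norm_cst_sq, norm_cst_sq, norm_cst_sq]
  ring

lemma seg_mem (p : V) {ζ : ℂ} (h : ζ.re ^ 2 + ζ.im ^ 2 = 1) : seg p ζ ∈ pathSpace p cyl := by
  rw [mem_cyl, X_seg, Y_seg, J_cst_one, J_cst_one]
  linarith

lemma good_seg (p : V) {ζ : ℂ} (h : ζ.re ^ 2 + ζ.im ^ 2 = 1)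
    (h2 : p.1.re * ζ.im - p.1.im * ζ.re = 0) :
    Good p (seg p ζ) 0 (1 - (p.1.re * ζ.re + p.1.im * ζ.im)) where
  hU := U_seg p ζ
  hX := by
    intro α
    rw [X_seg, Y_seg, inner_cst, J_cst_one, J_cst_one]
    have : ζ.re - p.1.re = (1 - (p.1.re * ζ.re + p.1.im * ζ.im)) * ζ.re := by
      linear_combination p.1.re * h - ζ.im * h2
    linear_combination (J α 1) * this
  hY := by
    intro β
    rw [X_seg, Y_seg, inner_cst, J_cst_one, J_cst_one]
    have : ζ.im - p.1.im = (1 - (p.1.re * ζ.re + p.1.im * ζ.im)) * ζ.im := by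
      linear_combination p.1.im * h + ζ.re * h2
    linear_combination (J β 1) * this
  h1 := mem_cyl.1 (seg_mem p h)

lemma cyl_cond (p : V) (f : L2 V) : ∀ g ∈ pathSpace p cyl,
    (p.1.re + J (X g) 1) ^ 2 + (p.1.im + J (Y g) 1) ^ 2 = 1 ∧
      0 * (J (Z g) 1 - J (Z f) 1) = 0 := fun _ hg => ⟨mem_cyl.1 hg, zero_mul _⟩

lemma seg_crit (p : V) {ζ : ℂ} (h : ζ.re ^ 2 + ζ.im ^ 2 = 1)
    (h2 : p.1.re * ζ.im - p.1.im * ζ.re = 0) : seg p ζ ∈ crit nilMetric p cyl :=
  (good_seg p h h2).crit (seg_mem p h) (cyl_cond p _)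

lemma hd_energy {p : V} {c : ℝ → L2 V} {w : L2 V} (hd : HasDerivAt c w 0) {u : L2 ℝ}
    (hu : HasDerivAt (fun s => U p (c s)) u 0) :
    HasDerivAt (fun s => energy nilMetric p (c s))
      (2 * ⟪X (c 0), X w⟫ + 2 * ⟪Y (c 0), Y w⟫ + 2 * ⟪U p (c 0), u⟫) 0 := by
  have h1 : HasDerivAt (fun s => X (c s)) (X w) 0 := X.hasFDerivAt.comp_hasDerivAt 0 hd
  have h2 : HasDerivAt (fun s => Y (c s)) (Y w) 0 := Y.hasFDerivAt.comp_hasDerivAt 0 hd
  exact hd_congr ((h1.norm_sq.fun_add h2.norm_sq).fun_add hu.norm_sq) (fun s => energy_eq p _) rfl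

/-- vertical vector valued functions -/
def iz : L2 ℝ →L[ℝ] L2 V := (ContinuousLinearMap.inr ℝ ℂ ℝ).compLpL 2 volume

lemma iz_ae (γ : L2 ℝ) : ∀ᵐ t, iz γ t = (0, γ t) :=
  (ContinuousLinearMap.inr ℝ ℂ ℝ).coeFn_compLpL γ

lemma X_iz (γ : L2 ℝ) : X (iz γ) = 0 := by
  apply Lp.ext
  filter_upwards [X_ae (iz γ), iz_ae γ, Lp.coeFn_zero ℝ 2 (volume : Measure unitInterval)]
    with t h1 h2 h3
  rw [h1, h2, h3]
  simp

lemma Y_iz (γ : L2 ℝ) : Y (iz γ) = 0 := by
  apply Lp.ext
  filter_upwards [Y_ae (iz γ), iz_ae γ, Lp.coeFn_zero ℝ 2 (volume : Measure unitInterval)]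
    with t h1 h2 h3
  rw [h1, h2, h3]
  simp

lemma Z_iz (γ : L2 ℝ) : Z (iz γ) = γ := by
  apply Lp.ext
  filter_upwards [Z_ae (iz γ), iz_ae γ] with t h1 h2
  rw [h1, h2]

lemma hd_line {F : Type} [NormedAddCommGroup F] [NormedSpace ℝ F] (f w : F) :
    HasDerivAt (fun s : ℝ => f + s • w) w 0 := by
  have := ((hasDerivAt_id (0 : ℝ)).smul_const w).const_add f
  simpa using this

lemma crit_U {p : V} {f : L2 V} (hf : f ∈ crit nilMetric p cyl) : U p f = 0 := by
  have hd := hd_line f (iz (U p f))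
  have hU0 : ∀ (γ : L2 ℝ) (s : ℝ), U p (f + s • iz γ) = U p f + s • γ := by
    intro γ s
    unfold U
    simp only [map_add, map_smul, X_iz, Y_iz, Z_iz, smul_zero, add_zero]
    abel
  have hU := hU0 (U p f)
  have h1 := hd_energy hd (hd_congr (hd_line (U p f) (U p f)) hU rfl)
  have h2 := hf.2 _ (fun s => by
    rw [mem_cyl]
    simp only [map_add, map_smul, X_iz, Y_iz, smul_zero, add_zero]
    exact mem_cyl.1 hf.1) (by simp) hd.differentiableAt
  have h3 := h1.unique h2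
  simp only [X_iz, Y_iz, inner_zero_right, zero_smul, add_zero, mul_zero, zero_add] at h3
  have h4 : ⟪U p f, U p f⟫ = 0 := by linarith
  exact inner_self_eq_zero.1 h4

lemma crit_first {p : V} {f : L2 V} (hf : f ∈ crit nilMetric p cyl) {c : ℝ → L2 V} {w : L2 V}
    (hc : ∀ s, c s ∈ pathSpace p cyl) (h0 : c 0 = f) (hd : HasDerivAt c w 0) :
    ⟪X f, X w⟫ + ⟪Y f, Y w⟫ = 0 := by
  have hu := (((contDiff_U p).differentiable (by simp)) (c 0)).hasFDerivAt.comp_hasDerivAt 0 hd
  have h1 := hd_energy hd hu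
  have h2 := h1.unique (hf.2 c hc h0 hd.differentiableAt)
  rw [h0, crit_U hf, inner_zero_left] at h2
  linarith

lemma hd_rot (ζ : ℂ) : HasDerivAt (fun s => ((rot s ζ, 0) : V)) (⟨-ζ.im, ζ.re⟩, 0) 0 := by
  apply hd_of_coords
  · have h1 := ((Real.hasDerivAt_cos 0).mul_const ζ.re).fun_sub
      ((Real.hasDerivAt_sin 0).mul_const ζ.im)
    exact hd_congr h1 (fun _ => rfl) (by simp)
  · have h1 := ((Real.hasDerivAt_sin 0).mul_const ζ.re).fun_add
      ((Real.hasDerivAt_cos 0).mul_const ζ.im)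
    exact hd_congr h1 (fun _ => rfl) (by simp)
  · exact hasDerivAt_const _ _

lemma crit_form {p : V} {f : L2 V} (hf : f ∈ crit nilMetric p cyl) :
    ∃ ζ : ℂ, ζ.re ^ 2 + ζ.im ^ 2 = 1 ∧ p.1.re * ζ.im - p.1.im * ζ.re = 0 ∧ f = seg p ζ := by
  set a := J (X f) 1 with ha
  set b := J (Y f) 1 with hb
  have hP := mem_cyl.1 hf.1
  rw [← ha, ← hb] at hP
  have hXw : X (f - cst V (II f)) = X f - cst ℝ a := by rw [map_sub, X_cst, II_re]
  have hYw : Y (f - cst V (II f)) = Y f - cst ℝ b := by rw [map_sub, Y_cst, II_im]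
  have hJa : J (X f - cst ℝ a) 1 = 0 := by
    rw [map_sub, ContinuousMap.sub_apply, J_cst_one, ha, sub_self]
  have hJb : J (Y f - cst ℝ b) 1 = 0 := by
    rw [map_sub, ContinuousMap.sub_apply, J_cst_one, hb, sub_self]
  have h1 := crit_first hf (c := fun s : ℝ => f + s • (f - cst V (II f))) (fun s => by
    rw [mem_pathSpace, map_add, map_smul, map_sub, II_cst, sub_self, smul_zero, add_zero]
    exact mem_pathSpace.1 hf.1) (by simp) (hd_line _ _)
  rw [hXw, hYw] at h1
  have h2 : ⟪X f, X f - cst ℝ a⟫ = ‖X f - cst ℝ a‖ ^ 2 := by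
    rw [← real_inner_self_eq_norm_sq, inner_sub_left, inner_cst, hJa]; ring
  have h3 : ⟪Y f, Y f - cst ℝ b⟫ = ‖Y f - cst ℝ b‖ ^ 2 := by
    rw [← real_inner_self_eq_norm_sq, inner_sub_left, inner_cst, hJb]; ring
  rw [h2, h3] at h1
  have h4 : X f = cst ℝ a := by
    rw [← sub_eq_zero, ← norm_eq_zero]
    nlinarith [sq_nonneg ‖X f - cst ℝ a‖, sq_nonneg ‖Y f - cst ℝ b‖]
  have h5 : Y f = cst ℝ b := by
    rw [← sub_eq_zero, ← norm_eq_zero]
    nlinarith [sq_nonneg ‖X f - cst ℝ a‖, sq_nonneg ‖Y f - cst ℝ b‖]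
  set ζ : ℂ := ⟨p.1.re + a, p.1.im + b⟩ with hζ
  have hd : HasDerivAt (fun s => f + cst V (((rot s ζ, 0) : V) - (ζ, 0)))
      (cst V (⟨-ζ.im, ζ.re⟩, 0)) 0 :=
    ((cst V).hasFDerivAt.comp_hasDerivAt 0 ((hd_rot ζ).sub_const _)).const_add f
  have h6 := crit_first hf (fun s => by
    rw [mem_cyl, map_add, map_add, map_add, map_add, ContinuousMap.add_apply,
      ContinuousMap.add_apply, X_cst, Y_cst, J_cst_one, J_cst_one, ← ha, ← hb]
    have e := rot_sq s ζ
    simp only [Prod.fst_sub, Complex.sub_re, Complex.sub_im]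
    simp only [hζ] at e ⊢
    linear_combination e + hP) (by simp [rot_zero]) hd
  rw [h4, h5, X_cst, Y_cst, inner_cst, inner_cst, J_cst_one, J_cst_one] at h6
  simp only [hζ] at h6
  have h7 : p.1.re * ζ.im - p.1.im * ζ.re = 0 := by
    simp only [hζ]
    linear_combination h6
  refine ⟨ζ, hP, h7, ?_⟩
  have e1 : X f = X (seg p ζ) := by rw [X_seg, h4]; simp [hζ]
  have e2 : Y f = Y (seg p ζ) := by rw [Y_seg, h5]; simp [hζ]
  refine ext_XYZ e1 e2 ?_
  have e3 := crit_U hf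
  have e4 := U_seg p ζ
  rw [map_zero] at e4
  unfold U at e3 e4
  rw [← e1, ← e2] at e4
  have e5 := e3.trans e4.symm
  simpa using e5

lemma J_sq_le (a : L2 ℝ) : J a 1 ^ 2 ≤ ‖a‖ ^ 2 := by
  rw [← sq_abs]
  exact pow_le_pow_left₀ (abs_nonneg _) (prim_abs_le a 1) 2

lemma index_near (p : V) {ζ : ℂ} (h : ζ.re ^ 2 + ζ.im ^ 2 = 1)
    (h2 : p.1.re * ζ.im - p.1.im * ζ.re = 0) (h3 : 0 ≤ p.1.re * ζ.re + p.1.im * ζ.im) :
    index nilMetric p cyl (seg p ζ) = 0 := by
  have h4 : index nilMetric p cyl (seg p ζ) ≤ (0 : ℕ) := by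
    refine index_le (n := 0) 0 fun w hw => ?_
    have h5 := ((good_seg p h h2).neg (cyl_cond p _) hw).1
    unfold qf at h5
    exfalso
    nlinarith [J_sq_le (X w), J_sq_le (Y w), sq_nonneg (J (X w) 1), sq_nonneg (J (Y w) 1),
      mul_nonneg h3 (add_nonneg (sq_nonneg (J (X w) 1)) (sq_nonneg (J (Y w) 1)))]
  simpa using h4

lemma contDiff_rot (a : ℝ) (ζ : ℂ) : ContDiff ℝ ∞ fun s : ℝ => ((rot (a * s) ζ, 0) : V) := by
  apply contDiff_of_coords
  · simp only [rot]
    fun_prop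
  · simp only [rot]
    fun_prop
  · exact contDiff_const

/-- the linear part of `seg` -/
def segL (p : V) : V →L[ℝ] L2 V :=
  (cst V).comp ((ContinuousLinearMap.fst ℝ ℂ ℝ).prod (p.1.re • cY - p.1.im • cX))

lemma seg_eq (p : V) (ζ : ℂ) : seg p ζ = segL p (ζ, 0) - cst V (p.1, 0) := by
  unfold seg segL
  rw [ContinuousLinearMap.comp_apply, ← map_sub]
  congr 1
  refine Prod.ext ?_ ?_ <;> simp [cX, cY]

lemma index_far (p : V) {ζ : ℂ} (h : ζ.re ^ 2 + ζ.im ^ 2 = 1)
    (h2 : p.1.re * ζ.im - p.1.im * ζ.re = 0) (h3 : p.1.re * ζ.re + p.1.im * ζ.im < 0) :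
    index nilMetric p cyl (seg p ζ) = 1 := by
  apply le_antisymm
  · have h4 : index nilMetric p cyl (seg p ζ) ≤ (1 : ℕ) := by
      refine index_le (n := 1) (LinearMap.pi fun _ =>
        (ζ.re • (J1.comp Y) - ζ.im • (J1.comp X) : L2 V →L[ℝ] ℝ)) fun w hw h0 => ?_
      obtain ⟨h5, h6⟩ := (good_seg p h h2).neg (cyl_cond p _) hw
      have h7 : ζ.re * J (Y w) 1 - ζ.im * J (X w) 1 = 0 := congrFun h0 0
      rw [X_seg, Y_seg, J_cst_one, J_cst_one] at h6
      have h8 : J (X w) 1 = 0 := by linear_combination ζ.re * h6 - ζ.im * h7 - J (X w) 1 * h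
      have h9 : J (Y w) 1 = 0 := by linear_combination ζ.im * h6 + ζ.re * h7 - J (Y w) 1 * h
      unfold qf at h5
      rw [h8, h9] at h5
      nlinarith [sq_nonneg ‖X w‖, sq_nonneg ‖Y w‖]
    simpa using h4
  · refine one_le_index (w := segL p (⟨-ζ.im, ζ.re⟩, 0)) ?_ fun a ha => ?_
    · intro h0
      have h4 := congrArg II h0
      unfold segL at h4
      rw [ContinuousLinearMap.comp_apply, II_cst, map_zero] at h4
      have h5 : -ζ.im = 0 := congrArg (fun v : V => v.1.re) h4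
      have h6 : ζ.re = 0 := congrArg (fun v : V => v.1.im) h4
      nlinarith
    · have hs : HasDerivAt (fun s : ℝ => a * s) a 0 := by
        simpa using (hasDerivAt_id (0 : ℝ)).const_mul a
      have hd : HasDerivAt (fun s : ℝ => ((rot (a * s) ζ, 0) : V)) (a • (⟨-ζ.im, ζ.re⟩, 0)) 0 := by
        have h4 : HasDerivAt (fun s => ((rot s ζ, 0) : V)) (⟨-ζ.im, ζ.re⟩, 0) (a * 0) := by
          rw [mul_zero]; exact hd_rot ζ
        exact h4.scomp 0 hs
      refine ⟨fun s => seg p (rot (a * s) ζ), ?_, fun s => seg_mem p (by rw [rot_sq, h]),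
        by simp [rot_zero], ?_, ?_⟩
      · simp only [seg_eq]
        exact ((segL p).contDiff.comp (contDiff_rot a ζ)).sub contDiff_const
      · simp only [seg_eq]
        rw [← map_smul]
        exact (((segL p).hasFDerivAt.comp_hasDerivAt 0 hd).sub_const _).deriv
      · set r := p.1.re * ζ.re + p.1.im * ζ.im with hr
        have e : (fun s => energy nilMetric p (seg p (rot (a * s) ζ))) =
            fun s => 1 + (p.1.re ^ 2 + p.1.im ^ 2) - 2 * r * Real.cos (a * s) := by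
          funext s
          rw [energy_seg]
          have e1 := rot_sq (a * s) ζ
          simp only [rot, hr] at e1 ⊢
          linear_combination e1 + h + 2 * Real.sin (a * s) * h2
        have hs' : ∀ s : ℝ, HasDerivAt (fun s : ℝ => a * s) a s := fun s => by
          simpa using (hasDerivAt_id s).const_mul a
        have e2 : deriv (fun s => 1 + (p.1.re ^ 2 + p.1.im ^ 2) - 2 * r * Real.cos (a * s)) =
            fun s => 2 * r * a * Real.sin (a * s) := by
          funext s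
          rw [(((hs' s).cos.const_mul (2 * r)).const_sub _).deriv]
          ring
        rw [e, e2, (((hs' 0).sin.const_mul (2 * r * a))).deriv]
        have : 0 < a ^ 2 := by positivity
        simp only [mul_zero, Real.cos_zero, one_mul]
        nlinarith

/-! ### Tangent spaces and focal points -/

lemma rot_norm (θ : ℝ) {ζ : ℂ} (h : ‖ζ‖ = 1) : ‖rot θ ζ‖ = 1 := by
  rw [norm_eq_one_iff] at h ⊢
  rw [rot_sq, h]

lemma tangent_orth {M : Set V} (hM : ∀ x ∈ M, ‖x.1‖ = 1) {x u : V} (hu : u ∈ tangent M x) :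
    x.1.re * u.1.re + x.1.im * u.1.im = 0 := by
  obtain ⟨c, hc, h0, hd⟩ := hu
  have h3 := ((hd_re hd).fun_pow 2).fun_add ((hd_im hd).fun_pow 2)
  have h4 := hd_congr (g := fun _ => (1 : ℝ)) h3
    (fun s => ((norm_eq_one_iff _).1 (hM _ (hc s))).symm) rfl
  have h5 := h4.unique (hasDerivAt_const 0 1)
  rw [h0] at h5
  simp only [Nat.cast_ofNat, Nat.add_one_sub_one, pow_one] at h5
  linarith

lemma rot_tangent {M : Set V} {x : V} (hM : ∀ θ, ((rot θ x.1, x.2) : V) ∈ M) :
    ((⟨-x.1.im, x.1.re⟩, 0) : V) ∈ tangent M x := by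
  refine ⟨fun θ => (rot θ x.1, x.2), hM, by simp [rot_zero], ?_⟩
  refine hd_congr ((hd_rot x.1).add_const ((0, x.2) : V)) (fun s => ?_) rfl
  simp

lemma normal_cyl {z : V × V} (hz : z ∈ normalBundle nilMetric cyl) :
    vert z.1 z.2 = 0 ∧ z.1.1.re * z.2.1.im - z.1.1.im * z.2.1.re = 0 := by
  obtain ⟨h1, h2⟩ := hz
  have h3 := h2 (0, 1) ⟨fun s => z.1 + s • (0, 1), fun s => by
    show ‖(z.1 + s • ((0, 1) : V)).1‖ = 1
    have h1' : ‖z.1.1‖ = 1 := h1
    simpa using h1', by simp, hd_line _ _⟩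
  have h4 := h2 _ (rot_tangent (M := cyl) fun θ => rot_norm θ h1)
  rw [nil_eq] at h3 h4
  have h5 : vert z.1 z.2 = 0 := by simpa [vert] using h3
  rw [h5] at h4
  exact ⟨h5, by linarith⟩

lemma focal_axis {p : V} (hp : p.1 = 0) : IsFocalPoint nilMetric cyl p := by
  have hv : vert ((1, p.2) : V) ((-1, 0) : V) = 0 := by simp [vert]
  refine ⟨((1, p.2), (-1, 0)), ⟨⟨by simp [cyl], fun u hu => ?_⟩, (Complex.I, 0), ?_⟩, ?_⟩
  · have h1 := tangent_orth (M := cyl) (fun _ h => h) hu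
    rw [nil_eq, hv]
    simpa using h1
  · intro c hc h0 hd hy
    have he : ∀ s, expo nilMetric (c s) = (c s).1 + (c s).2 := fun s =>
      expo_line (normal_cyl (hc s)).1
    have h1 : HasDerivAt (fun s => (c s).1) (deriv c 0).1 0 :=
      (ContinuousLinearMap.fst ℝ V V).hasFDerivAt.comp_hasDerivAt 0 hd.hasDerivAt
    have h2 := ((hd_re h1).fun_mul (hd_im hy)).fun_sub ((hd_im h1).fun_mul (hd_re hy))
    have h3 := hd_congr (g := fun _ => (0 : ℝ)) h2 (fun s => by
      have h4 := (normal_cyl (hc s)).2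
      rw [he]
      simp only [Prod.fst_add, Complex.add_re, Complex.add_im]
      linarith) rfl
    have h4 := h3.unique (hasDerivAt_const 0 0)
    rw [he, h0] at h4
    simp at h4
  · rw [expo_line hv]
    refine Prod.ext ?_ ?_ <;> simp [hp]

lemma taut_cyl : IsTaut nilMetric cyl := by
  intro p hp k
  have hp1 : p.1 ≠ 0 := fun h => hp (focal_axis h)
  have hr : 0 < ‖p.1‖ := norm_pos_iff.2 hp1
  set r := ‖p.1‖ with hrdef
  have hr2 : p.1.re ^ 2 + p.1.im ^ 2 = r ^ 2 := by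
    rw [hrdef, Complex.sq_norm, Complex.normSq_apply]; ring
  set ζ : ℂ := ⟨p.1.re / r, p.1.im / r⟩ with hζ
  have a1 : ζ.re ^ 2 + ζ.im ^ 2 = 1 := by
    simp only [hζ]
    field_simp
    exact hr2
  have a2 : p.1.re * ζ.im - p.1.im * ζ.re = 0 := by
    simp only [hζ]
    ring
  have a3 : p.1.re * ζ.re + p.1.im * ζ.im = r := by
    simp only [hζ]
    field_simp
    exact hr2
  have b1 : (-ζ).re ^ 2 + (-ζ).im ^ 2 = 1 := by simpa using a1
  have b2 : p.1.re * (-ζ).im - p.1.im * (-ζ).re = 0 := by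
    simp only [Complex.neg_re, Complex.neg_im]; linarith
  have b3 : p.1.re * (-ζ).re + p.1.im * (-ζ).im < 0 := by
    simp only [Complex.neg_re, Complex.neg_im]; linarith
  have i0 := index_near p a1 a2 (by rw [a3]; exact hr.le)
  have i1 := index_far p b1 b2 b3
  have hcrit : ∀ f, f ∈ crit nilMetric p cyl ↔ f = seg p ζ ∨ f = seg p (-ζ) := by
    intro f
    constructor
    · intro hf
      obtain ⟨η, c1, c2, rfl⟩ := crit_form hf
      have c3 : ζ.re * η.im - ζ.im * η.re = 0 := by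
        simp only [hζ]
        field_simp
        linarith
      have c4 : (ζ.re * η.re + ζ.im * η.im - 1) * (ζ.re * η.re + ζ.im * η.im + 1) = 0 := by
        linear_combination (η.re ^ 2 + η.im ^ 2) * a1 + c1 - (ζ.re * η.im - ζ.im * η.re) * c3
      rcases mul_eq_zero.1 c4 with c5 | c5
      · left
        congr 1
        apply Complex.ext
        · linear_combination ζ.re * c5 - ζ.im * c3 - η.re * a1
        · linear_combination ζ.im * c5 + ζ.re * c3 - η.im * a1
      · right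
        congr 1
        apply Complex.ext
        · rw [Complex.neg_re]
          linear_combination ζ.re * c5 - ζ.im * c3 - η.re * a1
        · rw [Complex.neg_im]
          linear_combination ζ.im * c5 + ζ.re * c3 - η.im * a1
    · rintro (rfl | rfl)
      · exact seg_crit p a1 a2
      · exact seg_crit p b1 b2
  rw [betti_cyl]
  rcases k with _ | _ | k
  · have : {f ∈ crit nilMetric p cyl | index nilMetric p cyl f = (0 : ℕ)} = {seg p ζ} := by
      ext f
      simp only [mem_ofPred_eq, hcrit, mem_singleton_iff]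
      constructor
      · rintro ⟨rfl | rfl, h⟩
        · rfl
        · rw [i1] at h; simp at h
      · rintro rfl
        exact ⟨Or.inl rfl, by simpa using i0⟩
    rw [this]
    simp
  · have : {f ∈ crit nilMetric p cyl | index nilMetric p cyl f = (0 + 1 : ℕ)} = {seg p (-ζ)} := by
      ext f
      simp only [mem_ofPred_eq, hcrit, mem_singleton_iff]
      constructor
      · rintro ⟨rfl | rfl, h⟩
        · rw [i0] at h; simp at h
        · rfl
      · rintro rfl
        exact ⟨Or.inr rfl, by simpa using i1⟩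
    rw [this]
    simp
  · have : {f ∈ crit nilMetric p cyl | index nilMetric p cyl f = (k + 1 + 1 : ℕ)} = ∅ := by
      ext f
      simp only [mem_ofPred_eq, hcrit, mem_empty_iff_false, iff_false]
      rintro ⟨rfl | rfl, h⟩
      · rw [i0] at h
        have h' : (0 : ℕ) = k + 1 + 1 := by exact_mod_cast h
        omega
      · rw [i1] at h
        have h' : (1 : ℕ) = k + 1 + 1 := by exact_mod_cast h
        omega
    rw [this, if_neg (by omega)]
    simp

/-! ### The critical set at the origin -/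

lemma crit_zero : crit nilMetric 0 cyl = (fun ζ : ℂ => seg 0 ζ) '' Metric.sphere 0 1 := by
  ext f
  constructor
  · intro hf
    obtain ⟨η, c1, -, rfl⟩ := crit_form hf
    exact ⟨η, by simpa using (norm_eq_one_iff η).2 c1, rfl⟩
  · rintro ⟨η, h, rfl⟩
    exact seg_crit 0 ((norm_eq_one_iff η).1 (by simpa using h)) (by simp)

lemma path_seg_zero (ζ : ℂ) : path 0 (seg 0 ζ) 1 = (ζ, 0) := by
  rw [path_one, seg, II_cst]
  simp

lemma component_zero {f : L2 V} (hf : f ∈ crit nilMetric 0 cyl) :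
    (fun h => path 0 h 1) '' connectedComponentIn (crit nilMetric 0 cyl) f = circ := by
  have h1 : IsPreconnected (crit nilMetric 0 cyl) := by
    rw [crit_zero]
    refine (isPreconnected_sphere (by simp) _ _).image _ (Continuous.continuousOn ?_)
    simp only [seg_eq]
    exact ((segL 0).continuous.comp (continuous_id.prodMk continuous_const)).sub continuous_const
  rw [h1.connectedComponentIn hf, crit_zero, image_image]
  ext x
  simp only [path_seg_zero]
  constructor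
  · rintro ⟨ζ, h, rfl⟩
    exact ⟨by simpa using h, rfl⟩
  · rintro ⟨h1, h2⟩
    exact ⟨x.1, by simpa using h1, Prod.ext rfl h2.symm⟩

end H469Z.Taut
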