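import Mathlib

open MeasureTheory Set
open scoped ContDiff

noncomputable section

namespace H469Z.Taut

section geometry

variable {E : Type} [NormedAddCommGroup E] [NormedSpace ℝ E]

/-- `g` is a smooth Riemannian metric on the finite-dimensional real vector space `E`:
`g x a b` is the inner product of the tangent vectors `a`, `b` at the point `x`. -/
structure IsMetric (g : E → E → E → ℝ) : Prop where
  add_left : ∀ x a b c, g x (a + b) c = g x a c + g x b c
  smul_left : ∀ x (r : ℝ) a b, g x (r • a) b = r * g x a b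
  symm : ∀ x a b, g x a b = g x b a
  pos : ∀ x a, a ≠ 0 → 0 < g x a a
  smooth : ∀ a b, ContDiff ℝ ∞ fun x => g x a b

/-- Geodesics: smooth curves which solve the geodesic equation in Euler-Lagrange form,
`d/dt g(c', Z) = (1/2) (D_Z g)(c', c')` for every constant vector `Z`. -/
def IsGeodesic (g : E → E → E → ℝ) (c : ℝ → E) : Prop :=
  ContDiff ℝ ∞ c ∧ ∀ t Z, HasDerivAt (fun s => g (c s) (deriv c s) Z)
    (fderiv ℝ (fun x => g x (deriv c t) (deriv c t)) (c t) Z / 2) t

/-- Completeness: every tangent vector is the initial velocity of a geodesic defined on `ℝ`. -/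
def IsCompleteMetric (g : E → E → E → ℝ) : Prop :=
  ∀ x v, ∃ c, IsGeodesic g c ∧ c 0 = x ∧ deriv c 0 = v

/-- The exponential map: the point reached at time `1` by the geodesic with initial point `z.1`
and initial velocity `z.2`. -/
def expo (g : E → E → E → ℝ) (z : E × E) : E :=
  Classical.epsilon fun q => ∃ c, IsGeodesic g c ∧ c 0 = z.1 ∧ deriv c 0 = z.2 ∧ c 1 = q

/-- `M` is a properly embedded smooth submanifold of dimension `d`: it is closed, and near each of
its points it is the zero set of a smooth submersion to `ℝ^m`, `m + d = dim E`. -/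
def IsProperSubmanifold (M : Set E) (d : ℕ) : Prop :=
  IsClosed M ∧ ∀ x ∈ M, ∃ (m : ℕ) (U : Set E) (f : E → Fin m → ℝ), m + d = Module.finrank ℝ E ∧
    IsOpen U ∧ x ∈ U ∧ ContDiffOn ℝ ∞ f U ∧ (∀ y ∈ U, y ∈ M ↔ f y = 0) ∧
    ∀ y ∈ U, Function.Surjective (fderiv ℝ f y)

/-- The tangent space of `M` at `x`: velocities of curves in `M` through `x`. -/
def tangent (M : Set E) (x : E) : Set E :=
  {v | ∃ c : ℝ → E, (∀ s, c s ∈ M) ∧ c 0 = x ∧ HasDerivAt c v 0}

/-- The normal bundle of `M`, as a set of pairs (foot point, normal vector). -/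
def normalBundle (g : E → E → E → ℝ) (M : Set E) : Set (E × E) :=
  {z | z.1 ∈ M ∧ ∀ u ∈ tangent M z.1, g z.1 z.2 u = 0}

/-- Focal normals: the singular points of the end point map `exp : ν(M) → E`, that is the normal
vectors `z` at which its differential is not onto: some vector `y` is not the velocity of
`exp ∘ c` for any differentiable curve `c` in `ν(M)` through `z`. -/
def IsFocalNormal (g : E → E → E → ℝ) (M : Set E) (z : E × E) : Prop :=
  z ∈ normalBundle g M ∧ ∃ y : E, ∀ c : ℝ → E × E, (∀ s, c s ∈ normalBundle g M) → c 0 = z →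
    DifferentiableAt ℝ c 0 → ¬ HasDerivAt (fun s => expo g (c s)) y 0

/-- Focal points of `M`. -/
def IsFocalPoint (g : E → E → E → ℝ) (M : Set E) (p : E) : Prop :=
  ∃ z, IsFocalNormal g M z ∧ expo g z = p

end geometry

/-- The largest dimension of a subspace all of whose nonzero vectors have the property `P`. -/
def supDim {H : Type} [AddCommGroup H] [Module ℝ H] (P : H → Prop) : ℕ∞ :=
  ⨆ W : {W : Submodule ℝ H // ∀ w ∈ W, w ≠ 0 → P w}, Cardinal.toENat (Module.rank ℝ W.1)

/-- The dimension of `Z` modulo `B`, that is of the image of `Z` in the quotient by `B`. -/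
def quotDim {K H : Type} [Ring K] [AddCommGroup H] [Module K H] (Z B : Submodule K H) : ℕ∞ :=
  Cardinal.toENat (Module.rank K (Z.map B.mkQ))

/-- Square integrable `E`-valued functions on `[0,1]`. -/
abbrev L2 (E : Type) [NormedAddCommGroup E] : Type := Lp E 2 (volume : Measure unitInterval)

section paths

variable {E : Type} [NormedAddCommGroup E] [NormedSpace ℝ E]

/-- The `H¹` path `γ : [0,1] → E` with `γ 0 = p` and derivative `f`. -/
def path (p : E) (f : L2 E) (t : unitInterval) : E := p + ∫ τ in Iic t, f τ

/-- The space `P(N, p × M)` of `H¹` paths from `p` to `M`, each path being represented by its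
derivative; the `H¹` topology is the `L²` topology of the derivatives. -/
def pathSpace (p : E) (M : Set E) : Set (L2 E) := {f | path p f 1 ∈ M}

/-- The energy `E_p`. -/
def energy (g : E → E → E → ℝ) (p : E) (f : L2 E) : ℝ := ∫ t, g (path p f t) (f t) (f t)

/-- The critical points of `E_p` on `P(N, p × M)`: the energy has derivative zero along every
curve in the path space through `f` which is differentiable there. -/
def crit (g : E → E → E → ℝ) (p : E) (M : Set E) : Set (L2 E) :=
  {f | f ∈ pathSpace p M ∧ ∀ c : ℝ → L2 E, (∀ s, c s ∈ pathSpace p M) → c 0 = f →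
    DifferentiableAt ℝ c 0 → HasDerivAt (fun s => energy g p (c s)) 0 0}

/-- The Hessian of `E_p` at the critical point `f` is negative on the tangent vector `w`. -/
def IsNegative (g : E → E → E → ℝ) (p : E) (M : Set E) (f w : L2 E) : Prop :=
  ∃ c : ℝ → L2 E, ContDiff ℝ ∞ c ∧ (∀ s, c s ∈ pathSpace p M) ∧ c 0 = f ∧ deriv c 0 = w ∧
    deriv (deriv fun s => energy g p (c s)) 0 < 0

/-- The Morse index: the largest dimension of a subspace on which the Hessian is negative
definite. -/
def index (g : E → E → E → ℝ) (p : E) (M : Set E) (f : L2 E) : ℕ∞ :=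
  supDim (IsNegative g p M f)

end paths

section homology

/-- Singular `n`-simplices of `X`. -/
abbrev Simplex (X : Type) [TopologicalSpace X] (n : ℕ) : Type := C(stdSimplex ℝ (Fin (n + 1)), X)

/-- The `i`-th face of a singular simplex. -/
def face {X : Type} [TopologicalSpace X] (n : ℕ) (i : Fin (n + 2)) (σ : Simplex X (n + 1)) :
    Simplex X n :=
  σ.comp ⟨stdSimplex.map i.succAbove, stdSimplex.continuous_map _⟩

/-- The boundary of singular chains with coefficients in `ℤ/2`: the sum of the faces. -/
def boundary (X : Type) [TopologicalSpace X] (n : ℕ) :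
    (Simplex X (n + 1) →₀ ZMod 2) →ₗ[ZMod 2] (Simplex X n →₀ ZMod 2) :=
  ∑ i : Fin (n + 2), Finsupp.lmapDomain (ZMod 2) (ZMod 2) (face n i)

/-- Singular cycles: all chains in degree `0`, the kernel of the boundary in positive degree. -/
def cycles (X : Type) [TopologicalSpace X] :
    ∀ n : ℕ, Submodule (ZMod 2) (Simplex X n →₀ ZMod 2)
  | 0 => ⊤
  | (n + 1) => LinearMap.ker (boundary X n)

/-- The `n`-th `ℤ/2`-Betti number of `X`: the dimension of cycles modulo boundaries. -/
def betti (X : Type) [TopologicalSpace X] (n : ℕ) : ℕ∞ :=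
  quotDim (cycles X n) (LinearMap.range (boundary X n))

end homology

/-- `M` is taut: for every `p` which is not a focal point of `M` and every `k`, the number of
critical points of index `k` of `E_p` is the `k`-th `ℤ/2`-Betti number of `P(N, p × M)`. -/
def IsTaut {E : Type} [NormedAddCommGroup E] [NormedSpace ℝ E] (g : E → E → E → ℝ) (M : Set E) :
    Prop :=
  ∀ p, ¬ IsFocalPoint g M p → ∀ k : ℕ,
    {f ∈ crit g p M | index g p M f = k}.encard = betti (pathSpace p M) k

/-- The left invariant metric `dx² + dy² + (dz - x dy + y dx)²` of the Heisenberg group, on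
`ℂ × ℝ` with the coordinates `(x + i y, z)`. -/
def nilMetric (q a b : ℂ × ℝ) : ℝ :=
  a.1.re * b.1.re + a.1.im * b.1.im +
    (a.2 - q.1.re * a.1.im + q.1.im * a.1.re) * (b.2 - q.1.re * b.1.im + q.1.im * b.1.re)

/-- The cylinder `x² + y² = 1`. -/
def cyl : Set (ℂ × ℝ) := {q | ‖q.1‖ = 1}

/-- The circle `x² + y² = 1`, `z = 0`. -/
def circ : Set (ℂ × ℝ) := {q | ‖q.1‖ = 1 ∧ q.2 = 0}

end H469Z.Taut
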