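import Pool.Agent.H469Z.TautDefs

open MeasureTheory Set Filter Topology
open scoped ENNReal RealInnerProductSpace ContDiff

noncomputable section

namespace H469Z.Taut

section abstract

variable {H : Type} [NormedAddCommGroup H] [NormedSpace ℝ H]

lemma lower_slope {e q : H → ℝ} {P : Set H} {f : H}
    (hq2 : ∀ (s : ℝ) w, q (s • w) = s ^ 2 * q w) (hlow : ∀ g ∈ P, q (g - f) ≤ e g - e f)
    {c : ℝ → H} (hc : ∀ s, c s ∈ P) (h0 : c 0 = f) {s : ℝ} (hs : s ≠ 0) :
    s ^ 2 * q (slope c 0 s) ≤ e (c s) - e f := by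
  have h1 : s • slope c 0 s = c s - f := by
    rw [slope_def_module, sub_zero, smul_smul, mul_inv_cancel₀ hs, one_smul, h0]
  rw [← hq2, h1]
  exact hlow _ (hc s)

lemma hasDerivAt_zero_of_lower {e q : H → ℝ} {P : Set H} {f : H} (he : Differentiable ℝ e)
    (hq : Continuous q) (hq2 : ∀ (s : ℝ) w, q (s • w) = s ^ 2 * q w)
    (hlow : ∀ g ∈ P, q (g - f) ≤ e g - e f) {c : ℝ → H} (hc : ∀ s, c s ∈ P) (h0 : c 0 = f)
    (hd : DifferentiableAt ℝ c 0) : HasDerivAt (fun s => e (c s)) 0 0 := by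
  have h1 : HasDerivAt (fun s => e (c s)) (fderiv ℝ e (c 0) (deriv c 0)) 0 :=
    (he (c 0)).hasFDerivAt.comp_hasDerivAt 0 hd.hasDerivAt
  have h2 : Tendsto (fun s => q (slope c 0 s)) (𝓝[≠] 0) (𝓝 (q (deriv c 0))) :=
    (hq.tendsto _).comp (hasDerivAt_iff_tendsto_slope.1 hd.hasDerivAt)
  set K : ℝ := 1 - q (deriv c 0) with hK
  have h3 : ∀ᶠ s in 𝓝[≠] (0 : ℝ), -K < q (slope c 0 s) :=
    h2.eventually (lt_mem_nhds (by rw [hK]; linarith))
  have h4 : IsLocalMin (fun s => e (c s) + K * s ^ 2) 0 := by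
    rw [eventually_nhdsWithin_iff] at h3
    filter_upwards [h3] with s hs
    by_cases h : s = 0
    · rw [h]
    · have h5 := lower_slope hq2 hlow hc h0 h
      have h6 := hs h
      have h7 : 0 < s ^ 2 := by positivity
      rw [h0]
      nlinarith
  have h5 : HasDerivAt (fun s => e (c s) + K * s ^ 2) (fderiv ℝ e (c 0) (deriv c 0)) 0 := by
    have h6 := ((hasDerivAt_pow 2 (0 : ℝ)).const_mul K)
    have h7 := h1.fun_add h6
    simpa using h7
  have h6 := h4.hasDerivAt_eq_zero h5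
  rwa [h6] at h1

lemma neg_of_second {e q : H → ℝ} {P : Set H} {f : H} (he : ContDiff ℝ ∞ e)
    (hq : Continuous q) (hq2 : ∀ (s : ℝ) w, q (s • w) = s ^ 2 * q w)
    (hlow : ∀ g ∈ P, q (g - f) ≤ e g - e f) {c : ℝ → H} (hc : ∀ s, c s ∈ P) (h0 : c 0 = f)
    (hd : ContDiff ℝ ∞ c) (hneg : deriv (deriv fun s => e (c s)) 0 < 0) :
    q (deriv c 0) < 0 := by
  have hd0 : DifferentiableAt ℝ c 0 := (hd.differentiable (by simp)) 0
  set ψ : ℝ → ℝ := fun s => e (c s) with hψ
  have hψc : ContDiff ℝ ∞ ψ := he.comp hd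
  have hψ1 : Differentiable ℝ ψ := hψc.differentiable (by simp)
  have hψ2 : Differentiable ℝ (deriv ψ) :=
    (contDiff_infty_iff_deriv.1 hψc).2.differentiable (by simp)
  have h1 : deriv ψ 0 = 0 :=
    (hasDerivAt_zero_of_lower (he.differentiable (by simp)) hq hq2 hlow hc h0 hd0).deriv
  set ε : ℝ := -deriv (deriv ψ) 0 / 4 with hε
  have hε0 : 0 < ε := by rw [hε]; linarith
  have h2 : deriv (fun s => ψ s + ε * s ^ 2) = fun s => deriv ψ s + ε * (2 * s) := by
    funext s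
    have h3 := (hψ1 s).hasDerivAt.fun_add ((hasDerivAt_pow 2 s).const_mul ε)
    have h4 := h3.deriv
    simpa using h4
  have h3 : deriv (deriv (fun s => ψ s + ε * s ^ 2)) 0 = deriv (deriv ψ) 0 + ε * 2 := by
    rw [h2]
    have h4 := (hψ2 0).hasDerivAt.fun_add (((hasDerivAt_id (0 : ℝ)).const_mul 2).const_mul ε)
    have h5 := h4.deriv
    simpa using h5
  have h4 : IsLocalMax (fun s => ψ s + ε * s ^ 2) 0 := by
    apply isLocalMax_of_deriv_deriv_neg
    · rw [h3, hε]; linarith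
    · rw [h2]; simp [h1]
    · exact (hψ1.continuous.add (by fun_prop)).continuousAt
  have h5 : Tendsto (fun s => q (slope c 0 s)) (𝓝[≠] 0) (𝓝 (q (deriv c 0))) :=
    (hq.tendsto _).comp (hasDerivAt_iff_tendsto_slope.1 hd0.hasDerivAt)
  have h6 : ∀ᶠ s in 𝓝[≠] (0 : ℝ), q (slope c 0 s) ≤ -ε := by
    filter_upwards [nhdsWithin_le_nhds h4, self_mem_nhdsWithin] with s hs hs0
    have h7 := lower_slope hq2 hlow hc h0 hs0
    have h8 : 0 < s ^ 2 := by have : s ≠ 0 := hs0; positivity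
    have h9 : ψ s + ε * s ^ 2 ≤ ψ 0 + ε * 0 ^ 2 := hs
    have h10 : ψ 0 = e f := by rw [hψ]; simp only [h0]
    have h11 : ψ s = e (c s) := rfl
    by_contra hcon
    push Not at hcon
    nlinarith
  have h7 := le_of_tendsto h5 h6
  linarith

end abstract

section idx

variable {E : Type} [NormedAddCommGroup E] [NormedSpace ℝ E]

lemma index_le {g : E → E → E → ℝ} {p : E} {M : Set E} {f : L2 E} {n : ℕ}
    (L : L2 E →ₗ[ℝ] (Fin n → ℝ)) (hL : ∀ w, IsNegative g p M f w → L w ≠ 0) :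
    index g p M f ≤ n := by
  unfold index supDim
  refine iSup_le ?_
  rintro ⟨W, hW⟩
  have h1 : Function.Injective (L.comp W.subtype) := by
    rw [← LinearMap.ker_eq_bot, Submodule.eq_bot_iff]
    intro w hw
    by_contra hne
    exact hL w.1 (hW w.1 w.2 fun h => hne (Subtype.ext h)) hw
  have h2 := LinearMap.rank_le_of_injective _ h1
  rw [rank_fin_fun] at h2
  have h3 := OrderHomClass.mono Cardinal.toENat h2
  simpa using h3

lemma one_le_index {g : E → E → E → ℝ} {p : E} {M : Set E} {f w : L2 E} (hw : w ≠ 0)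
    (h : ∀ a : ℝ, a ≠ 0 → IsNegative g p M f (a • w)) : 1 ≤ index g p M f := by
  unfold index supDim
  refine le_iSup_of_le ⟨Submodule.span ℝ {w}, ?_⟩ ?_
  · intro v hv hv0
    obtain ⟨a, rfl⟩ := Submodule.mem_span_singleton.1 hv
    exact h a fun ha => hv0 (by rw [ha, zero_smul])
  · have h3 := finrank_span_singleton (K := ℝ) hw
    dsimp only
    rw [← Module.finrank_eq_rank, h3]
    simp

end idx

end H469Z.Taut
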