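import Pool.Agent.H469Z.TautL2
import Pool.Agent.H469Z.TautMorse

open MeasureTheory Set Filter Topology
open scoped ENNReal RealInnerProductSpace ContDiff

noncomputable section

namespace H469Z.Taut

/-- the underlying space -/
abbrev V : Type := ℂ × ℝ

/-- first coordinate -/
def cX : V →L[ℝ] ℝ := Complex.reCLM.comp (ContinuousLinearMap.fst ℝ ℂ ℝ)
/-- second coordinate -/
def cY : V →L[ℝ] ℝ := Complex.imCLM.comp (ContinuousLinearMap.fst ℝ ℂ ℝ)
/-- third coordinate -/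
def cZ : V →L[ℝ] ℝ := ContinuousLinearMap.snd ℝ ℂ ℝ

/-- first component -/
def X : L2 V →L[ℝ] L2 ℝ := cX.compLpL 2 volume
/-- second component -/
def Y : L2 V →L[ℝ] L2 ℝ := cY.compLpL 2 volume
/-- third component -/
def Z : L2 V →L[ℝ] L2 ℝ := cZ.compLpL 2 volume

lemma X_ae (f : L2 V) : ∀ᵐ t, X f t = (f t).1.re := cX.coeFn_compLpL f
lemma Y_ae (f : L2 V) : ∀ᵐ t, Y f t = (f t).1.im := cY.coeFn_compLpL f
lemma Z_ae (f : L2 V) : ∀ᵐ t, Z f t = (f t).2 := cZ.coeFn_compLpL f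

lemma path_lin (L : V →L[ℝ] ℝ) (p : V) (f : L2 V) (t : unitInterval) :
    L (path p f t) = L p + J (L.compLpL 2 volume f) t := by
  unfold path
  rw [map_add, J_apply, ← L.integral_comp_comm f.integrable.integrableOn]
  congr 1
  exact (integral_congr_ae (ae_restrict_of_ae (L.coeFn_compLpL f))).symm

lemma path_re (p : V) (f : L2 V) (t : unitInterval) :
    (path p f t).1.re = p.1.re + J (X f) t := path_lin cX p f t
lemma path_im (p : V) (f : L2 V) (t : unitInterval) :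
    (path p f t).1.im = p.1.im + J (Y f) t := path_lin cY p f t
lemma path_snd (p : V) (f : L2 V) (t : unitInterval) :
    (path p f t).2 = p.2 + J (Z f) t := path_lin cZ p f t

lemma ext_XYZ {f g : L2 V} (h1 : X f = X g) (h2 : Y f = Y g) (h3 : Z f = Z g) : f = g := by
  apply Lp.ext
  filter_upwards [X_ae f, Y_ae f, Z_ae f, X_ae g, Y_ae g, Z_ae g] with t a1 a2 a3 b1 b2 b3
  rw [h1] at a1
  rw [h2] at a2
  rw [h3] at a3
  exact Prod.ext (Complex.ext (a1.symm.trans b1) (a2.symm.trans b2)) (a3.symm.trans b3)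

lemma lin_cst (L : V →L[ℝ] ℝ) (a : V) : L.compLpL 2 volume (cst V a) = cst ℝ (L a) := by
  apply Lp.ext
  filter_upwards [L.coeFn_compLpL (cst V a), cst_ae a, cst_ae (L a)] with t h1 h2 h3
  rw [h1, h2, h3]

lemma X_cst (a : V) : X (cst V a) = cst ℝ a.1.re := lin_cst cX a
lemma Y_cst (a : V) : Y (cst V a) = cst ℝ a.1.im := lin_cst cY a
lemma Z_cst (a : V) : Z (cst V a) = cst ℝ a.2 := lin_cst cZ a

/-- the vertical component of the velocity -/
def U (p : V) (f : L2 V) : L2 ℝ :=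
  Z f - p.1.re • Y f - T (X f) (Y f) + p.1.im • X f + T (Y f) (X f)

lemma U_ae (p : V) (f : L2 V) : ∀ᵐ t, U p f t =
    (f t).2 - (path p f t).1.re * (f t).1.im + (path p f t).1.im * (f t).1.re := by
  unfold U
  filter_upwards [Lp.coeFn_add (Z f - p.1.re • Y f - T (X f) (Y f) + p.1.im • X f) (T (Y f) (X f)),
    Lp.coeFn_add (Z f - p.1.re • Y f - T (X f) (Y f)) (p.1.im • X f),
    Lp.coeFn_sub (Z f - p.1.re • Y f) (T (X f) (Y f)), Lp.coeFn_sub (Z f) (p.1.re • Y f),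
    Lp.coeFn_smul p.1.re (Y f), Lp.coeFn_smul p.1.im (X f), T_ae (X f) (Y f), T_ae (Y f) (X f),
    X_ae f, Y_ae f, Z_ae f] with t h1 h2 h3 h4 h5 h6 h7 h8 h9 h10 h11
  rw [h1, Pi.add_apply, h2, Pi.add_apply, h3, Pi.sub_apply, h4, Pi.sub_apply, h5, h6,
    Pi.smul_apply, Pi.smul_apply, h7, h8, h9, h10, h11, path_re, path_im, smul_eq_mul, smul_eq_mul]
  ring

lemma norm_sq_eq (a : L2 ℝ) : ‖a‖ ^ 2 = ∫ t, a t * a t := by
  rw [← real_inner_self_eq_norm_sq, L2.inner_def]
  simp [sq]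

lemma integrable_mul_self (a : L2 ℝ) : Integrable (fun t => a t * a t) volume := by
  have := L2.integrable_inner (𝕜 := ℝ) a a
  simpa [sq] using this

lemma energy_eq (p : V) (f : L2 V) :
    energy nilMetric p f = ‖X f‖ ^ 2 + ‖Y f‖ ^ 2 + ‖U p f‖ ^ 2 := by
  have h0 : Integrable (fun t => X f t * X f t + Y f t * Y f t) volume :=
    (integrable_mul_self _).add (integrable_mul_self _)
  rw [norm_sq_eq, norm_sq_eq, norm_sq_eq,
    ← integral_add (integrable_mul_self _) (integrable_mul_self _),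
    ← integral_add h0 (integrable_mul_self _)]
  unfold energy nilMetric
  apply integral_congr_ae
  filter_upwards [X_ae f, Y_ae f, U_ae p f] with t h1 h2 h3
  rw [h1, h2, h3]

lemma contDiff_U (p : V) : ContDiff ℝ ∞ (U p) := by
  unfold U
  have hT : ∀ A B : L2 V →L[ℝ] L2 ℝ, ContDiff ℝ ∞ fun f => T (A f) (B f) := fun A B =>
    (T.contDiff.comp A.contDiff).clm_apply B.contDiff
  exact (((Z.contDiff.sub (Y.contDiff.const_smul _)).sub (hT X Y)).add
    (X.contDiff.const_smul _)).add (hT Y X)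

lemma contDiff_energy (p : V) : ContDiff ℝ ∞ (energy nilMetric p) := by
  have : energy nilMetric p = fun f => ‖X f‖ ^ 2 + ‖Y f‖ ^ 2 + ‖U p f‖ ^ 2 :=
    funext (energy_eq p)
  rw [this]
  exact ((X.contDiff.norm_sq ℝ).add (Y.contDiff.norm_sq ℝ)).add ((contDiff_U p).norm_sq ℝ)

/-- the quadratic lower bound -/
def qf (m lam : ℝ) (w : L2 V) : ℝ :=
  ‖X w‖ ^ 2 + ‖Y w‖ ^ 2 - 2 * m * (S (X w) (Y w) - S (Y w) (X w)) -
    lam * (J (X w) 1 ^ 2 + J (Y w) 1 ^ 2)

lemma continuous_J1 : Continuous fun a : L2 ℝ => J a 1 :=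
  (continuous_eval_const (1 : unitInterval)).comp J.continuous

lemma continuous_qf (m lam : ℝ) : Continuous (qf m lam) := by
  unfold qf S
  have hT : ∀ A B : L2 V →L[ℝ] L2 ℝ, Continuous fun f => J (T (A f) (B f)) 1 := fun A B =>
    continuous_J1.comp ((T.continuous.comp A.continuous).clm_apply B.continuous)
  have h1 : ∀ A : L2 V →L[ℝ] L2 ℝ, Continuous fun f => J (A f) 1 := fun A =>
    continuous_J1.comp A.continuous
  exact (((X.continuous.norm.pow 2).add (Y.continuous.norm.pow 2)).sub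
    (continuous_const.mul ((hT X Y).sub (hT Y X)))).sub
    (continuous_const.mul (((h1 X).pow 2).add ((h1 Y).pow 2)))

lemma qf_smul (m lam s : ℝ) (w : L2 V) : qf m lam (s • w) = s ^ 2 * qf m lam w := by
  unfold qf S
  simp only [map_smul, smul_apply, ContinuousMap.smul_apply, smul_eq_mul,
    norm_smul, mul_pow, Real.norm_eq_abs, sq_abs]
  ring

/-- `f` is a geodesic from `p` with vertical velocity `m` whose end point lies on the cylinder
and whose final velocity is normal to the horizontal circle. -/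
structure Good (p : V) (f : L2 V) (m lam : ℝ) : Prop where
  hU : U p f = cst ℝ m
  hX : ∀ α, ⟪X f, α⟫ = (lam * (p.1.re + J (X f) 1) + m * (p.1.im + J (Y f) 1)) * J α 1 -
    2 * m * (p.1.im * J α 1 + S (Y f) α)
  hY : ∀ β, ⟪Y f, β⟫ = (lam * (p.1.im + J (Y f) 1) - m * (p.1.re + J (X f) 1)) * J β 1 +
    2 * m * (p.1.re * J β 1 + S (X f) β)
  h1 : (p.1.re + J (X f) 1) ^ 2 + (p.1.im + J (Y f) 1) ^ 2 = 1

lemma Good.lower {p : V} {f : L2 V} {m lam : ℝ} (h : Good p f m lam) (g : L2 V)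
    (hg : (p.1.re + J (X g) 1) ^ 2 + (p.1.im + J (Y g) 1) ^ 2 = 1)
    (hz : m * (J (Z g) 1 - J (Z f) 1) = 0) :
    qf m lam (g - f) ≤ energy nilMetric p g - energy nilMetric p f := by
  obtain ⟨w, rfl⟩ : ∃ w, g = f + w := ⟨g - f, by abel⟩
  rw [add_sub_cancel_left, energy_eq, energy_eq]
  set δ : L2 ℝ := Z w - p.1.re • Y w - (T (X f) (Y w) + T (X w) (Y f) + T (X w) (Y w)) +
    p.1.im • X w + (T (Y f) (X w) + T (Y w) (X f) + T (Y w) (X w)) with hδ
  have hUU : U p (f + w) = U p f + δ := by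
    unfold U
    rw [hδ]
    simp only [map_add, add_apply, smul_add]
    abel
  have hJ : J δ 1 = J (Z w) 1 - p.1.re * J (Y w) 1 - (S (X f) (Y w) + S (X w) (Y f) + S (X w) (Y w))
      + p.1.im * J (X w) 1 + (S (Y f) (X w) + S (Y w) (X f) + S (Y w) (X w)) := by
    rw [hδ]
    unfold S
    simp only [map_add, map_sub, map_smul, ContinuousMap.add_apply, ContinuousMap.sub_apply,
      ContinuousMap.smul_apply, smul_eq_mul]
  rw [hUU, map_add, map_add, norm_add_sq_real, norm_add_sq_real, norm_add_sq_real, h.hX, h.hY,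
    h.hU, inner_cst, hJ]
  have b1 := by_parts (X w) (Y f)
  have b2 := by_parts (Y w) (X f)
  have h1 := h.h1
  simp only [map_add, ContinuousMap.add_apply] at hg hz
  unfold qf
  have e1 : S (X w) (Y f) = J (X w) 1 * J (Y f) 1 - S (Y f) (X w) := by linarith
  have e2 : S (Y w) (X f) = J (Y w) 1 * J (X f) 1 - S (X f) (Y w) := by linarith
  have e3 : 2 * ((p.1.re + J (X f) 1) * J (X w) 1 + (p.1.im + J (Y f) 1) * J (Y w) 1) =
      -(J (X w) 1 ^ 2 + J (Y w) 1 ^ 2) := by nlinarith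
  have e4 : m * J (Z w) 1 = 0 := by linarith
  have e5 : lam * (2 * ((p.1.re + J (X f) 1) * J (X w) 1 + (p.1.im + J (Y f) 1) * J (Y w) 1)) =
      lam * -(J (X w) 1 ^ 2 + J (Y w) 1 ^ 2) := by rw [e3]
  rw [e1, e2]
  linarith [sq_nonneg ‖δ‖]

end H469Z.Taut
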