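import Pool.Agent.H469Z.TautEnergy

open MeasureTheory Set Filter Topology
open scoped ENNReal RealInnerProductSpace ContDiff

noncomputable section

namespace H469Z.Taut

/-- the vertical component of the vector `v` at `x` -/
def vert (x v : V) : ℝ := v.2 - x.1.re * v.1.im + x.1.im * v.1.re

lemma nil_eq (x a b : V) :
    nilMetric x a b = a.1.re * b.1.re + a.1.im * b.1.im + vert x a * vert x b := rfl

lemma isMetric_nil : IsMetric nilMetric where
  add_left := by
    intro x a b c
    simp only [nilMetric, Prod.fst_add, Prod.snd_add, Complex.add_re, Complex.add_im]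
    ring
  smul_left := by
    intro x r a b
    simp only [nilMetric, Prod.smul_fst, Prod.smul_snd, Complex.smul_re, Complex.smul_im,
      smul_eq_mul]
    ring
  symm := by
    intro x a b
    simp only [nilMetric]
    ring
  pos := by
    intro x a ha
    rw [nil_eq]
    by_contra h
    push Not at h
    have h1 : a.1.re = 0 := by nlinarith [sq_nonneg a.1.re, sq_nonneg a.1.im, sq_nonneg (vert x a)]
    have h2 : a.1.im = 0 := by nlinarith [sq_nonneg a.1.re, sq_nonneg a.1.im, sq_nonneg (vert x a)]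
    have h3 : vert x a = 0 := by nlinarith [sq_nonneg a.1.re, sq_nonneg a.1.im, sq_nonneg (vert x a)]
    unfold vert at h3
    rw [h1, h2] at h3
    exact ha (Prod.ext (Complex.ext h1 h2) (by simpa using h3))
  smooth := by
    intro a b
    have h1 : ContDiff ℝ ∞ fun x : V => x.1.re := cX.contDiff
    have h2 : ContDiff ℝ ∞ fun x : V => x.1.im := cY.contDiff
    unfold nilMetric
    exact contDiff_const.add (((contDiff_const.sub (h1.mul contDiff_const)).add
      (h2.mul contDiff_const)).mul ((contDiff_const.sub (h1.mul contDiff_const)).add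
      (h2.mul contDiff_const)))

lemma hd_congr {F : Type} [NormedAddCommGroup F] [NormedSpace ℝ F] {f g : ℝ → F} {a b : F} {t : ℝ}
    (h : HasDerivAt f a t) (hf : ∀ s, g s = f s) (ha : b = a) : HasDerivAt g b t := by
  rw [funext hf, ha]
  exact h

lemma fderiv_nil (v x W : V) : fderiv ℝ (fun x => nilMetric x v v) x W / 2 =
    vert x v * (W.1.im * v.1.re - W.1.re * v.1.im) := by
  have h1 : HasFDerivAt (fun x : V => vert x v) (v.1.re • cY - v.1.im • cX) x := by
    have h2 := ((v.1.re • cY - v.1.im • cX).hasFDerivAt (x := x)).const_add v.2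
    have h5 : (fun x : V => vert x v) = fun y => v.2 + (v.1.re • cY - v.1.im • cX) y := by
      funext y
      simp only [vert, cX, cY, sub_apply, smul_apply, ContinuousLinearMap.comp_apply,
        ContinuousLinearMap.coe_fst', Complex.reCLM_apply, Complex.imCLM_apply, smul_eq_mul]
      ring
    rw [h5]
    exact h2
  have h3 := (h1.fun_mul h1).const_add (v.1.re * v.1.re + v.1.im * v.1.im)
  have h4 : (fun x => nilMetric x v v) =
      fun x => v.1.re * v.1.re + v.1.im * v.1.im + vert x v * vert x v := rfl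
  rw [h4, h3.fderiv]
  simp only [cX, cY, add_apply, sub_apply, smul_apply, ContinuousLinearMap.comp_apply,
    ContinuousLinearMap.coe_fst', Complex.reCLM_apply, Complex.imCLM_apply, smul_eq_mul]
  ring

lemma hd_re {c : ℝ → V} {v : V} {t : ℝ} (h : HasDerivAt c v t) :
    HasDerivAt (fun s => (c s).1.re) v.1.re t := cX.hasFDerivAt.comp_hasDerivAt t h
lemma hd_im {c : ℝ → V} {v : V} {t : ℝ} (h : HasDerivAt c v t) :
    HasDerivAt (fun s => (c s).1.im) v.1.im t := cY.hasFDerivAt.comp_hasDerivAt t h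
lemma hd_snd {c : ℝ → V} {v : V} {t : ℝ} (h : HasDerivAt c v t) :
    HasDerivAt (fun s => (c s).2) v.2 t := cZ.hasFDerivAt.comp_hasDerivAt t h

lemma isGeodesic_of {c d : ℝ → V} {m : ℝ} (hc : ContDiff ℝ ∞ c) (hd : ∀ t, HasDerivAt c (d t) t)
    (hm : ∀ t, vert (c t) (d t) = m)
    (h1 : ∀ t, HasDerivAt (fun s => (d s).1.re) (-(2 * m * (d t).1.im)) t)
    (h2 : ∀ t, HasDerivAt (fun s => (d s).1.im) (2 * m * (d t).1.re) t) :
    IsGeodesic nilMetric c := by
  have hdd : deriv c = d := funext fun t => (hd t).deriv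
  refine ⟨hc, fun t W => ?_⟩
  rw [hdd, fderiv_nil, hm]
  have h3 : (fun s => nilMetric (c s) (d s) W) = fun s => (d s).1.re * W.1.re + (d s).1.im * W.1.im
      + m * (W.2 - (c s).1.re * W.1.im + (c s).1.im * W.1.re) := by
    funext s
    rw [nil_eq, hm]
    rfl
  rw [h3]
  have h4 := (((h1 t).mul_const W.1.re).fun_add ((h2 t).mul_const W.1.im)).fun_add
    (((((hd_re (hd t)).mul_const W.1.im).const_sub W.2).fun_add
      ((hd_im (hd t)).mul_const W.1.re)).const_mul m)
  exact hd_congr h4 (fun _ => rfl) (by ring)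

lemma IsGeodesic.ode {c : ℝ → V} (hc : IsGeodesic nilMetric c) :
    (∀ t, vert (c t) (deriv c t) = vert (c 0) (deriv c 0)) ∧
    (∀ t, HasDerivAt (fun s => (deriv c s).1.re)
      (-(2 * vert (c 0) (deriv c 0) * (deriv c t).1.im)) t) ∧
    ∀ t, HasDerivAt (fun s => (deriv c s).1.im)
      (2 * vert (c 0) (deriv c 0) * (deriv c t).1.re) t := by
  obtain ⟨h0, h⟩ := hc
  have hd : ∀ t, HasDerivAt c (deriv c t) t := fun t =>
    ((h0.differentiable (by simp)) t).hasDerivAt
  have hm : ∀ t, vert (c t) (deriv c t) = vert (c 0) (deriv c 0) := by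
    have h1 : ∀ t, HasDerivAt (fun s => vert (c s) (deriv c s)) 0 t := by
      intro t
      have h2 := h t (0, 1)
      rw [fderiv_nil] at h2
      refine hd_congr h2 (fun s => ?_) ?_
      · simp [nil_eq, vert]
      · simp
    intro t
    exact is_const_of_deriv_eq_zero (fun t => (h1 t).differentiableAt) (fun t => (h1 t).deriv) t 0
  set m := vert (c 0) (deriv c 0) with hmdef
  refine ⟨hm, fun t => ?_, fun t => ?_⟩
  · have h2 := h t (1, 0)
    rw [fderiv_nil, hm] at h2
    have h3 := h2.fun_sub ((hd_im (hd t)).const_mul m)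
    refine hd_congr h3 (fun s => ?_) ?_
    · rw [nil_eq, hm]
      simp [vert]
    · simp
      ring
  · have h2 := h t (Complex.I, 0)
    rw [fderiv_nil, hm] at h2
    have h3 := h2.fun_add ((hd_re (hd t)).const_mul m)
    refine hd_congr h3 (fun s => ?_) ?_
    · rw [nil_eq, hm]
      simp [vert]
    · simp
      ring

lemma eq_of_deriv {a b a' : ℝ → ℝ} (ha : ∀ t, HasDerivAt a (a' t) t)
    (hb : ∀ t, HasDerivAt b (a' t) t) (h0 : a 0 = b 0) (t : ℝ) : a t = b t := by
  have h1 : ∀ t, HasDerivAt (fun s => a s - b s) 0 t := by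
    intro t
    have := (ha t).fun_sub (hb t)
    rwa [sub_self] at this
  have h2 := is_const_of_deriv_eq_zero (fun t => (h1 t).differentiableAt)
    (fun t => (h1 t).deriv) t 0
  linarith

lemma IsGeodesic.unique {c c' : ℝ → V} (hc : IsGeodesic nilMetric c) (hc' : IsGeodesic nilMetric c')
    (h0 : c 0 = c' 0) (h1 : deriv c 0 = deriv c' 0) (t : ℝ) : c t = c' t := by
  obtain ⟨a1, a2, a3⟩ := hc.ode
  obtain ⟨b1, b2, b3⟩ := hc'.ode
  rw [← h0, ← h1] at b1 b2 b3
  set m := vert (c 0) (deriv c 0) with hm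
  have hd : ∀ t, HasDerivAt c (deriv c t) t := fun t =>
    ((hc.1.differentiable (by simp)) t).hasDerivAt
  have hd' : ∀ t, HasDerivAt c' (deriv c' t) t := fun t =>
    ((hc'.1.differentiable (by simp)) t).hasDerivAt
  have h2 : ∀ t, HasDerivAt (fun s => ((deriv c s).1.re - (deriv c' s).1.re) ^ 2 +
      ((deriv c s).1.im - (deriv c' s).1.im) ^ 2) 0 t := by
    intro t
    have h3 := (((a2 t).fun_sub (b2 t)).fun_pow 2).fun_add (((a3 t).fun_sub (b3 t)).fun_pow 2)
    refine hd_congr h3 (fun _ => rfl) ?_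
    simp
    ring
  have h3 : ∀ t, ((deriv c t).1.re - (deriv c' t).1.re) ^ 2 +
      ((deriv c t).1.im - (deriv c' t).1.im) ^ 2 = 0 := by
    intro t
    have h4 := is_const_of_deriv_eq_zero (fun t => (h2 t).differentiableAt)
      (fun t => (h2 t).deriv) t 0
    rw [h4, h1]
    ring
  have h4 : ∀ t, (deriv c' t).1.re = (deriv c t).1.re := fun t => by
    nlinarith [h3 t, sq_nonneg ((deriv c t).1.re - (deriv c' t).1.re),
      sq_nonneg ((deriv c t).1.im - (deriv c' t).1.im)]
  have h5 : ∀ t, (deriv c' t).1.im = (deriv c t).1.im := fun t => by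
    nlinarith [h3 t, sq_nonneg ((deriv c t).1.re - (deriv c' t).1.re),
      sq_nonneg ((deriv c t).1.im - (deriv c' t).1.im)]
  have h6 : ∀ t, (c t).1.re = (c' t).1.re :=
    eq_of_deriv (fun t => hd_re (hd t)) (fun t => h4 t ▸ hd_re (hd' t)) (by rw [h0])
  have h7 : ∀ t, (c t).1.im = (c' t).1.im :=
    eq_of_deriv (fun t => hd_im (hd t)) (fun t => h5 t ▸ hd_im (hd' t)) (by rw [h0])
  have h8 : ∀ t, (deriv c' t).2 = (deriv c t).2 := by
    intro t
    have e1 := a1 t
    have e2 := b1 t
    unfold vert at e1 e2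
    rw [h4, h5, ← h6, ← h7] at e2
    linarith
  have h9 : ∀ t, (c t).2 = (c' t).2 :=
    eq_of_deriv (fun t => hd_snd (hd t)) (fun t => h8 t ▸ hd_snd (hd' t)) (by rw [h0])
  exact Prod.ext (Complex.ext (h6 t) (h7 t)) (h9 t)

lemma expo_eq {c : ℝ → V} (hc : IsGeodesic nilMetric c) :
    expo nilMetric (c 0, deriv c 0) = c 1 := by
  have h : ∃ q, ∃ c', IsGeodesic nilMetric c' ∧ c' 0 = (c 0, deriv c 0).1 ∧
      deriv c' 0 = (c 0, deriv c 0).2 ∧ c' 1 = q := ⟨c 1, c, hc, rfl, rfl, rfl⟩
  obtain ⟨c', h1, h2, h3, h4⟩ := Classical.epsilon_spec h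
  unfold expo
  rw [← h4]
  exact h1.unique hc h2 h3 1

/-! ### Straight lines -/

lemma line_geodesic {x v : V} (h : vert x v = 0) :
    IsGeodesic nilMetric (fun t => x + t • v) ∧ deriv (fun t : ℝ => x + t • v) 0 = v := by
  have hd : ∀ t, HasDerivAt (fun t : ℝ => x + t • v) v t := by
    intro t
    have := ((hasDerivAt_id t).smul_const v).const_add x
    simpa using this
  refine ⟨isGeodesic_of (d := fun _ => v) (m := 0) (by fun_prop) hd ?_ ?_ ?_, (hd 0).deriv⟩
  · intro t
    unfold vert at h ⊢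
    simp only [Prod.fst_add, Prod.smul_fst, Complex.add_re, Complex.add_im, Complex.smul_re,
      Complex.smul_im, smul_eq_mul]
    linarith
  · intro t
    simpa using hasDerivAt_const t v.1.re
  · intro t
    simpa using hasDerivAt_const t v.1.im

lemma expo_line {x v : V} (h : vert x v = 0) : expo nilMetric (x, v) = x + v := by
  obtain ⟨h1, h2⟩ := line_geodesic h
  have h3 := expo_eq h1
  rw [h2] at h3
  simpa using h3

/-! ### Helices -/

/-- rotation -/
def rot (θ : ℝ) (a : ℂ) : ℂ := ⟨Real.cos θ * a.re - Real.sin θ * a.im,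
  Real.sin θ * a.re + Real.cos θ * a.im⟩

/-- the helix with axis `κ`, radius vector `a`, vertical velocity `m` and initial height `h` -/
def helix (κ a : ℂ) (m h t : ℝ) : V :=
  (κ + rot (2 * m * t) a, h + m * t + 2 * m * (a.re ^ 2 + a.im ^ 2) * t +
    (κ.re * ((rot (2 * m * t) a).im - a.im) - κ.im * ((rot (2 * m * t) a).re - a.re)))

/-- the velocity of the helix -/
def helix' (κ a : ℂ) (m t : ℝ) : V :=
  (⟨-(2 * m * (rot (2 * m * t) a).im), 2 * m * (rot (2 * m * t) a).re⟩,
    m + 2 * m * (a.re ^ 2 + a.im ^ 2) +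
      2 * m * (κ.re * (rot (2 * m * t) a).re + κ.im * (rot (2 * m * t) a).im))

lemma hd_rot_re (a : ℂ) (m t : ℝ) : HasDerivAt (fun t => (rot (2 * m * t) a).re)
    (-(2 * m * (rot (2 * m * t) a).im)) t := by
  have h0 : HasDerivAt (fun t => 2 * m * t) (2 * m) t := by
    simpa using (hasDerivAt_id t).const_mul (2 * m)
  have h1 := (h0.cos.mul_const a.re).fun_sub (h0.sin.mul_const a.im)
  refine hd_congr h1 (fun _ => rfl) ?_
  simp only [rot]
  ring

lemma hd_rot_im (a : ℂ) (m t : ℝ) : HasDerivAt (fun t => (rot (2 * m * t) a).im)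
    (2 * m * (rot (2 * m * t) a).re) t := by
  have h0 : HasDerivAt (fun t => 2 * m * t) (2 * m) t := by
    simpa using (hasDerivAt_id t).const_mul (2 * m)
  have h1 := (h0.sin.mul_const a.re).fun_add (h0.cos.mul_const a.im)
  refine hd_congr h1 (fun _ => rfl) ?_
  simp only [rot]
  ring

lemma hd_of_coords {c : ℝ → V} {v : V} {t : ℝ} (h1 : HasDerivAt (fun s => (c s).1.re) v.1.re t)
    (h2 : HasDerivAt (fun s => (c s).1.im) v.1.im t) (h3 : HasDerivAt (fun s => (c s).2) v.2 t) :
    HasDerivAt c v t := by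
  have h4 := ((h1.smul_const ((1, 0) : V)).fun_add (h2.smul_const ((Complex.I, 0) : V))).fun_add
    (h3.smul_const ((0, 1) : V))
  have e : ∀ w : V, w.1.re • ((1, 0) : V) + w.1.im • ((Complex.I, 0) : V) + w.2 • ((0, 1) : V)
      = w := by
    intro w
    refine Prod.ext (Complex.ext ?_ ?_) ?_ <;> simp
  simpa only [e] using h4

lemma contDiff_of_coords {F : Type} [NormedAddCommGroup F] [NormedSpace ℝ F] {c : F → V}
    (h1 : ContDiff ℝ ∞ fun s => (c s).1.re) (h2 : ContDiff ℝ ∞ fun s => (c s).1.im)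
    (h3 : ContDiff ℝ ∞ fun s => (c s).2) : ContDiff ℝ ∞ c := by
  have h4 : ContDiff ℝ ∞ fun s => (c s).1.re • ((1, 0) : V) + (c s).1.im • ((Complex.I, 0) : V) +
      (c s).2 • ((0, 1) : V) := ((h1.smul (contDiff_const (c := ((1, 0) : V)))).add
    (h2.smul (contDiff_const (c := ((Complex.I, 0) : V))))).add
    (h3.smul (contDiff_const (c := ((0, 1) : V))))
  have e : ∀ w : V, w.1.re • ((1, 0) : V) + w.1.im • ((Complex.I, 0) : V) + w.2 • ((0, 1) : V)
      = w := by
    intro w
    refine Prod.ext (Complex.ext ?_ ?_) ?_ <;> simp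
  simpa only [e] using h4

lemma hd_helix (κ a : ℂ) (m h t : ℝ) : HasDerivAt (helix κ a m h) (helix' κ a m t) t := by
  apply hd_of_coords
  · exact (hd_rot_re a m t).const_add κ.re
  · exact (hd_rot_im a m t).const_add κ.im
  · have h1 := ((((hasDerivAt_id t).const_mul m).const_add h).fun_add
      ((hasDerivAt_id t).const_mul (2 * m * (a.re ^ 2 + a.im ^ 2)))).fun_add
      ((((hd_rot_im a m t).sub_const a.im).const_mul κ.re).fun_sub
        (((hd_rot_re a m t).sub_const a.re).const_mul κ.im))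
    refine hd_congr h1 (fun _ => rfl) ?_
    simp only [helix']
    ring

lemma rot_sq (θ : ℝ) (a : ℂ) : (rot θ a).re ^ 2 + (rot θ a).im ^ 2 = a.re ^ 2 + a.im ^ 2 := by
  simp only [rot]
  have := Real.sin_sq_add_cos_sq θ
  linear_combination (a.re ^ 2 + a.im ^ 2) * this

lemma vert_helix (κ a : ℂ) (m h t : ℝ) : vert (helix κ a m h t) (helix' κ a m t) = m := by
  have := rot_sq (2 * m * t) a
  simp only [vert, helix, helix', Complex.add_re, Complex.add_im]
  linear_combination (-2 * m) * this

lemma contDiff_helix (κ a : ℂ) (m h : ℝ) : ContDiff ℝ ∞ (helix κ a m h) := by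
  apply contDiff_of_coords
  · simp only [helix, rot, Complex.add_re]
    fun_prop
  · simp only [helix, rot, Complex.add_im]
    fun_prop
  · simp only [helix, rot]
    fun_prop

lemma helix_geodesic (κ a : ℂ) (m h : ℝ) : IsGeodesic nilMetric (helix κ a m h) := by
  refine isGeodesic_of (contDiff_helix κ a m h) (hd_helix κ a m h) (vert_helix κ a m h) ?_ ?_
  · intro t
    have := ((hd_rot_im a m t).const_mul (2 * m)).fun_neg
    exact this
  · intro t
    have := (hd_rot_re a m t).const_mul (2 * m)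
    exact this

lemma rot_zero (a : ℂ) : rot 0 a = a := by
  apply Complex.ext <;> simp [rot]

/-- the radius vector of the helix with given initial data -/
def rad (x v : V) : ℂ := ⟨v.1.im / (2 * vert x v), -(v.1.re / (2 * vert x v))⟩

lemma helix_init {x v : V} (h : vert x v ≠ 0) :
    helix (x.1 - rad x v) (rad x v) (vert x v) x.2 0 = x ∧
    helix' (x.1 - rad x v) (rad x v) (vert x v) 0 = v := by
  constructor
  · refine Prod.ext ?_ ?_ <;> simp [helix, rot_zero]
  · refine Prod.ext (Complex.ext ?_ ?_) ?_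
    · simp only [helix', mul_zero, rot_zero, rad]
      field_simp
    · simp only [helix', mul_zero, rot_zero, rad]
      field_simp
    · have hv : v.2 = vert x v + x.1.re * v.1.im - x.1.im * v.1.re := by
        unfold vert; ring
      rw [hv]
      simp only [helix', mul_zero, rot_zero, rad, Complex.sub_re, Complex.sub_im]
      field_simp
      ring

lemma expo_helix {x v : V} (h : vert x v ≠ 0) :
    expo nilMetric (x, v) = helix (x.1 - rad x v) (rad x v) (vert x v) x.2 1 := by
  obtain ⟨h1, h2⟩ := helix_init h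
  have h3 := expo_eq (helix_geodesic (x.1 - rad x v) (rad x v) (vert x v) x.2)
  rwa [(hd_helix _ _ _ _ 0).deriv, h1, h2] at h3

lemma complete_nil : IsCompleteMetric nilMetric := by
  intro x v
  by_cases h : vert x v = 0
  · obtain ⟨h1, h2⟩ := line_geodesic h
    exact ⟨_, h1, by simp, h2⟩
  · obtain ⟨h1, h2⟩ := helix_init h
    exact ⟨_, helix_geodesic _ _ _ _, h1, by rw [(hd_helix _ _ _ _ 0).deriv, h2]⟩

end H469Z.Taut
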