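import Pool.Agent.H469Z.TautDefs

open MeasureTheory Set Filter Topology
open scoped ENNReal RealInnerProductSpace ContDiff

noncomputable section

namespace H469Z.Taut

lemma L2.integrable {E : Type} [NormedAddCommGroup E] (g : L2 E) :
    Integrable (fun τ => g τ) (volume : Measure unitInterval) :=
  (Lp.memLp g).integrable (by norm_num)

lemma setIntegral_abs_le (a : L2 ℝ) (s : Set unitInterval) (hs : MeasurableSet s) :
    |∫ τ in s, a τ| ≤ ‖a‖ * √(volume.real s) := by
  have h1 := L2.inner_indicatorConstLp_one (𝕜 := ℝ) hs (measure_ne_top volume s) a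
  rw [← h1]
  refine (abs_real_inner_le_norm _ _).trans ?_
  rw [norm_indicatorConstLp (by norm_num) (by norm_num), mul_comm]
  simp [Real.sqrt_eq_rpow]

lemma setIntegral_Iic_sub {E : Type} [NormedAddCommGroup E] [NormedSpace ℝ E]
    (f : unitInterval → E) (hf : Integrable f) {s t : unitInterval} (hst : s ≤ t) :
    (∫ τ in Iic t, f τ) - ∫ τ in Iic s, f τ = ∫ τ in Ioc s t, f τ := by
  have h : Iic t = Iic s ∪ Ioc s t := (Iic_union_Ioc_eq_Iic hst).symm
  rw [h, setIntegral_union ?_ measurableSet_Ioc hf.integrableOn hf.integrableOn]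
  · abel
  · exact Iic_disjoint_Ioc le_rfl

lemma prim_sub_le (a : L2 ℝ) {s t : unitInterval} (hst : s ≤ t) :
    |(∫ τ in Iic t, a τ) - ∫ τ in Iic s, a τ| ≤ ‖a‖ * √((t : ℝ) - s) := by
  rw [setIntegral_Iic_sub _ a.integrable hst]
  refine (setIntegral_abs_le a _ measurableSet_Ioc).trans (le_of_eq ?_)
  congr 2
  rw [Measure.real, unitInterval.volume_Ioc, ENNReal.toReal_ofReal (sub_nonneg.2 hst)]

lemma prim_sub_le' (a : L2 ℝ) (s t : unitInterval) :
    |(∫ τ in Iic t, a τ) - ∫ τ in Iic s, a τ| ≤ ‖a‖ * √|(t : ℝ) - s| := by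
  rcases le_total s t with h | h
  · rw [abs_of_nonneg (sub_nonneg.2 (show (s : ℝ) ≤ t from h))]
    exact prim_sub_le a h
  · rw [abs_sub_comm, abs_sub_comm (t : ℝ), abs_of_nonneg (sub_nonneg.2 (show (t : ℝ) ≤ s from h))]
    exact prim_sub_le a h

lemma continuous_prim (a : L2 ℝ) : Continuous fun t : unitInterval => ∫ τ in Iic t, a τ := by
  rw [continuous_iff_continuousAt]
  intro s
  rw [ContinuousAt, tendsto_iff_dist_tendsto_zero]
  have h1 : Tendsto (fun t : unitInterval => ‖a‖ * √|(t : ℝ) - s|) (𝓝 s) (𝓝 0) := by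
    have : Continuous fun t : unitInterval => ‖a‖ * √|(t : ℝ) - s| := by fun_prop
    have h2 := this.tendsto s
    simpa using h2
  refine squeeze_zero (fun _ => dist_nonneg) (fun t => ?_) h1
  rw [Real.dist_eq]
  exact prim_sub_le' a s t

lemma prim_abs_le (a : L2 ℝ) (t : unitInterval) : |∫ τ in Iic t, a τ| ≤ ‖a‖ := by
  refine (setIntegral_abs_le a _ measurableSet_Iic).trans ?_
  have h1 : √(volume.real (Iic t)) ≤ 1 := by
    exact Real.sqrt_le_one.2 measureReal_le_one
  nlinarith [norm_nonneg a]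

/-- the primitive -/
def J : L2 ℝ →L[ℝ] C(unitInterval, ℝ) :=
  LinearMap.mkContinuous
    { toFun := fun a => ⟨fun t => ∫ τ in Iic t, a τ, continuous_prim a⟩
      map_add' := by
        intro a b
        ext t
        show ∫ τ in Iic t, (a + b : L2 ℝ) τ = (∫ τ in Iic t, a τ) + ∫ τ in Iic t, b τ
        rw [← integral_add a.integrable.integrableOn b.integrable.integrableOn]
        exact integral_congr_ae (ae_restrict_of_ae (Lp.coeFn_add a b))
      map_smul' := by
        intro c a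
        ext t
        show ∫ τ in Iic t, (c • a : L2 ℝ) τ = c • ∫ τ in Iic t, a τ
        rw [← integral_smul]
        exact integral_congr_ae (ae_restrict_of_ae (Lp.coeFn_smul c a)) } 1 (by
      intro a
      rw [one_mul, ContinuousMap.norm_le _ (norm_nonneg _)]
      intro t
      exact prim_abs_le a t)

lemma J_apply (a : L2 ℝ) (t : unitInterval) : J a t = ∫ τ in Iic t, a τ := rfl

lemma J_one (a : L2 ℝ) : J a 1 = ∫ τ, a τ := by
  rw [J_apply]
  have : (Iic (1 : unitInterval)) = univ := by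
    ext x; simp [unitInterval.le_one']
  rw [this, setIntegral_univ]

lemma J_zero (a : L2 ℝ) : J a 0 = 0 := by
  rw [J_apply]
  apply setIntegral_measure_zero
  have : (Iic (0 : unitInterval)) = {0} := by
    ext x; simp
  rw [this]
  simp

/-- multiplication of a square integrable function by a continuous function -/
def mulL : C(unitInterval, ℝ) →L[ℝ] L2 ℝ →L[ℝ] L2 ℝ :=
  (ContinuousLinearMap.holderL (volume : Measure unitInterval) ∞ 2 2
    (ContinuousLinearMap.mul ℝ ℝ)).comp (ContinuousMap.toLp ∞ volume ℝ)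

lemma mulL_ae (A : C(unitInterval, ℝ)) (g : L2 ℝ) : ∀ᵐ τ, (mulL A g : L2 ℝ) τ = A τ * g τ := by
  have h1 := ContinuousLinearMap.coeFn_holder (r := 2) (ContinuousLinearMap.mul ℝ ℝ)
    (ContinuousMap.toLp ∞ volume ℝ A) g
  have h2 := ContinuousMap.coeFn_toLp (p := ∞) (𝕜 := ℝ) (volume : Measure unitInterval) A
  filter_upwards [h1, h2] with τ h1 h2
  have h3 : (mulL A g : L2 ℝ) τ = (ContinuousLinearMap.holder 2
    (ContinuousLinearMap.mul ℝ ℝ) (ContinuousMap.toLp ∞ volume ℝ A) g : L2 ℝ) τ := rfl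
  rw [h3, h1, h2]
  rfl

/-- `T a b = (∫₀ᵗ a) b` -/
def T : L2 ℝ →L[ℝ] L2 ℝ →L[ℝ] L2 ℝ := mulL.comp J

lemma T_ae (a b : L2 ℝ) : ∀ᵐ τ, (T a b : L2 ℝ) τ = J a τ * b τ := mulL_ae _ _

/-- constant functions -/
def cst (E : Type) [NormedAddCommGroup E] [NormedSpace ℝ E] : E →L[ℝ] L2 E :=
  Lp.constL 2 (volume : Measure unitInterval) ℝ

lemma cst_ae {E : Type} [NormedAddCommGroup E] [NormedSpace ℝ E] (a : E) :
    ∀ᵐ τ, (cst E a : L2 E) τ = a := Lp.coeFn_const 2 (volume : Measure unitInterval) a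

lemma inner_cst (r : ℝ) (a : L2 ℝ) : ⟪cst ℝ r, a⟫ = r * J a 1 := by
  rw [L2.inner_def, J_one, ← integral_const_mul]
  apply integral_congr_ae
  filter_upwards [cst_ae r] with τ h
  rw [h]
  simp [mul_comm]

lemma J_cst (r : ℝ) (t : unitInterval) : J (cst ℝ r) t = r * t := by
  rw [J_apply, integral_congr_ae (ae_restrict_of_ae (cst_ae r)), setIntegral_const, smul_eq_mul,
    mul_comm]
  congr 1
  rw [Measure.real, unitInterval.volume_Iic, ENNReal.toReal_ofReal t.2.1]

lemma norm_cst_sq (r : ℝ) : ‖cst ℝ r‖ ^ 2 = r ^ 2 := by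
  rw [← real_inner_self_eq_norm_sq, inner_cst, J_cst]
  simp [sq]

/-- `S a b = ∫ (∫₀ᵗ a) b` -/
def S (a b : L2 ℝ) : ℝ := J (T a b) 1

lemma S_eq (a b : L2 ℝ) : S a b = ∫ t, J a t * b t := by
  rw [S, J_one]
  exact integral_congr_ae (T_ae a b)

lemma by_parts (a b : L2 ℝ) : S a b + S b a = J a 1 * J b 1 := by
  have hi : Integrable (fun z : unitInterval × unitInterval => a z.1 * b z.2)
      (volume.prod volume) := a.integrable.mul_prod b.integrable
  have hm : MeasurableSet {z : unitInterval × unitInterval | z.1 ≤ z.2} :=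
    measurableSet_le measurable_fst measurable_snd
  have h0 : J a 1 * J b 1 = ∫ z : unitInterval × unitInterval, a z.1 * b z.2 ∂(volume.prod volume) := by
    rw [J_one, J_one, integral_prod_mul]
  have h1 : S a b = ∫ z in {z : unitInterval × unitInterval | z.1 ≤ z.2}, a z.1 * b z.2
      ∂(volume.prod volume) := by
    rw [← integral_indicator hm, integral_prod_symm _ (hi.indicator hm), S_eq]
    apply integral_congr_ae
    filter_upwards with t
    rw [J_apply, ← integral_mul_const, ← integral_indicator measurableSet_Iic]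
    apply integral_congr_ae
    filter_upwards with s
    by_cases h : s ≤ t
    · rw [indicator_of_mem (show s ∈ Iic t from h),
        indicator_of_mem (show (s, t) ∈ {z : unitInterval × unitInterval | z.1 ≤ z.2} from h)]
    · rw [indicator_of_notMem (show s ∉ Iic t from h),
        indicator_of_notMem (show (s, t) ∉ {z : unitInterval × unitInterval | z.1 ≤ z.2} from h)]
  have h2 : S b a = ∫ z in {z : unitInterval × unitInterval | z.1 ≤ z.2}ᶜ, a z.1 * b z.2
      ∂(volume.prod volume) := by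
    rw [← integral_indicator hm.compl, integral_prod _ (hi.indicator hm.compl), S_eq]
    apply integral_congr_ae
    filter_upwards with s
    rw [J_apply, integral_Iic_eq_integral_Iio, ← integral_mul_const,
      ← integral_indicator measurableSet_Iio]
    apply integral_congr_ae
    filter_upwards with t
    by_cases h : t < s
    · rw [indicator_of_mem (show t ∈ Iio s from h),
        indicator_of_mem (show (s, t) ∈ {z : unitInterval × unitInterval | z.1 ≤ z.2}ᶜ from
          not_le.2 h), mul_comm]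
    · rw [indicator_of_notMem (show t ∉ Iio s from h),
        indicator_of_notMem (show (s, t) ∉ {z : unitInterval × unitInterval | z.1 ≤ z.2}ᶜ from
          fun h' => h' (not_lt.1 h))]
  rw [h0, h1, h2, integral_add_compl hm hi]

lemma abs_S_le (a b : L2 ℝ) {r : ℝ} (hr : ∀ t, |J a t| ≤ r) : |S a b| ≤ r * ‖b‖ := by
  have hr0 : 0 ≤ r := (abs_nonneg _).trans (hr 0)
  have h1 : ‖T a b‖ ≤ r * ‖b‖ := by
    apply Lp.norm_le_mul_norm_of_ae_le_mul
    filter_upwards [T_ae a b] with τ h
    rw [h, norm_mul]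
    exact mul_le_mul_of_nonneg_right (hr τ) (norm_nonneg _)
  exact (prim_abs_le (T a b) 1).trans h1

lemma abs_J_le_of_grid (a : L2 ℝ) (n : ℕ) (hn : 0 < n)
    (h : ∀ j : Fin (n ^ 2 + 1), J a (projIcc 0 1 zero_le_one ((j : ℝ) / n ^ 2)) = 0)
    (t : unitInterval) : |J a t| ≤ ‖a‖ / n := by
  have hN : (0 : ℝ) < n ^ 2 := by positivity
  have ht0 : 0 ≤ (t : ℝ) * n ^ 2 := mul_nonneg t.2.1 hN.le
  have h1 : ⌊(t : ℝ) * n ^ 2⌋₊ < n ^ 2 + 1 := by
    apply Nat.lt_succ_of_le
    apply Nat.floor_le_of_le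
    push_cast
    nlinarith [t.2.2]
  have h2 := h ⟨_, h1⟩
  set s : ℝ := ((⌊(t : ℝ) * n ^ 2⌋₊ : ℕ) : ℝ) / n ^ 2 with hs
  have hs0 : 0 ≤ s := by positivity
  have hst : s ≤ t := by
    rw [hs, div_le_iff₀ hN]
    exact Nat.floor_le ht0
  have hts : (t : ℝ) - s ≤ (1 / n) ^ 2 := by
    have := Nat.lt_floor_add_one ((t : ℝ) * n ^ 2)
    rw [hs, div_pow, one_pow, sub_le_iff_le_add, ← add_div, le_div_iff₀ hN]
    linarith
  have hs1 : s ∈ Icc (0 : ℝ) 1 := ⟨hs0, hst.trans t.2.2⟩
  have h3 : projIcc 0 1 zero_le_one s = ⟨s, hs1⟩ := projIcc_of_mem _ hs1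
  have h4 : J a ⟨s, hs1⟩ = 0 := by rw [← h3]; exact h2
  have h5 := prim_sub_le a (s := ⟨s, hs1⟩) (t := t) hst
  rw [← J_apply, ← J_apply, h4, sub_zero] at h5
  refine h5.trans ?_
  rw [div_eq_mul_one_div]
  refine mul_le_mul_of_nonneg_left ?_ (norm_nonneg _)
  exact Real.sqrt_le_iff.2 ⟨by positivity, hts⟩

end H469Z.Taut
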