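import Pool.Agent.H469Z.TautGeo
import Pool.Agent.H469Z.TautBetti

open MeasureTheory Set Filter Topology
open scoped ENNReal RealInnerProductSpace ContDiff

noncomputable section

namespace H469Z.Taut

/-- the integral over the unit interval -/
def J1 : L2 ℝ →L[ℝ] ℝ := (ContinuousMap.evalCLM ℝ (1 : unitInterval)).comp J

lemma J1_apply (a : L2 ℝ) : J1 a = J a 1 := rfl

/-- the integral of a vector valued function -/
def II : L2 V →L[ℝ] V := (J1.comp X).smulRight (1, 0) + (J1.comp Y).smulRight (Complex.I, 0) +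
  (J1.comp Z).smulRight (0, 1)

lemma II_re (f : L2 V) : (II f).1.re = J (X f) 1 := by simp [II, J1_apply]
lemma II_im (f : L2 V) : (II f).1.im = J (Y f) 1 := by simp [II, J1_apply]
lemma II_snd (f : L2 V) : (II f).2 = J (Z f) 1 := by simp [II, J1_apply]

lemma path_one (p : V) (f : L2 V) : path p f 1 = p + II f := by
  refine Prod.ext (Complex.ext ?_ ?_) ?_
  · rw [path_re, Prod.fst_add, Complex.add_re, II_re]
  · rw [path_im, Prod.fst_add, Complex.add_im, II_im]
  · rw [path_snd, Prod.snd_add, II_snd]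

lemma J_cst_one (r : ℝ) : J (cst ℝ r) 1 = r := by rw [J_cst]; simp

lemma II_cst (a : V) : II (cst V a) = a := by
  refine Prod.ext (Complex.ext ?_ ?_) ?_
  · rw [II_re, X_cst, J_cst_one]
  · rw [II_im, Y_cst, J_cst_one]
  · rw [II_snd, Z_cst, J_cst_one]

lemma mem_pathSpace {p : V} {M : Set V} {f : L2 V} : f ∈ pathSpace p M ↔ p + II f ∈ M := by
  rw [← path_one]
  rfl

lemma norm_eq_one_iff (z : ℂ) : ‖z‖ = 1 ↔ z.re ^ 2 + z.im ^ 2 = 1 := by
  rw [← sq_eq_sq₀ (norm_nonneg z) zero_le_one, Complex.sq_norm, Complex.normSq_apply]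
  constructor <;> intro h <;> linarith

lemma mem_cyl {p : V} {f : L2 V} : f ∈ pathSpace p cyl ↔
    (p.1.re + J (X f) 1) ^ 2 + (p.1.im + J (Y f) 1) ^ 2 = 1 := by
  rw [← path_re, ← path_im, ← norm_eq_one_iff]
  rfl

lemma mem_circ {p : V} {f : L2 V} : f ∈ pathSpace p circ ↔
    (p.1.re + J (X f) 1) ^ 2 + (p.1.im + J (Y f) 1) ^ 2 = 1 ∧ p.2 + J (Z f) 1 = 0 := by
  rw [← path_re, ← path_im, ← path_snd, ← norm_eq_one_iff]
  rfl

lemma betti_path (p : V) (M : Set V) (h1 : ∀ x ∈ M, ‖x.1‖ = 1)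
    (h2 : ∀ z : ℂ, ‖z‖ = 1 → ((z, 0) : V) ∈ M)
    (h3 : ∀ x ∈ M, ∀ t : ℝ, ((x.1, t * x.2) : V) ∈ M) (k : ℕ) :
    betti (pathSpace p M) k = if k ≤ 1 then 1 else 0 := by
  let F : pathSpace p M → Pool.Agent.Helper10.Dupin.S1 := fun x =>
    ⟨(p + II x.1).1, h1 _ (mem_pathSpace.1 x.2)⟩
  have hF : Continuous F := by
    refine Continuous.subtype_mk ?_ _
    exact continuous_fst.comp (continuous_const.add (II.continuous.comp continuous_subtype_val))
  let G : Pool.Agent.Helper10.Dupin.S1 → pathSpace p M := fun e => ⟨cst V ((e.1, 0) - p), by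
    rw [mem_pathSpace, II_cst, add_sub_cancel]
    exact h2 _ e.2⟩
  have hG : Continuous G := by
    refine Continuous.subtype_mk ?_ _
    exact (cst V).continuous.comp
      ((Continuous.prodMk continuous_subtype_val continuous_const).sub continuous_const)
  let Hm : pathSpace p M × unitInterval → pathSpace p M := fun q =>
    ⟨(1 - (q.2 : ℝ)) • q.1.1 + (q.2 : ℝ) • cst V (((p + II q.1.1).1, 0) - p), by
      rw [mem_pathSpace, map_add, map_smul, map_smul, II_cst]
      have h4 := h3 _ (mem_pathSpace.1 q.1.2) (1 - (q.2 : ℝ))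
      have e : p + ((1 - (q.2 : ℝ)) • II q.1.1 + (q.2 : ℝ) • ((((p + II q.1.1).1, 0) : V) - p)) =
          ((p + II q.1.1).1, (1 - (q.2 : ℝ)) * (p + II q.1.1).2) := by
        refine Prod.ext (Complex.ext ?_ ?_) ?_ <;> simp <;> ring
      rw [e]
      exact h4⟩
  have hH : Continuous Hm := by
    refine Continuous.subtype_mk ?_ _
    have e1 : Continuous fun q : pathSpace p M × unitInterval => (q.1.1 : L2 V) :=
      continuous_subtype_val.comp continuous_fst
    have e2 : Continuous fun q : pathSpace p M × unitInterval => (q.2 : ℝ) :=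
      continuous_subtype_val.comp continuous_snd
    exact ((continuous_const.sub e2).smul e1).add (e2.smul ((cst V).continuous.comp
      ((Continuous.prodMk (continuous_fst.comp (continuous_const.add (II.continuous.comp e1)))
        continuous_const).sub continuous_const)))
  refine betti_of_circle ⟨F, hF⟩ ⟨G, hG⟩ ⟨Hm, hH⟩ ?_ ?_ ?_ k
  · intro y
    apply Subtype.ext
    show (p + II (cst V ((y.1, 0) - p))).1 = y.1
    rw [II_cst, add_sub_cancel]
  · intro x
    apply Subtype.ext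
    show (1 - ((0 : unitInterval) : ℝ)) • x.1 +
      ((0 : unitInterval) : ℝ) • cst V (((p + II x.1).1, 0) - p) = x.1
    simp
  · intro x
    apply Subtype.ext
    show (1 - ((1 : unitInterval) : ℝ)) • x.1 +
      ((1 : unitInterval) : ℝ) • cst V (((p + II x.1).1, 0) - p) =
      cst V (((p + II x.1).1, 0) - p)
    simp

lemma betti_cyl (p : V) (k : ℕ) : betti (pathSpace p cyl) k = if k ≤ 1 then 1 else 0 :=
  betti_path p cyl (fun _ h => h) (fun _ h => h) (fun _ h _ => h) k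

lemma betti_circ (p : V) (k : ℕ) : betti (pathSpace p circ) k = if k ≤ 1 then 1 else 0 :=
  betti_path p circ (fun _ h => h.1) (fun _ h => ⟨h, rfl⟩)
    (fun _ h _ => ⟨h.1, by rw [h.2, mul_zero]⟩) k

/-! ### Consequences of the lower bound -/

lemma Good.crit {p : V} {f : L2 V} {m lam : ℝ} (h : Good p f m lam) {M : Set V}
    (hf : f ∈ pathSpace p M) (hM : ∀ g ∈ pathSpace p M,
      (p.1.re + J (X g) 1) ^ 2 + (p.1.im + J (Y g) 1) ^ 2 = 1 ∧ m * (J (Z g) 1 - J (Z f) 1) = 0) :
    f ∈ crit nilMetric p M :=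
  ⟨hf, fun _ hc h0 hd => hasDerivAt_zero_of_lower ((contDiff_energy p).differentiable (by simp))
    (continuous_qf m lam) (qf_smul m lam) (fun g hg => h.lower g (hM g hg).1 (hM g hg).2) hc h0 hd⟩

lemma Good.neg {p : V} {f : L2 V} {m lam : ℝ} (h : Good p f m lam) {M : Set V}
    (hM : ∀ g ∈ pathSpace p M,
      (p.1.re + J (X g) 1) ^ 2 + (p.1.im + J (Y g) 1) ^ 2 = 1 ∧ m * (J (Z g) 1 - J (Z f) 1) = 0)
    {w : L2 V} (hw : IsNegative nilMetric p M f w) : qf m lam w < 0 ∧
      (p.1.re + J (X f) 1) * J (X w) 1 + (p.1.im + J (Y f) 1) * J (Y w) 1 = 0 := by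
  obtain ⟨c, hc, hP, h0, rfl, hneg⟩ := hw
  refine ⟨neg_of_second (contDiff_energy p) (continuous_qf m lam) (qf_smul m lam)
    (fun g hg => h.lower g (hM g hg).1 (hM g hg).2) hP h0 hc hneg, ?_⟩
  have hd : HasDerivAt c (deriv c 0) 0 := ((hc.differentiable (by simp)) 0).hasDerivAt
  have h1 : HasDerivAt (fun s => J (X (c s)) 1) (J (X (deriv c 0)) 1) 0 :=
    (J1.comp X).hasFDerivAt.comp_hasDerivAt 0 hd
  have h2 : HasDerivAt (fun s => J (Y (c s)) 1) (J (Y (deriv c 0)) 1) 0 :=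
    (J1.comp Y).hasFDerivAt.comp_hasDerivAt 0 hd
  have h3 := ((h1.const_add p.1.re).fun_pow 2).fun_add ((h2.const_add p.1.im).fun_pow 2)
  have h4 := hd_congr (g := fun _ => (1 : ℝ)) h3 (fun s => (hM _ (hP s)).1.symm) rfl
  have h5 := h4.unique (hasDerivAt_const 0 1)
  rw [h0] at h5
  simp only [Nat.cast_ofNat, Nat.add_one_sub_one, pow_one] at h5
  linarith

end H469Z.Taut
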