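import Mathlib

set_option autoImplicit false

namespace H469Z.TraceCF

/-- The generator attached to a letter, over a commutative ring. -/
def gen (R : Type) [CommRing R] (b : ℕ) : Matrix (Fin 2) (Fin 2) R := !![(b : R), 1; 1, 0]

/-- Products of even-length words over `A`. -/
def evenWords (R : Type) [CommRing R] (A : Finset ℕ) : Submonoid (Matrix (Fin 2) (Fin 2) R) where
  carrier := {M | ∃ l : List ℕ, Even l.length ∧ (∀ b ∈ l, b ∈ A) ∧ (l.map (gen R)).prod = M}
  one_mem' := ⟨[], by simp, by simp, by simp⟩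
  mul_mem' := by
    rintro _ _ ⟨l, h1, h2, rfl⟩ ⟨l', h1', h2', rfl⟩
    refine ⟨l ++ l', by simpa using h1.add h1', ?_, by simp⟩
    intro b hb
    rcases List.mem_append.1 hb with h | h
    · exact h2 b h
    · exact h2' b h

theorem gen_mul_mem (R : Type) [CommRing R] (A : Finset ℕ) {a b : ℕ} (ha : a ∈ A) (hb : b ∈ A) :
    gen R a * gen R b ∈ evenWords R A :=
  ⟨[a, b], by simp, by simp [ha, hb], by simp⟩

theorem shear_pow (R : Type) [CommRing R] (c : R) (i : ℕ) :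
    (!![1, c; 0, 1] : Matrix (Fin 2) (Fin 2) R) ^ i = !![1, i * c; 0, 1] := by
  induction i with
  | zero => ext a b; fin_cases a <;> fin_cases b <;> simp
  | succ i ih =>
    rw [pow_succ, ih]
    ext a b; fin_cases a <;> fin_cases b <;> simp [Matrix.mul_apply, Fin.sum_univ_two]
    ring

theorem shear_mem (R : Type) [CommRing R] [Finite R] (A : Finset ℕ) (h1 : 1 ∈ A) (h9 : 9 ∈ A) :
    (!![1, 8; 0, 1] : Matrix (Fin 2) (Fin 2) R) ∈ evenWords R A := by
  have hG : gen R 1 * gen R 1 ∈ evenWords R A := gen_mul_mem R A h1 h1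
  have hu : IsUnit (gen R 1 * gen R 1) := by
    rw [Matrix.isUnit_iff_isUnit_det]
    simp [gen, Matrix.det_fin_two]
  obtain ⟨u, hu⟩ := hu
  obtain ⟨N, hN, hN1⟩ := (isOfFinOrder_of_finite u).exists_pow_eq_one
  obtain ⟨N, rfl⟩ : ∃ M, N = M + 1 := ⟨N - 1, by omega⟩
  have h2 : (gen R 1 * gen R 1) * (gen R 1 * gen R 1) ^ N = 1 := by
    rw [← pow_succ', ← hu, ← Units.val_pow_eq_pow_val, hN1, Units.val_one]
  have h3 : gen R 9 * gen R 1 = !![1, 8; 0, 1] * (gen R 1 * gen R 1) := by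
    ext a b; fin_cases a <;> fin_cases b <;> simp [gen, Matrix.mul_apply, Fin.sum_univ_two] <;>
      norm_num
  have h4 : (!![1, 8; 0, 1] : Matrix (Fin 2) (Fin 2) R) =
      (gen R 9 * gen R 1) * (gen R 1 * gen R 1) ^ N := by
    rw [h3, mul_assoc, h2, mul_one]
  rw [h4]
  exact mul_mem (gen_mul_mem R A h9 h1) (pow_mem hG N)

theorem map_prod_gen (q : ℕ) (l : List ℕ) :
    ((Matrix.trace (List.map (fun b : ℕ =>
      (!![(b : ℤ), 1; 1, 0] : Matrix (Fin 2) (Fin 2) ℤ)) l).prod : ℤ) : ZMod q) =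
      Matrix.trace (l.map (gen (ZMod q))).prod := by
  have h : (Int.castRingHom (ZMod q)).mapMatrix (List.map (fun b : ℕ =>
      (!![(b : ℤ), 1; 1, 0] : Matrix (Fin 2) (Fin 2) ℤ)) l).prod = (l.map (gen (ZMod q))).prod := by
    rw [map_list_prod, List.map_map]
    congr 1
    apply List.map_congr_left
    intro b _
    ext i j; fin_cases i <;> fin_cases j <;> simp [gen]
  rw [← h]
  simp [Matrix.trace]

/-- If `1, 9 ∈ A` then `m ^ 2 - 2` is admissible whenever `m ≡ 5 (mod 8)`. -/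
theorem admissible (A : Finset ℕ) (h1 : 1 ∈ A) (h9 : 9 ∈ A) (k : ℕ) (q : ℤ) (hq : 1 ≤ q) :
    ∃ l : List ℕ, l ≠ [] ∧ Even l.length ∧ (∀ b ∈ l, b ∈ A) ∧
      Matrix.trace ((List.map (fun b : ℕ =>
        (!![(b : ℤ), 1; 1, 0] : Matrix (Fin 2) (Fin 2) ℤ)) l).prod)
        ≡ (8 * (k : ℤ) + 5) ^ 2 - 2 [ZMOD q] := by
  obtain ⟨n, rfl⟩ : ∃ n : ℕ, q = (n + 1 : ℕ) := ⟨(q - 1).toNat, by push_cast; omega⟩
  set R := ZMod (n + 1)
  have hS := shear_mem R A h1 h9
  set S : Matrix (Fin 2) (Fin 2) R := !![1, 8; 0, 1] ^ ((k + 1) * n) with hSdef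
  have hS' : S ∈ evenWords R A := pow_mem hS _
  have hG : gen R 1 * gen R 1 ∈ evenWords R A := gen_mul_mem R A h1 h1
  obtain ⟨l, hl1, hl2, hl3⟩ := mul_mem (mul_mem hS' hG) hS'
  refine ⟨l ++ [1, 1], by simp, by simpa using hl1.add (by decide : Even 2), ?_, ?_⟩
  · intro b hb
    rcases List.mem_append.1 hb with h | h
    · exact hl2 b h
    · simp at h; rw [h]; exact h1
  · rw [← ZMod.intCast_eq_intCast_iff, map_prod_gen, List.map_append, List.prod_append, hl3,
      hSdef, shear_pow]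
    have hn : (n : R) = -1 := by
      have : ((n + 1 : ℕ) : R) = 0 := ZMod.natCast_self (n + 1)
      push_cast at this
      linear_combination this
    have hc : (((k + 1) * n : ℕ) : R) = -(k + 1) := by
      rw [Nat.cast_mul, hn]; push_cast; ring
    rw [hc]
    simp [gen, Matrix.trace_fin_two]
    ring

end H469Z.TraceCF
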