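import Mathlib

set_option autoImplicit false

namespace H469Z.TraceQ2

open Filter Topology

/-- `Γ_A`: the products of a positive even number of matrices `!![a, 1; 1, 0]`, `a ∈ A`. -/
def Gamma (A : Finset ℕ) : Set (Matrix (Fin 2) (Fin 2) ℤ) :=
  {M | ∃ l : List ℕ, l ≠ [] ∧ Even l.length ∧ (∀ b ∈ l, b ∈ A) ∧
    M = (List.map (fun b : ℕ => (!![(b : ℤ), 1; 1, 0] : Matrix (Fin 2) (Fin 2) ℤ)) l).prod}

/-- The set of reals `[a₀, a₁, …]` with all `a_j ∈ A`: limits of the convergents `p_n / q_n`, read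
off from the first column of the product of the first `n + 1` matrices `!![a_j, 1; 1, 0]`. -/
def cantor (A : Finset ℕ) : Set ℝ :=
  {x : ℝ | ∃ a : ℕ → ℕ, (∀ j, a j ∈ A) ∧
    Tendsto (fun n : ℕ =>
      ((List.map (fun j : ℕ => (!![(a j : ℝ), 1; 1, 0] : Matrix (Fin 2) (Fin 2) ℝ))
          (List.range (n + 1))).prod 0 0) /
      ((List.map (fun j : ℕ => (!![(a j : ℝ), 1; 1, 0] : Matrix (Fin 2) (Fin 2) ℝ))
          (List.range (n + 1))).prod 1 0)) atTop (𝓝 x)}

/-- `δ_A`: the Hausdorff dimension of `cantor A` (finite, at most `1`), as a real number. -/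
noncomputable def delta (A : Finset ℕ) : ℝ := (dimH (cantor A)).toReal

/-- `t` is admissible: it is a trace of `Γ_A` modulo every `q ≥ 1`. -/
def Admissible (A : Finset ℕ) (t : ℤ) : Prop :=
  ∀ q : ℤ, 1 ≤ q → ∃ M ∈ Gamma A, Matrix.trace M ≡ t [ZMOD q]

/-- `M_A(t)`: the number of elements of `Γ_A` with trace `t` (in `ℕ∞`). -/
noncomputable def mult (A : Finset ℕ) (t : ℤ) : ℕ∞ :=
  {M ∈ Gamma A | Matrix.trace M = t}.encard

end H469Z.TraceQ2
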