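import Mathlib

set_option autoImplicit false

namespace H469Z.TraceCF

open Filter Topology

/-- Finite continued fractions. -/
noncomputable def cf : ℕ → (ℕ → ℕ) → ℝ
  | 0, a => a 0
  | n + 1, a => a 0 + 1 / cf n (fun j => a (j + 1))

/-- The matrix products of the statement. -/
noncomputable def PM (n : ℕ) (a : ℕ → ℕ) : Matrix (Fin 2) (Fin 2) ℝ :=
  (List.map (fun j : ℕ => (!![(a j : ℝ), 1; 1, 0] : Matrix (Fin 2) (Fin 2) ℝ))
    (List.range (n + 1))).prod

theorem PM_succ (n : ℕ) (a : ℕ → ℕ) :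
    PM (n + 1) a = !![(a 0 : ℝ), 1; 1, 0] * PM n (fun j => a (j + 1)) := by
  unfold PM
  rw [List.range_succ_eq_map, List.map_cons, List.prod_cons, List.map_map]
  rfl

theorem PM_ratio (n : ℕ) : ∀ a : ℕ → ℕ, (∀ j, 2 ≤ a j) →
    0 < PM n a 0 0 ∧ 0 < PM n a 1 0 ∧ PM n a 0 0 / PM n a 1 0 = cf n a := by
  induction n with
  | zero =>
    intro a ha
    have : (2 : ℝ) ≤ a 0 := by exact_mod_cast ha 0
    simp [PM, cf]
    have := ha 0
    omega
  | succ n ih =>
    intro a ha
    obtain ⟨h1, h2, h3⟩ := ih (fun j => a (j + 1)) (fun j => ha _)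
    have h0 : (2 : ℝ) ≤ a 0 := by exact_mod_cast ha 0
    rw [PM_succ]
    simp only [Matrix.mul_apply, Fin.sum_univ_two, cf, ← h3]
    simp
    refine ⟨by positivity, h1, ?_⟩
    field_simp

theorem cf_ge (n : ℕ) : ∀ a : ℕ → ℕ, (∀ j, 2 ≤ a j) → (a 0 : ℝ) ≤ cf n a ∧ cf n a ≤ a 0 + 1 / 2 := by
  induction n with
  | zero => intro a _; simp [cf]
  | succ n ih =>
    intro a ha
    obtain ⟨h1, -⟩ := ih (fun j => a (j + 1)) (fun j => ha _)
    have h0 : (2 : ℝ) ≤ a 1 := by exact_mod_cast ha 1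
    simp only [zero_add] at h1
    have h2 : (2 : ℝ) ≤ cf n (fun j => a (j + 1)) := h0.trans h1
    simp only [cf]
    constructor
    · have : 0 ≤ 1 / cf n (fun j => a (j + 1)) := by positivity
      linarith
    · have : 1 / cf n (fun j => a (j + 1)) ≤ 1 / 2 := one_div_le_one_div_of_le (by norm_num) h2
      linarith

theorem cf_two_le (n : ℕ) (a : ℕ → ℕ) (ha : ∀ j, 2 ≤ a j) : 2 ≤ cf n a := by
  have h0 : (2 : ℝ) ≤ a 0 := by exact_mod_cast ha 0
  exact h0.trans (cf_ge n a ha).1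

theorem abs_inv_sub {u v : ℝ} (hu : 0 < u) (hv : 0 < v) : |1 / u - 1 / v| = |u - v| / (u * v) := by
  rw [show 1 / u - 1 / v = (v - u) / (u * v) by field_simp, abs_div, abs_sub_comm,
    abs_of_pos (mul_pos hu hv)]

theorem cf_dist (n : ℕ) : ∀ a : ℕ → ℕ, (∀ j, 2 ≤ a j) →
    dist (cf n a) (cf (n + 1) a) ≤ 1 * (1 / 2) ^ n := by
  induction n with
  | zero =>
    intro a ha
    have h := cf_ge 1 a ha
    rw [Real.dist_eq, abs_le]
    have e : cf 0 a = a 0 := rfl
    rw [e, pow_zero, zero_add]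
    constructor <;> linarith [h.1, h.2]
  | succ n ih =>
    intro a ha
    have h := ih (fun j => a (j + 1)) (fun j => ha _)
    have h1 := cf_two_le n (fun j => a (j + 1)) (fun j => ha _)
    have h2 := cf_two_le (n + 1) (fun j => a (j + 1)) (fun j => ha _)
    rw [Real.dist_eq] at h ⊢
    have e : cf (n + 1) a - cf (n + 1 + 1) a =
        1 / cf n (fun j => a (j + 1)) - 1 / cf (n + 1) (fun j => a (j + 1)) := by
      rw [show cf (n + 1 + 1) a = a 0 + 1 / cf (n + 1) (fun j => a (j + 1)) from rfl,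
        show cf (n + 1) a = a 0 + 1 / cf n (fun j => a (j + 1)) from rfl]
      ring
    rw [e, abs_inv_sub (by linarith) (by linarith), div_le_iff₀ (by positivity)]
    have h3 : (2 : ℝ) ≤ cf n (fun j => a (j + 1)) * cf (n + 1) (fun j => a (j + 1)) := by nlinarith
    have h4 : (0 : ℝ) < (1 / 2) ^ n := by positivity
    rw [pow_succ]
    nlinarith

/-- The value of an infinite continued fraction. -/
noncomputable def val (a : ℕ → ℕ) : ℝ := limUnder atTop (fun n => cf n a)

theorem tendsto_val (a : ℕ → ℕ) (ha : ∀ j, 2 ≤ a j) : Tendsto (fun n => cf n a) atTop (𝓝 (val a)) :=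
  (cauchySeq_of_le_geometric (1 / 2) 1 (by norm_num) (fun n => cf_dist n a ha)).tendsto_limUnder

theorem val_bounds (a : ℕ → ℕ) (ha : ∀ j, 2 ≤ a j) : (a 0 : ℝ) ≤ val a ∧ val a ≤ a 0 + 1 / 2 :=
  ⟨ge_of_tendsto' (tendsto_val a ha) (fun n => (cf_ge n a ha).1),
    le_of_tendsto' (tendsto_val a ha) (fun n => (cf_ge n a ha).2)⟩

theorem val_two_le (a : ℕ → ℕ) (ha : ∀ j, 2 ≤ a j) : 2 ≤ val a := by
  have h0 : (2 : ℝ) ≤ a 0 := by exact_mod_cast ha 0
  exact h0.trans (val_bounds a ha).1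

theorem val_eq (a : ℕ → ℕ) (ha : ∀ j, 2 ≤ a j) : val a = a 0 + 1 / val (fun j => a (j + 1)) := by
  have h1 : Tendsto (fun n => cf (n + 1) a) atTop (𝓝 (val a)) :=
    (tendsto_val a ha).comp (tendsto_add_atTop_nat 1)
  have h2 : Tendsto (fun n => cf (n + 1) a) atTop (𝓝 (a 0 + 1 / val (fun j => a (j + 1)))) := by
    simp only [cf]
    refine tendsto_const_nhds.add (tendsto_const_nhds.div (tendsto_val _ (fun j => ha _)) ?_)
    have := val_two_le (fun j => a (j + 1)) (fun j => ha _)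
    linarith
  exact tendsto_nhds_unique h1 h2

/-- A lower bound for Hausdorff dimension from an inverse Hoelder estimate. -/
theorem dimH_ge_of_inv_holder (Φ : ℝ → ℝ) (S : Set ℝ) (C s : ℝ) (hC : 0 ≤ C) (hs : 0 < s)
    (h : ∀ y ∈ S, ∀ y' ∈ S, |y - y'| ≤ C * |Φ y - Φ y'| ^ s) :
    dimH S ≤ dimH (Φ '' S) / ENNReal.ofReal s := by
  have hinj : Set.InjOn Φ S := by
    intro y hy y' hy' e
    have := h y hy y' hy'
    rw [e, sub_self, abs_zero, Real.zero_rpow hs.ne', mul_zero] at this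
    exact sub_eq_zero.1 (abs_nonpos_iff.1 this)
  let f := Function.invFunOn Φ S
  have hf : ∀ y ∈ S, f (Φ y) = y := fun y hy => hinj.leftInvOn_invFunOn hy
  have himg : f '' (Φ '' S) = S := hinj.invFunOn_image (le_refl _)
  have hH : HolderOnWith C.toNNReal s.toNNReal f (Φ '' S) := by
    rintro _ ⟨y, hy, rfl⟩ _ ⟨y', hy', rfl⟩
    rw [hf y hy, hf y' hy', edist_dist, edist_dist, Real.dist_eq, Real.dist_eq,
      Real.coe_toNNReal s hs.le, ENNReal.ofReal_rpow_of_nonneg (abs_nonneg _) hs.le]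
    change _ ≤ ENNReal.ofReal C * _
    rw [← ENNReal.ofReal_mul hC]
    exact ENNReal.ofReal_le_ofReal (h y hy y' hy')
  have := hH.dimH_image_le (by simpa using hs)
  rw [himg] at this
  exact this

section coding

variable (J : ℕ) (p : ℕ → ℝ)

theorem exists_idx (hp1 : ∑ j ∈ Finset.range J, p j = 1) (y : ℝ) (hy : y ∈ Set.Ico (0 : ℝ) 1) :
    ∃ j, j < J ∧ ∑ i ∈ Finset.range j, p i ≤ y ∧ y < ∑ i ∈ Finset.range (j + 1), p i := by
  classical
  have hex : ∃ n, y < ∑ i ∈ Finset.range n, p i := ⟨J, hp1 ▸ hy.2⟩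
  have h0 : Nat.find hex ≠ 0 := by
    intro h
    have := Nat.find_spec hex
    rw [h] at this
    simp at this
    linarith [hy.1]
  obtain ⟨j, hj⟩ := Nat.exists_eq_succ_of_ne_zero h0
  refine ⟨j, ?_, ?_, ?_⟩
  · have := Nat.find_min' hex (show y < ∑ i ∈ Finset.range J, p i from hp1 ▸ hy.2)
    omega
  · exact not_lt.1 (Nat.find_min hex (by omega))
  · have := Nat.find_spec hex
    rwa [hj] at this

theorem exists_coding (hp0 : ∀ j < J, 0 < p j) (hp1 : ∑ j ∈ Finset.range J, p j = 1) :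
    ∃ (idx : ℝ → ℕ) (T : ℝ → ℝ), ∀ y ∈ Set.Ico (0 : ℝ) 1, idx y < J ∧ T y ∈ Set.Ico (0 : ℝ) 1 ∧
      ∀ y' ∈ Set.Ico (0 : ℝ) 1, idx y' = idx y → |y - y'| = p (idx y) * |T y - T y'| := by
  choose! idx h1 h2 h3 using exists_idx J p hp1
  refine ⟨idx, fun y => (y - ∑ i ∈ Finset.range (idx y), p i) / p (idx y), fun y hy => ?_⟩
  have hp := hp0 _ (h1 y hy)
  refine ⟨h1 y hy, ⟨?_, ?_⟩, ?_⟩
  · exact div_nonneg (by linarith [h2 y hy]) hp.le
  · rw [div_lt_one hp]
    have := h3 y hy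
    rw [Finset.sum_range_succ] at this
    linarith
  · intro y' _ e
    simp only [e]
    rw [← sub_div, abs_div, abs_of_pos hp]
    field_simp
    congr 1
    ring

end coding

/-- The main dimension estimate: letters `8 j + 9`, `j < J`. -/
theorem dim_lower (J : ℕ) (s : ℝ) (hs : 0 < s)
    (hsum : 1 ≤ ∑ j ∈ Finset.range J, ((8 * (j : ℝ) + 10) ^ 2) ^ (-s)) :
    ENNReal.ofReal s ≤ dimH {x : ℝ | ∃ a : ℕ → ℕ, (∀ j, ∃ i < J, a j = 8 * i + 9) ∧ val a = x} := by
  set W := ∑ j ∈ Finset.range J, ((8 * (j : ℝ) + 10) ^ 2) ^ (-s) with hW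
  have hWpos : 0 < W := by linarith
  let p : ℕ → ℝ := fun j => ((8 * (j : ℝ) + 10) ^ 2) ^ (-s) / W
  have hp0 : ∀ j < J, 0 < p j := fun j _ => by positivity
  have hp1 : ∑ j ∈ Finset.range J, p j = 1 := by
    simp only [p]
    rw [← Finset.sum_div, div_self hWpos.ne']
  have hp2 : ∀ j : ℕ, p j * ((8 * (j : ℝ) + 10) ^ 2) ^ s ≤ 1 := fun j => by
    simp only [p]
    have : (0 : ℝ) < (8 * (j : ℝ) + 10) ^ 2 := by positivity
    rw [Real.rpow_neg this.le, div_mul_eq_mul_div, inv_mul_cancel₀ (by positivity),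
      div_le_one hWpos]
    exact hsum
  obtain ⟨idx, T, hT⟩ := exists_coding J p hp0 hp1
  let a : ℝ → ℕ → ℕ := fun y n => 8 * idx (T^[n] y) + 9
  have ha2 : ∀ y j, 2 ≤ a y j := fun y j => by simp only [a]; omega
  have hshift : ∀ y, (fun j => a y (j + 1)) = a (T y) := fun y => rfl
  have hiter : ∀ n, ∀ y ∈ Set.Ico (0 : ℝ) 1, T^[n] y ∈ Set.Ico (0 : ℝ) 1 := by
    intro n
    induction n with
    | zero => intro y hy; exact hy
    | succ n ih => intro y hy; exact ih _ (hT y hy).2.1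
  let z : ℝ → ℝ := fun y => 1 / val (a y)
  set K : ℝ := (8 * (J : ℝ) + 10) ^ 2 with hK
  have hKpos : 0 < K := by positivity
  have hval : ∀ y, val (a y) = 8 * (idx y : ℝ) + 9 + z (T y) := fun y => by
    rw [val_eq _ (ha2 y), hshift]
    simp [a, z]
  have hz : ∀ y, 0 < z y ∧ z y ≤ 1 / 2 := fun y => by
    have := val_two_le _ (ha2 y)
    exact ⟨by positivity, one_div_le_one_div_of_le (by norm_num) this⟩
  have hzd : ∀ y y', |z y - z y'| = |val (a y) - val (a y')| / (val (a y) * val (a y')) :=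
    fun y y' => abs_inv_sub (by linarith [val_two_le _ (ha2 y)]) (by linarith [val_two_le _ (ha2 y')])
  -- the key estimate, with an error term that tends to zero
  have key : ∀ n : ℕ, ∀ y ∈ Set.Ico (0 : ℝ) 1, ∀ y' ∈ Set.Ico (0 : ℝ) 1,
      |y - y'| ≤ K ^ s * |z y - z y'| ^ s + ((100 : ℝ) ^ (-s)) ^ n := by
    intro n
    induction n with
    | zero =>
      intro y hy y' hy'
      have : |y - y'| ≤ 1 := by
        rw [abs_le]; constructor <;> linarith [hy.1, hy.2, hy'.1, hy'.2]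
      have h2 : 0 ≤ K ^ s * |z y - z y'| ^ s := by positivity
      rw [pow_zero]; linarith
    | succ n ih =>
      intro y hy y' hy'
      have hv := hval y
      have hv' := hval y'
      have hzT := hz (T y)
      have hzT' := hz (T y')
      have hi : (idx y : ℝ) ≤ J := by exact_mod_cast (hT y hy).1.le
      have hi' : (idx y' : ℝ) ≤ J := by exact_mod_cast (hT y' hy').1.le
      have hi0 : (0 : ℝ) ≤ idx y := Nat.cast_nonneg _
      have hi0' : (0 : ℝ) ≤ idx y' := Nat.cast_nonneg _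
      have hvv : 0 < val (a y) * val (a y') :=
        mul_pos (by linarith [val_two_le _ (ha2 y)]) (by linarith [val_two_le _ (ha2 y')])
      by_cases e : idx y' = idx y
      · have h1 := (hT y hy).2.2 y' hy' e
        have h2 := ih _ (hT y hy).2.1 _ (hT y' hy').2.1
        set L : ℝ := (8 * (idx y : ℝ) + 10) ^ 2 with hL
        have hLpos : 0 < L := by positivity
        have h3 : |z (T y) - z (T y')| ≤ L * |z y - z y'| := by
          rw [hzd y y', mul_div_assoc', le_div_iff₀ hvv]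
          have e2 : val (a y) - val (a y') = z (T y) - z (T y') := by rw [hv, hv', e]; ring
          rw [e2, mul_comm L]
          apply mul_le_mul_of_nonneg_left _ (abs_nonneg _)
          rw [hv, hv', e, hL, sq]
          apply mul_le_mul <;> linarith
        have h4 : |z (T y) - z (T y')| ^ s ≤ L ^ s * |z y - z y'| ^ s := by
          rw [← Real.mul_rpow hLpos.le (abs_nonneg _)]
          exact Real.rpow_le_rpow (abs_nonneg _) h3 hs.le
        have h5 : p (idx y) * L ^ s ≤ 1 := hp2 _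
        have h6 : p (idx y) ≤ (100 : ℝ) ^ (-s) := by
          have h7 : (100 : ℝ) ^ s ≤ L ^ s :=
            Real.rpow_le_rpow (by norm_num) (by rw [hL]; nlinarith) hs.le
          rw [Real.rpow_neg (by norm_num), ← one_div, le_div_iff₀ (by positivity)]
          have := hp0 _ (hT y hy).1
          nlinarith
        have hp := hp0 _ (hT y hy).1
        have hKs : 0 ≤ K ^ s := by positivity
        have hzs : 0 ≤ |z y - z y'| ^ s := by positivity
        have hn : 0 ≤ ((100 : ℝ) ^ (-s)) ^ n := by positivity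
        calc |y - y'| = p (idx y) * |T y - T y'| := h1
          _ ≤ p (idx y) * (K ^ s * (L ^ s * |z y - z y'| ^ s) + ((100 : ℝ) ^ (-s)) ^ n) := by
            refine mul_le_mul_of_nonneg_left (h2.trans ?_) hp.le
            exact add_le_add (mul_le_mul_of_nonneg_left h4 hKs) le_rfl
          _ = (p (idx y) * L ^ s) * (K ^ s * |z y - z y'| ^ s)
              + p (idx y) * ((100 : ℝ) ^ (-s)) ^ n := by ring
          _ ≤ 1 * (K ^ s * |z y - z y'| ^ s) + (100 : ℝ) ^ (-s) * ((100 : ℝ) ^ (-s)) ^ n :=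
            add_le_add (mul_le_mul_of_nonneg_right h5 (mul_nonneg hKs hzs))
              (mul_le_mul_of_nonneg_right h6 hn)
          _ = _ := by rw [pow_succ]; ring
      · have h1 : |y - y'| ≤ 1 := by
          rw [abs_le]; constructor <;> linarith [hy.1, hy.2, hy'.1, hy'.2]
        have h3 : 1 ≤ K * |z y - z y'| := by
          rw [hzd y y', mul_div_assoc', le_div_iff₀ hvv, one_mul]
          have h4 : 1 ≤ |val (a y) - val (a y')| := by
            rw [hv, hv', le_abs]
            rcases Nat.lt_or_gt_of_ne e with h | h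
            · have : (idx y' : ℝ) + 1 ≤ idx y := by exact_mod_cast h
              left; linarith
            · have : (idx y : ℝ) + 1 ≤ idx y' := by exact_mod_cast h
              right; linarith
          have h5 : val (a y) * val (a y') ≤ K := by
            rw [hv, hv', hK, sq]
            apply mul_le_mul <;> linarith
          nlinarith
        have h4 : 1 ≤ K ^ s * |z y - z y'| ^ s := by
          rw [← Real.mul_rpow hKpos.le (abs_nonneg _)]
          exact Real.one_le_rpow h3 hs.le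
        have hn : 0 ≤ ((100 : ℝ) ^ (-s)) ^ (n + 1) := by positivity
        linarith
  have key2 : ∀ y ∈ Set.Ico (0 : ℝ) 1, ∀ y' ∈ Set.Ico (0 : ℝ) 1,
      |y - y'| ≤ K ^ s * |val (a y) - val (a y')| ^ s := by
    intro y hy y' hy'
    have hlt : (100 : ℝ) ^ (-s) < 1 := Real.rpow_lt_one_of_one_lt_of_neg (by norm_num) (by linarith)
    have ht : Tendsto (fun n : ℕ => K ^ s * |z y - z y'| ^ s + ((100 : ℝ) ^ (-s)) ^ n) atTop
        (𝓝 (K ^ s * |z y - z y'| ^ s + 0)) :=
      tendsto_const_nhds.add (tendsto_pow_atTop_nhds_zero_of_lt_one (by positivity) hlt)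
    have h1 := ge_of_tendsto' ht (fun n => key n y hy y' hy')
    rw [add_zero] at h1
    refine h1.trans (mul_le_mul_of_nonneg_left
      (Real.rpow_le_rpow (abs_nonneg _) ?_ hs.le) (by positivity))
    rw [hzd]
    have h2 := val_two_le _ (ha2 y)
    have h3 := val_two_le _ (ha2 y')
    exact div_le_self (abs_nonneg _) (by nlinarith)
  have h1 := dimH_ge_of_inv_holder (fun y => val (a y)) (Set.Ico 0 1) (K ^ s) s (by positivity) hs
    key2
  have h2 : dimH (Set.Ico (0 : ℝ) 1) = 1 := by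
    rw [Real.dimH_of_nonempty_interior (by rw [interior_Ico]; exact ⟨1 / 2, by norm_num, by norm_num⟩)]
    simp
  rw [h2, ENNReal.le_div_iff_mul_le (Or.inl (by simpa using hs)) (Or.inl ENNReal.ofReal_ne_top),
    one_mul] at h1
  refine h1.trans (dimH_mono ?_)
  rintro _ ⟨y, hy, rfl⟩
  exact ⟨a y, fun j => ⟨idx (T^[j] y), (hT _ (hiter j y hy)).1, rfl⟩, rfl⟩

theorem exists_J_s : ∃ (J : ℕ) (s : ℝ), 1 / 2 < s ∧
    1 ≤ ∑ j ∈ Finset.range J, ((8 * (j : ℝ) + 10) ^ 2) ^ (-s) := by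
  obtain ⟨J, hJ⟩ := (Real.tendsto_sum_range_one_div_nat_succ_atTop.eventually_gt_atTop 10).exists
  have h1 : 1 < ∑ j ∈ Finset.range J, ((8 * (j : ℝ) + 10) ^ 2) ^ (-(1 / 2 : ℝ)) := by
    have : ∑ j ∈ Finset.range J, 1 / ((j : ℝ) + 1) / 10 ≤
        ∑ j ∈ Finset.range J, ((8 * (j : ℝ) + 10) ^ 2) ^ (-(1 / 2 : ℝ)) := by
      apply Finset.sum_le_sum
      intro j _
      have h0 : (0 : ℝ) ≤ j := Nat.cast_nonneg _
      rw [Real.rpow_neg (by positivity), ← Real.sqrt_eq_rpow, Real.sqrt_sq (by positivity),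
        div_div, ← one_div]
      exact one_div_le_one_div_of_le (by positivity) (by linarith)
    rw [← Finset.sum_div] at this
    linarith
  have hc : Continuous (fun s : ℝ => ∑ j ∈ Finset.range J, ((8 * (j : ℝ) + 10) ^ 2) ^ (-s)) := by
    refine continuous_finsetSum _ (fun j _ => ?_)
    have h0 : (0 : ℝ) ≤ j := Nat.cast_nonneg _
    exact continuous_const.rpow continuous_neg (fun _ => Or.inl (by positivity))
  have h2 : ∀ᶠ s in 𝓝[>] (1 / 2 : ℝ), 1 < ∑ j ∈ Finset.range J, ((8 * (j : ℝ) + 10) ^ 2) ^ (-s) :=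
    nhdsWithin_le_nhds (hc.continuousAt.eventually (lt_mem_nhds h1))
  obtain ⟨s, hs1, hs2⟩ := (h2.and self_mem_nhdsWithin).exists
  exact ⟨J, s, hs2, hs1.le⟩

/-- There is an alphabet of letters `≡ 1 (mod 8)` containing `1, 9` with dimension above `1/2`. -/
theorem exists_alphabet : ∃ A : Finset ℕ, (∀ a ∈ A, a % 8 = 1) ∧ 1 ∈ A ∧ 9 ∈ A ∧
    ((1 / 2 : ENNReal) < dimH {x : ℝ | ∃ a : ℕ → ℕ, (∀ j, a j ∈ A) ∧
          Tendsto (fun n : ℕ =>
            ((List.map (fun j : ℕ => (!![(a j : ℝ), 1; 1, 0] : Matrix (Fin 2) (Fin 2) ℝ))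
                (List.range (n + 1))).prod 0 0) /
            ((List.map (fun j : ℕ => (!![(a j : ℝ), 1; 1, 0] : Matrix (Fin 2) (Fin 2) ℝ))
                (List.range (n + 1))).prod 1 0)) atTop (𝓝 x)}) := by
  obtain ⟨J, s, hs1, hs2⟩ := exists_J_s
  refine ⟨(Finset.range (J + 2)).image (fun j => 8 * j + 1), ?_, ?_, ?_, ?_⟩
  · intro a ha
    obtain ⟨j, -, rfl⟩ := Finset.mem_image.1 ha
    omega
  · exact Finset.mem_image.2 ⟨0, by simp, rfl⟩
  · exact Finset.mem_image.2 ⟨1, by simp, rfl⟩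
  · have h1 := dim_lower J s (by linarith) hs2
    have h2 : (1 / 2 : ENNReal) < ENNReal.ofReal s := by
      have : (1 / 2 : ENNReal) = ENNReal.ofReal (1 / 2) := by
        rw [ENNReal.ofReal_div_of_pos (by norm_num)]; simp
      rw [this]
      exact (ENNReal.ofReal_lt_ofReal_iff (by linarith)).2 hs1
    refine h2.trans_le (h1.trans (dimH_mono ?_))
    rintro _ ⟨a, ha, rfl⟩
    have ha2 : ∀ j, 2 ≤ a j := fun j => by
      obtain ⟨i, -, hi⟩ := ha j
      omega
    refine ⟨a, fun j => ?_, ?_⟩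
    · obtain ⟨i, hi1, hi⟩ := ha j
      exact Finset.mem_image.2 ⟨i + 1, by simp; omega, by omega⟩
    · refine (tendsto_val a ha2).congr (fun n => ?_)
      exact (PM_ratio n a ha2).2.2.symm

end H469Z.TraceCF
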