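import Mathlib

set_option autoImplicit false

namespace H469Z.TraceCF

open jacobiSym
open scoped NumberTheorySymbols

/-- first column and second column of the product of the matrices `!![b,1;1,0]`. -/
def col (s : ℕ × ℕ) : List ℕ → ℕ × ℕ
  | [] => s
  | x :: l => (x * (col s l).1 + (col s l).2, (col s l).1)

theorem prod_eq (l : List ℕ) :
    (List.map (fun b : ℕ => (!![(b : ℤ), 1; 1, 0] : Matrix (Fin 2) (Fin 2) ℤ)) l).prod =
      !![((col (1, 0) l).1 : ℤ), ((col (0, 1) l).1 : ℤ);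
        ((col (1, 0) l).2 : ℤ), ((col (0, 1) l).2 : ℤ)] := by
  induction l with
  | nil => ext i j; fin_cases i <;> fin_cases j <;> simp [col]
  | cons x l ih =>
    rw [List.map_cons, List.prod_cons, ih]
    ext i j; fin_cases i <;> fin_cases j <;> simp [col, Matrix.mul_apply, Fin.sum_univ_two]

theorem det_eq (l : List ℕ) :
    ((col (1, 0) l).1 : ℤ) * ((col (0, 1) l).2 : ℤ) - ((col (0, 1) l).1 : ℤ) * ((col (1, 0) l).2 : ℤ)
      = (-1) ^ l.length := by
  induction l with
  | nil => simp [col]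
  | cons x l ih =>
    simp only [col, List.length_cons, pow_succ, ← ih]
    push_cast
    ring

/-- Fibonacci numbers modulo 8 (period 12). -/
def f8 (r : ℕ) : ℕ := Nat.fib r % 8

/-- The sign pattern. -/
def sg (r : ℕ) : ℤ := if 3 ≤ r ∧ r ≤ 8 then -1 else 1

def Inv (r u v : ℕ) : Prop :=
  u % 8 = f8 (r + 1) ∧ v % 8 = f8 r ∧
    (if r % 3 = 0 then J((v : ℤ) | u) else J((u : ℤ) | v)) = sg r

theorem L0 (x u v : ℕ) : J(((x * u + v : ℕ) : ℤ) | u) = J((v : ℤ) | u) := by
  apply mod_left'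
  push_cast
  rw [add_comm, Int.add_mul_emod_self_right]

theorem L2a (x u v : ℕ) (hu : u % 8 = 0) (hv : v % 2 = 1) :
    J((u : ℤ) | x * u + v) = J((u : ℤ) | v) := by
  obtain ⟨z, rfl⟩ : ∃ z, u = 4 * z := ⟨u / 4, by omega⟩
  have hv' : Odd v := Nat.odd_iff.2 hv
  have hw : Odd (x * (4 * z) + v) := by
    apply Even.add_odd _ hv'
    exact ⟨x * 2 * z, by ring⟩
  push_cast
  rw [mul_left, mul_left, at_four hv', at_four hw, mod_right' z hv', mod_right' z hw]
  congr 2
  rw [add_comm, Nat.add_mul_mod_self_right]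

theorem L2b (x u v : ℕ) (hu : u % 8 = 2) (hv : v % 2 = 1) :
    J((u : ℤ) | x * u + v) * J(2 | v) = J((u : ℤ) | v) * J(2 | x * u + v) := by
  obtain ⟨y, rfl⟩ : ∃ y, u = 2 * y := ⟨u / 2, by omega⟩
  have hy : y % 4 = 1 := by omega
  have hv' : Odd v := Nat.odd_iff.2 hv
  have hw : Odd (x * (2 * y) + v) := by
    apply Even.add_odd _ hv'
    exact ⟨x * y, by ring⟩
  push_cast
  rw [mul_left, mul_left, quadratic_reciprocity_one_mod_four hy hv',
    quadratic_reciprocity_one_mod_four hy hw]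
  have : J(((x * (2 * y) + v : ℕ) : ℤ) | y) = J((v : ℤ) | y) := by
    have := L0 (x * 2) y v
    rwa [mul_assoc] at this
  rw [this]; ring

theorem J2 (b : ℕ) (hb : b % 2 = 1) : J(2 | b) = if b % 8 = 1 ∨ b % 8 = 7 then 1 else -1 := by
  rw [at_two (Nat.odd_iff.2 hb), ZMod.χ₈_nat_eq_if_mod_eight]
  rw [if_neg (by omega)]

theorem mod8 (x u v : ℕ) (hx : x % 8 = 1) : (x * u + v) % 8 = (u % 8 + v % 8) % 8 := by
  rw [Nat.add_mod, Nat.mul_mod, hx]; simp

theorem Inv.step {r u v : ℕ} (x : ℕ) (hx : x % 8 = 1) (hr : r < 12) (h : Inv r u v) :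
    Inv ((r + 1) % 12) (x * u + v) u := by
  obtain ⟨h1, h2, h3⟩ := h
  have h4 := mod8 x u v hx
  have hL0 := L0 x u v
  interval_cases r <;>
    simp only [Inv, f8, sg] at h1 h2 h3 ⊢ <;> norm_num [Nat.fib_add_two] at h1 h2 h3 ⊢ <;>
    rw [h1, h2] at h4 <;> norm_num at h4 <;> refine ⟨h4, h1, ?_⟩
  · push_cast at hL0; rw [hL0, h3]
  · push_cast at hL0
    rw [hL0, quadratic_reciprocity_one_mod_four (a := v) (b := u) (by omega)
      (Nat.odd_iff.2 (by omega)), h3]
  · have h5 := L2b x u v h1 (by omega)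
    rw [J2 v (by omega), J2 _ (by omega), h3, h2, h4] at h5
    simpa using h5
  · push_cast at hL0; rw [hL0, h3]
  · push_cast at hL0
    rw [hL0, ← quadratic_reciprocity_one_mod_four (a := u) (b := v) (by omega)
      (Nat.odd_iff.2 (by omega)), h3]
  · rw [L2a x u v h1 (by omega), h3]
  · push_cast at hL0; rw [hL0, h3]
  · push_cast at hL0
    rw [hL0, quadratic_reciprocity_one_mod_four (a := v) (b := u) (by omega)
      (Nat.odd_iff.2 (by omega)), h3]
  · have h5 := L2b x u v h1 (by omega)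
    rw [J2 v (by omega), J2 _ (by omega), h3, h2, h4] at h5
    simpa using h5
  · push_cast at hL0; rw [hL0, h3]
  · push_cast at hL0
    rw [hL0, ← quadratic_reciprocity_one_mod_four (a := u) (b := v) (by omega)
      (Nat.odd_iff.2 (by omega)), h3]
  · rw [L2a x u v h1 (by omega), h3]

theorem inv_col (l : List ℕ) (hl : ∀ b ∈ l, b % 8 = 1) :
    Inv (l.length % 12) (col (1, 0) l).1 (col (1, 0) l).2 := by
  induction l with
  | nil => simp [Inv, col, f8, sg]
  | cons x l ih =>
    have h := (ih (fun b hb => hl b (List.mem_cons_of_mem _ hb))).step x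
      (hl x List.mem_cons_self) (Nat.mod_lt _ (by norm_num))
    simp only [List.length_cons, col]
    rwa [Nat.mod_add_mod] at h

/-- The second column modulo 8. -/
theorem col2 (l : List ℕ) (hl : ∀ b ∈ l, b % 8 = 1) :
    (col (0, 1) l).1 % 8 = f8 (l.length % 12) ∧
      (col (0, 1) l).2 % 8 = f8 ((l.length + 11) % 12) := by
  induction l with
  | nil => simp [col, f8]; decide
  | cons x l ih =>
    obtain ⟨h1, h2⟩ := ih (fun b hb => hl b (List.mem_cons_of_mem _ hb))
    have h4 := mod8 x (col (0, 1) l).1 (col (0, 1) l).2 (hl x List.mem_cons_self)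
    simp only [List.length_cons, col]
    refine ⟨?_, ?_⟩
    · rw [h4, h1, h2]
      have e1 : (l.length + 11) % 12 = (l.length % 12 + 11) % 12 := by omega
      have e2 : (l.length + 1) % 12 = (l.length % 12 + 1) % 12 := by omega
      rw [e1, e2]
      have : l.length % 12 < 12 := Nat.mod_lt _ (by norm_num)
      generalize l.length % 12 = r at this
      interval_cases r <;> decide
    · rw [h1]
      congr 1
      omega

/-- The reciprocity obstruction: over letters congruent to 1 modulo 8, no word of even length has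
trace `25 ^ k - 2`. -/
theorem not_trace (l : List ℕ) (hl : ∀ b ∈ l, b % 8 = 1) (he : Even l.length) (k : ℕ) :
    Matrix.trace (List.map (fun b : ℕ =>
      (!![(b : ℤ), 1; 1, 0] : Matrix (Fin 2) (Fin 2) ℤ)) l).prod ≠ 25 ^ k - 2 := by
  intro h
  rw [prod_eq, Matrix.trace_fin_two_of] at h
  have hdet := det_eq l
  rw [he.neg_one_pow] at hdet
  obtain ⟨h1, h2, h3⟩ := inv_col l hl
  obtain ⟨-, h5⟩ := col2 l hl
  have e1 : (l.length + 11) % 12 = (l.length % 12 + 11) % 12 := by omega
  rw [e1] at h5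
  have hr : l.length % 12 < 12 := Nat.mod_lt _ (by norm_num)
  have hr2 : (l.length % 12) % 2 = 0 := by
    have := Nat.even_iff.1 he
    omega
  generalize l.length % 12 = r at *
  generalize (col (1, 0) l).1 = a at *
  generalize (col (1, 0) l).2 = c at *
  generalize (col (0, 1) l).1 = b at *
  generalize (col (0, 1) l).2 = d at *
  have h25 : (25 : ℤ) ^ k % 8 = 1 := by
    have := Int.ModEq.pow k (show (25 : ℤ) ≡ 1 [ZMOD 8] by decide)
    simpa [Int.ModEq] using this
  have hJ : J((a : ℤ) | c) = -1 := by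
    interval_cases r <;> simp only [f8, sg] at h1 h2 h3 h5 <;>
      norm_num [Nat.fib_add_two] at h1 h2 h3 h5 hr2 <;> first | exact h3 | omega
  obtain ⟨p, hp, hpc, hJp⟩ := eq_neg_one_at_prime_divisor_of_eq_neg_one hJ
  have : Fact p.Prime := ⟨hp⟩
  have hm : (25 : ℤ) ^ k = (5 ^ k) ^ 2 := by
    rw [← pow_mul, mul_comm, pow_mul]; norm_num
  have hdvd : (p : ℤ) ∣ ((a : ℤ) + 1) ^ 2 - a * (5 ^ k) ^ 2 := by
    have : ((a : ℤ) + 1) ^ 2 - a * (5 ^ k) ^ 2 = c * (-b) := by
      rw [← hm]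
      have : (25 : ℤ) ^ k = a + d + 2 := by linarith
      rw [this]
      linear_combination (-1 : ℤ) * hdet
    rw [this]
    exact Dvd.dvd.mul_right (Int.natCast_dvd_natCast.2 hpc) _
  obtain ⟨hd1, hd2⟩ := prime_dvd_of_eq_neg_one hJp hdvd
  have hp5 : p = 5 := by
    have h5' : p ∣ 5 ^ k := by exact_mod_cast hd2
    exact (Nat.prime_dvd_prime_iff_eq hp (by norm_num)).1 (hp.dvd_of_dvd_pow h5')
  subst hp5
  have : J((a : ℤ) | 5) = J(4 | 5) := by
    apply mod_left'
    push_cast at hd1 ⊢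
    omega
  rw [this, at_four (by decide)] at hJp
  norm_num at hJp

end H469Z.TraceCF
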