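import Mathlib
import Pool.Agent.H469Z.TraceJac
import Pool.Agent.H469Z.TraceAdm
import Pool.Agent.H469Z.TraceDim

set_option autoImplicit false

namespace H469Z.TraceCF

open Filter Topology

theorem main : ∃ A : Finset ℕ, (∀ a ∈ A, 1 ≤ a) ∧ 2 ≤ A.card ∧
    ((1 / 2 : ENNReal) < dimH {x : ℝ | ∃ a : ℕ → ℕ, (∀ j, a j ∈ A) ∧
          Tendsto (fun n : ℕ =>
            ((List.map (fun j : ℕ => (!![(a j : ℝ), 1; 1, 0] : Matrix (Fin 2) (Fin 2) ℝ))
                (List.range (n + 1))).prod 0 0) /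
            ((List.map (fun j : ℕ => (!![(a j : ℝ), 1; 1, 0] : Matrix (Fin 2) (Fin 2) ℝ))
                (List.range (n + 1))).prod 1 0)) atTop (𝓝 x)}) ∧
    ∀ N : ℤ, ∃ t : ℤ, N ≤ t ∧
        (∀ q : ℤ, 1 ≤ q → ∃ l : List ℕ, l ≠ [] ∧ Even l.length ∧ (∀ b ∈ l, b ∈ A) ∧
          Matrix.trace ((List.map (fun b : ℕ =>
            (!![(b : ℤ), 1; 1, 0] : Matrix (Fin 2) (Fin 2) ℤ)) l).prod) ≡ t [ZMOD q]) ∧
        ∀ l : List ℕ, Even l.length → (∀ b ∈ l, b ∈ A) →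
          Matrix.trace ((List.map (fun b : ℕ =>
            (!![(b : ℤ), 1; 1, 0] : Matrix (Fin 2) (Fin 2) ℤ)) l).prod) ≠ t := by
  obtain ⟨A, hA8, h1, h9, hdim⟩ := exists_alphabet
  refine ⟨A, fun a ha => by have := hA8 a ha; omega, ?_, hdim, fun N => ?_⟩
  · have : ({1, 9} : Finset ℕ) ⊆ A := by
      intro x hx
      simp only [Finset.mem_insert, Finset.mem_singleton] at hx
      rcases hx with rfl | rfl <;> assumption
    simpa using Finset.card_le_card this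
  · set i := N.toNat
    have h5 : (5 : ℕ) ^ (2 * i + 1) % 8 = 5 := by
      rw [pow_succ, pow_mul, Nat.mul_mod, Nat.pow_mod]; simp
    obtain ⟨k, hk⟩ : ∃ k : ℕ, 5 ^ (2 * i + 1) = 8 * k + 5 := ⟨5 ^ (2 * i + 1) / 8, by omega⟩
    have ht : (25 : ℤ) ^ (2 * i + 1) = (8 * (k : ℤ) + 5) ^ 2 := by
      have : (8 * (k : ℤ) + 5) = 5 ^ (2 * i + 1) := by exact_mod_cast hk.symm
      rw [this, ← pow_mul, mul_comm _ 2, pow_mul]; norm_num
    refine ⟨25 ^ (2 * i + 1) - 2, ?_, fun q hq => ?_, fun l hl hlA => ?_⟩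
    · have h2 : 2 * i + 1 < 25 ^ (2 * i) * 25 - 2 := by
        have := Nat.lt_pow_self (n := 2 * i) (show 1 < 25 by norm_num)
        omega
      have h3 : ((2 * i + 1 : ℕ) : ℤ) + 2 < ((25 ^ (2 * i) * 25 : ℕ) : ℤ) := by omega
      push_cast at h3
      have h4 : N ≤ (i : ℤ) := Int.self_le_toNat N
      rw [pow_succ]
      omega
    · rw [ht]; exact admissible A h1 h9 k q hq
    · exact not_trace l (fun b hb => hA8 b (hlA b hb)) hl _

end H469Z.TraceCF
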