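import Mathlib
import Pool.Agent.H469Z.TraceMain
import Pool.Agent.H469Z.TraceDefs

set_option autoImplicit false

namespace H469Z.TraceQ2

theorem notQ2 :
    ¬ ∀ A : Finset ℕ, (∀ a ∈ A, 1 ≤ a) → 2 ≤ A.card → 1 / 2 < delta A →
      ∀ ε : ℝ, 0 < ε → ∃ N₀ : ℕ, ∀ N : ℕ, N₀ ≤ N → ∀ t : ℤ, Admissible A t →
        (N : ℤ) ≤ t → t < 2 * (N : ℤ) →
        ENNReal.ofReal ((N : ℝ) ^ (2 * delta A - 1 - ε)) < (mult A t : ENNReal) := by
  intro h
  obtain ⟨A, h1, h2, h3, h4⟩ := H469Z.TraceCF.main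
  have hd : 1 / 2 < delta A := by
    have hle : dimH (cantor A) ≤ 1 := by
      rw [← Real.dimH_univ]; exact dimH_mono (Set.subset_univ _)
    have hne : dimH (cantor A) ≠ ⊤ := ne_top_of_le_ne_top ENNReal.one_ne_top hle
    have h5 : (1 / 2 : ENNReal) < dimH (cantor A) := h3
    have := (ENNReal.toReal_lt_toReal (by simp) hne).2 h5
    simpa [delta] using this
  obtain ⟨N₀, hN⟩ := h A h1 h2 hd 1 one_pos
  obtain ⟨t, ht1, ht2, ht3⟩ := h4 (N₀ + 1)
  have ht0 : 0 < t := by omega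
  have hadm : Admissible A t := fun q hq => by
    obtain ⟨l, a1, a2, a3, a4⟩ := ht2 q hq
    exact ⟨_, ⟨l, a1, a2, a3, rfl⟩, a4⟩
  have h6 := hN t.toNat (by omega) t hadm (by omega) (by omega)
  have h7 : mult A t = 0 := by
    unfold mult
    rw [Set.encard_eq_zero, Set.eq_empty_iff_forall_notMem]
    rintro M ⟨⟨l, -, a2, a3, rfl⟩, hM⟩
    exact ht3 l a2 a3 hM
  rw [h7] at h6
  simp at h6

end H469Z.TraceQ2
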